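import Pool.Agent.Helper95.TDS.CDef

/-!
Definitions for the kernel computations on the imprimitive and intransitive overgroups.
-/

namespace Pool.Agent.Helper95.TDS

/-- code of the matching `mt j` -/
def mcod (j : ℕ) : ℕ :=
  comp (comp (pw 35408301052408336 j) 28502781892209031) (pw 57325821153784336 j)

/-- code of the conjugate by `rho ^ k` of the matching `mt j` -/
def mcode (k j : ℕ) : ℕ := comp (comp (pw rc k) (mcod j)) (pw rc' k)

/-- side of a point for the `k`-th element; `r` codes `rho ^ (-k)` -/
def sd (r p : ℕ) : Bool := Nat.blt (dg r p) 7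

/-- partition not preserved -/
def nAk (c r : ℕ) : Bool :=
  anyN (fun p => !(beqB (sd r (dg c p)) (sd r p))) 14 &&
  anyN (fun p => beqB (sd r (dg c p)) (sd r p)) 14

/-- commutes with no matching of a list -/
def nBk (c : ℕ) (l : List ℕ) : Bool :=
  allL (fun M => anyN (fun p => !(Nat.beq (dg c (dg M p)) (dg M (dg c p)))) 14) l

/-- outside both overgroups for the index `k` -/
def nAB (c k : ℕ) : Bool := force (pw rc' k) (fun r => nAk c r) && nBk c (tab1 (mcode k) 7 [])

/-- test of a complete code -/
def leafT (a b c : ℕ) : Bool := nAB c a || (nAB c b || (Nat.beq c idc || par c))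

/-- recover the code from the code in the coordinates of the order -/
def unord (pos c : ℕ) : ℕ := build (fun v => dg c (dg pos v)) 14

/-- search over permutations commuting with `m1` and `m2` -/
def dfs2 (m1 m2 oc pos a b : ℕ) (n : ℕ) : ℕ → Bool :=
  Nat.rec (fun c => force (unord pos c) (leafT a b))
    (fun n rec c => force (Nat.sub 13 n) (fun i =>
      force (dg pos (dg m1 (dg oc i))) (fun u1 => force (dg pos (dg m2 (dg oc i))) (fun u2 =>
        cond (Nat.blt u1 i)
          (force (dg m1 (dg c u1)) (fun q => anyN (fun j => Nat.beq (dg c j) q) i ||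
            ((Nat.blt u2 i && !(Nat.beq q (dg m2 (dg c u2)))) ||
              force (Nat.add c (te i q)) rec)))
          (cond (Nat.blt u2 i)
            (force (dg m2 (dg c u2)) (fun q => anyN (fun j => Nat.beq (dg c j) q) i ||
              force (Nat.add c (te i q)) rec))
            (allN (fun q => anyN (fun j => Nat.beq (dg c j) q) i ||
              force (Nat.add c (te i q)) rec) 14)))))) n

/-- check for one pair of matchings -/
def chkPair (l j j' a b : ℕ) (oc pos : ℕ) : Bool :=
  (isInv oc pos && isInv pos oc) &&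
    force (mcode 0 j) (fun m1 => force (mcode l j') (fun m2 => dfs2 m1 m2 oc pos a b 14 0))

/-- labels do not match -/
def labBad (r i q q0 : ℕ) : Bool :=
  !(beqB (beqB (sd r q) (sd r i)) (beqB (sd r q0) (sd r 0)))

/-- search over permutations preserving three partitions -/
def dfs3 (r1 r2 a : ℕ) (n : ℕ) : ℕ → Bool :=
  Nat.rec (fun c => leafT a a c)
    (fun n rec c => force (Nat.sub 13 n) (fun i =>
      allN (fun q => anyN (fun j => Nat.beq (dg c j) q) i ||
        ((!(Nat.beq i 0) && (labBad idc i q (dg c 0) ||
          (labBad r1 i q (dg c 0) || labBad r2 i q (dg c 0)))) ||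
          force (Nat.add c (te i q)) rec)) 14)) n

def chk3 : Bool := force (pw rc' 1) (fun r1 => force (pw rc' 2) (fun r2 => dfs3 r1 r2 3 14 0))

/-- list lookup -/
def nth (l : List ℕ) (n : ℕ) : ℕ := List.rec (fun _ => 0) (fun a _ r n => Nat.rec a (fun m _ => r m) n) l n

/-- all pairs -/
def chkPairs (l a b : ℕ) (L : List ℕ) : Bool :=
  allN (fun j => allN (fun j' => force (nth L (Nat.add (Nat.mul 14 j) (Nat.mul 2 j'))) (fun oc =>
    force (nth L (Nat.add (Nat.add (Nat.mul 14 j) (Nat.mul 2 j')) 1)) (fun pos =>
      chkPair l j j' a b oc pos))) 7) 7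

end Pool.Agent.Helper95.TDS
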