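import Pool.Agent.Helper95.TDS.ABDef

/-! Kernel computation for pairs of matchings at distance 1. -/

namespace Pool.Agent.Helper95.TDS

/-- orders of the points -/
def ord1 : List ℕ := [30745101496717936, 56095129532215936, 21346765548755056, 52289895834404656, 50882655488780656, 30352194975581056, 36489816349656466, 28018980827013316, 41159587977588916, 37747149973273666, 26057002392344176, 17055302563686976, 6953794412061586, 28625908026450136, 55271605859199616, 48838593983845216, 16841402428974976, 50885884062849376, 50497894017761476, 23035402835249026, 45814705651290496, 25769466206526496, 40944310774694101, 5745857614149826, 59982502373326966, 61176427819058866, 33317144070160546, 47641168224735346, 29451260031085456, 34105872738583456, 21869662199552656, 55646384524446256, 12132925112342416, 42724909355920816, 37914198767145121, 29749749653932546, 33166434259870096, 51390167734974496, 59850091845685426, 59702616080011426, 7366205384803216, 19048048566283216, 29750321288356051, 7234530915518626, 20131149143621041, 11282551724128516, 12463609579865521, 30423021410548996, 37601861544956866, 13959113117868166, 17267565784045216, 56665781793380416, 59537571844617376, 60377873741170576, 7746511425413236, 28643974845592786, 29981868278665921, 13929211871511046, 20392764207607216, 11283586536547216, 12849131613897136, 54917812105551136, 37216075257393301,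 42561122905929826, 42170905673380006, 51283238819502706, 37337711283131056, 14948331322901056, 8112911251097776, 52945205534612176, 30280938987569266, 23583111868211266, 20729262421948096, 18361601563126096, 51290408468583616, 32044417272690016, 36953873339039926, 27893155355149426, 41859119852959936, 32010985481712736, 58927542944821891, 60616630974612166, 46561584032652736, 9479410973836336, 30424760808346576, 7959608099744176, 20990877457174726, 13876624875169426, 11359155884149456, 5808155236986256, 36810230134872016, 7763089676397616, 41421655208480881, 16140667894287106, 25658451488253136, 6688923393891136, 6555463167299731, 14770945598884306]

set_option maxRecDepth 100000 in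
theorem pairs1 : chkPairs 1 2 3 ord1 = true := by decide +kernel

end Pool.Agent.Helper95.TDS
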