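import Pool.Agent.Helper95.TDS.ABDef

/-! Kernel computation for pairs of matchings at distance 2. -/

namespace Pool.Agent.Helper95.TDS

/-- orders of the points -/
def ord2 : List ℕ := [30842075232371056, 55334791470938656, 16524015488058736, 19065982952331136, 36489889361653906, 29355986436595906, 60318359958684016, 60139382388790816, 30782628025346416, 56955965537551216, 11604571438477441, 32803659743608066, 46097203266499696, 25681873256761696, 33242452600245376, 41191699300697776, 16785253618009216, 19082580084316816, 26261181113209216, 56986800922256416, 33297792970883251, 25359633800169826, 29151607342801621, 5774324976161446, 11906020283748736, 29937715612699936, 45701310343050931, 46475837665709206, 33110043600457906, 20014654332166306, 17122173012124021, 52991482995070246, 37932428304635041, 16731670230246916, 59787418379797426, 59415798231081076, 29469442829204641, 36786757504154116, 12337214207280016, 50605122632953216, 45551070954950851, 49941143492364226, 32718812208727456, 46269183795443056, 17383397492356246, 57287945346013846, 37503550034581186, 45446378298126436, 59586333632398786, 59027709474947236, 29682607570376881, 20292323488979206, 37551885588919456, 37279685771695456, 59604905827071136, 61732596653148736, 32449617871884976, 16068584369013376, 15579438476280196, 18991459708491046, 37386235252090561, 49913006306130436, 59322447734412676,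 61770776203791526, 30048792012277936, 25645501204632736, 37337599043513776, 10444868331270976, 59208170521863856, 59975788534459456, 32288385502068901, 37068337381268626, 15843325381844416, 9437848535815216, 36972303776986816, 36374512940860816, 51309420991312576, 23038785412096576, 30261984607881586, 37654060382527636, 37036660148479936, 22915734246703936, 46486567853799121, 5978627271912196, 31925981017291216, 7447172029364416, 11341142217551056, 5236202727497056, 36753767930319046, 13939322542926946, 55814043654582736, 8297555707003936, 30579792240720241, 26031110079789316, 11285139779789971, 25160247663529396, 25733217141420496, 7535534009521696]

set_option maxRecDepth 100000 in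
theorem pairs2 : chkPairs 2 1 3 ord2 = true := by decide +kernel

end Pool.Agent.Helper95.TDS
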