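import Pool.Agent.Helper95.TDS.CSound
import Pool.Agent.Helper95.TDS.Chk3
import Pool.Agent.Helper95.TDS.Pairs1
import Pool.Agent.Helper95.TDS.Pairs2

/-!
Soundness of the kernel computations on the imprimitive and intransitive overgroups.
-/

namespace Pool.Agent.Helper95.TDS

open Equiv Equiv.Perm

theorem cod_mcod (j : ℕ) : Cod (mcod j) (mt j) := by
  have h := ((cod_sB.pow j).mul cod_tau).mul (cod_sB'.pow j)
  rw [inv_pow] at h
  exact h

theorem cod_mcode (k j : ℕ) : Cod (mcode k j) (rho ^ k * mt j * (rho ^ k)⁻¹) := by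
  have h := ((cod_rho.pow k).mul (cod_mcod j)).mul (cod_rho'.pow k)
  rw [inv_pow] at h
  exact h

theorem cod_rinv (k : ℕ) : Cod (pw rc' k) (rho ^ k)⁻¹ := by
  have h := cod_rho'.pow k
  rwa [inv_pow] at h

theorem InA_cjx {k : ℕ} {x : Perm (Fin 14)} (h : InA (cjx k x)) :
    (∀ p : Fin 14, ((rho ^ k)⁻¹ (x p)).val < 7 ↔ ((rho ^ k)⁻¹ p).val < 7) ∨
    (∀ p : Fin 14, ((rho ^ k)⁻¹ (x p)).val < 7 ↔ ¬ ((rho ^ k)⁻¹ p).val < 7) := by
  have e : ∀ p : Fin 14, cjx k x ((rho ^ k)⁻¹ p) = (rho ^ k)⁻¹ (x p) := by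
    intro p
    rw [cjx, Perm.mul_apply, Perm.mul_apply, pai]
  rcases h with h | h
  · left
    intro p
    rw [← e]; exact h _
  · right
    intro p
    rw [← e]; exact h _

theorem nAk_spec {c r k : ℕ} {x : Perm (Fin 14)} (hx : Cod c x) (hr : Cod r (rho ^ k)⁻¹)
    (h : nAk c r = true) : ¬ InA (cjx k x) := by
  intro hA
  have hA := InA_cjx hA
  rw [nAk, Bool.and_eq_true] at h
  obtain ⟨h1, h2⟩ := h
  rcases hA with h3 | h3
  · obtain ⟨p, hp, h4⟩ := anyN_spec h1
    have h5 : dg c p = (x ⟨p, hp⟩).val := hx ⟨p, hp⟩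
    have h5' : dg r p = ((rho ^ k)⁻¹ ⟨p, hp⟩).val := hr ⟨p, hp⟩
    rw [Bool.not_eq_true'] at h4
    have h6 := h3 ⟨p, hp⟩
    have h7 : beqB (sd r (dg c p)) (sd r p) = true := by
      rw [beqB_iff, sd, sd, blt_iff, h5, hr, h5']; exact h6
    rw [h7] at h4
    exact absurd h4 (by decide)
  · obtain ⟨p, hp, h4⟩ := anyN_spec h2
    have h5 : dg c p = (x ⟨p, hp⟩).val := hx ⟨p, hp⟩
    have h5' : dg r p = ((rho ^ k)⁻¹ ⟨p, hp⟩).val := hr ⟨p, hp⟩
    rw [beqB_iff, sd, sd, blt_iff, h5, hr, h5'] at h4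
    have h6 := h3 ⟨p, hp⟩
    tauto

theorem nBk_spec {c k : ℕ} {x : Perm (Fin 14)} (hx : Cod c x)
    (h : nBk c (tab1 (mcode k) 7 []) = true) : ¬ InB (cjx k x) := by
  rintro ⟨j, hj, h1⟩
  obtain ⟨p, hp, h2⟩ := anyN_spec (allL_spec h ((mem_tab1 (mcode k) 7 []).1 j hj))
  have hM := cod_mcode k j
  have h3 : x * (rho ^ k * mt j * (rho ^ k)⁻¹) = (rho ^ k * mt j * (rho ^ k)⁻¹) * x := by
    have e1 : x = rho ^ k * cjx k x * (rho ^ k)⁻¹ := by rw [cjx]; group
    calc x * (rho ^ k * mt j * (rho ^ k)⁻¹)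
        = (rho ^ k * cjx k x * (rho ^ k)⁻¹) * (rho ^ k * mt j * (rho ^ k)⁻¹) := by rw [← e1]
      _ = rho ^ k * (cjx k x * mt j) * (rho ^ k)⁻¹ := by group
      _ = rho ^ k * (mt j * cjx k x) * (rho ^ k)⁻¹ := by rw [h1]
      _ = (rho ^ k * mt j * (rho ^ k)⁻¹) * (rho ^ k * cjx k x * (rho ^ k)⁻¹) := by group
      _ = (rho ^ k * mt j * (rho ^ k)⁻¹) * x := by rw [← e1]
  have h4 := (hx.mul hM)
  have h5 := congrArg (fun f : Perm (Fin 14) => (f ⟨p, hp⟩).val) h3
  simp only [Perm.mul_apply _ x, Perm.mul_apply x] at h5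
  rw [← hx, ← hM ⟨p, hp⟩, ← hM, ← hx ⟨p, hp⟩] at h5
  rw [Bool.not_eq_true'] at h2
  have h6 : Nat.beq (dg c (dg (mcode k j) p)) (dg (mcode k j) (dg c p)) = true := by
    rw [Nat.beq_eq]; exact h5
  rw [h6] at h2
  exact absurd h2 (by decide)

theorem nAB_spec {c k : ℕ} {x : Perm (Fin 14)} (hx : Cod c x) (h : nAB c k = true) :
    ¬ InA (cjx k x) ∧ ¬ InB (cjx k x) := by
  rw [nAB, Bool.and_eq_true, force_eq] at h
  exact ⟨nAk_spec hx (cod_rinv k) h.1, nBk_spec hx h.2⟩

theorem leafT_spec {a b c : ℕ} {x : Perm (Fin 14)} (hx : Cod c x)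
    (hA : x ∈ alternatingGroup (Fin 14)) (hbad : ∀ k, InA (cjx k x) ∨ InB (cjx k x))
    (h : leafT a b c = true) : x = 1 := by
  rw [leafT, Bool.or_eq_true, Bool.or_eq_true, Bool.or_eq_true] at h
  rcases h with h | h | h | h
  · have := nAB_spec hx h
    have := hbad a
    tauto
  · have := nAB_spec hx h
    have := hbad b
    tauto
  · have h1 := Nat.eq_of_beq_eq_true h
    rw [h1] at hx
    exact hx.eq cod_one
  · rw [par_false hx hA] at h
    exact absurd h (by decide)

theorem te_build (Y : ℕ → ℕ) (i : ℕ) : Nat.add (build Y i) (te i (Y i)) = build Y (i + 1) := by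
  rw [build_succ, te_eq]; rfl

theorem anyN_false {f : ℕ → Bool} {n : ℕ} (h : ∀ i < n, f i = false) : anyN f n = false := by
  by_contra hcon
  rw [Bool.not_eq_false] at hcon
  obtain ⟨i, hi, h1⟩ := anyN_spec hcon
  rw [h i hi] at h1
  exact absurd h1 (by decide)

theorem beq_false' {a b : ℕ} (h : a ≠ b) : Nat.beq a b = false := by
  by_contra hcon
  rw [Bool.not_eq_false] at hcon
  exact h (Nat.eq_of_beq_eq_true hcon)

theorem inj_false {Y : ℕ → ℕ} (hY : ∀ i, Y i < 16) {i : ℕ} (hi : i < 14)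
    (hinj : ∀ i < 14, ∀ j < 14, Y i = Y j → i = j) :
    anyN (fun j => Nat.beq (dg (build Y i) j) (Y i)) i = false := by
  apply anyN_false
  intro j hj
  rw [dg_build hY hj]
  apply beq_false'
  intro h
  have := hinj j (by omega) i hi h
  omega

theorem dfs2_spec {m1 m2 oc pos a b : ℕ} {y M1 M2 : Perm (Fin 14)} (hm1 : Cod m1 M1)
    (hm2 : Cod m2 M2) (hi1 : ∀ p, M1 (M1 p) = p) (hi2 : ∀ p, M2 (M2 p) = p)
    (hc1 : ∀ p, y (M1 p) = M1 (y p)) (hc2 : ∀ p, y (M2 p) = M2 (y p))
    (hord : (isInv oc pos && isInv pos oc) = true)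
    (hA : y ∈ alternatingGroup (Fin 14)) (hbad : ∀ k, InA (cjx k y) ∨ InB (cjx k y))
    (h : dfs2 m1 m2 oc pos a b 14 0 = true) : y = 1 := by
  -- the order as a permutation
  set O := mkP oc pos hord with hO
  have hOc : Cod oc O := cod_mkP _ _ _
  have hOc' : Cod pos O⁻¹ := cod_mkP_inv _ _ _
  let Y : ℕ → ℕ := fun i => if h : i < 14 then (y (O ⟨i, h⟩)).val else 0
  have hYv : ∀ i : Fin 14, Y i.val = (y (O i)).val := by
    intro i; simp only [Y, dif_pos i.2]
  have hY : ∀ i, Y i < 16 := by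
    intro i
    by_cases hi : i < 14
    · simp only [Y, dif_pos hi]; omega
    · simp only [Y, dif_neg hi]; norm_num
  have hYinj : ∀ i < 14, ∀ j < 14, Y i = Y j → i = j := by
    intro i hi j hj hij
    have h1 := hYv ⟨i, hi⟩
    have h2 := hYv ⟨j, hj⟩
    simp only at h1 h2
    rw [h1, h2] at hij
    have h3 := O.injective (y.injective (Fin.ext hij))
    exact congrArg Fin.val h3
  have hleaf : leafT a b (unord pos (build Y 14)) = true → y = 1 := by
    intro hl
    refine leafT_spec ?_ hA hbad hl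
    intro v
    rw [unord, dg_build (fun _ => dg_lt _ _) v.2, hOc' v, dg_build hY (Fin.is_lt _), hYv, pai]
  -- value from a partner
  have hpart : ∀ (m : ℕ) (M : Perm (Fin 14)), Cod m M → (∀ p, M (M p) = p) →
      (∀ p, y (M p) = M (y p)) → ∀ i < 14, dg pos (dg m (dg oc i)) < i →
      dg m (dg (build Y i) (dg pos (dg m (dg oc i)))) = Y i := by
    intro m M hm hi hc i hi14 hlt
    rw [dg_build hY hlt]
    have e1 : dg oc i = (O ⟨i, hi14⟩).val := hOc ⟨i, hi14⟩
    rw [e1, hm, hOc', hYv, pai, hm, hc, hi]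
    exact (hYv ⟨i, hi14⟩).symm
  have key : ∀ n, n ≤ 14 → dfs2 m1 m2 oc pos a b n (build Y (14 - n)) = true → y = 1 := by
    intro n
    induction n with
    | zero =>
      intro _ h
      have h' : force (unord pos (build Y 14)) (leafT a b) = true := h
      rw [force_eq] at h'
      exact hleaf h'
    | succ n ih =>
      intro hn h
      have hi14 : 13 - n < 14 := by omega
      have e14 : 14 - (n + 1) = 13 - n := by omega
      have e15 : 13 - n + 1 = 14 - n := by omega
      rw [e14] at h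
      have h' : force (Nat.sub 13 n) (fun i =>
        force (dg pos (dg m1 (dg oc i))) (fun u1 => force (dg pos (dg m2 (dg oc i))) (fun u2 =>
        cond (Nat.blt u1 i)
          (force (dg m1 (dg (build Y (13 - n)) u1)) (fun q =>
            anyN (fun j => Nat.beq (dg (build Y (13 - n)) j) q) i ||
            ((Nat.blt u2 i && !(Nat.beq q (dg m2 (dg (build Y (13 - n)) u2)))) ||
              force (Nat.add (build Y (13 - n)) (te i q)) (dfs2 m1 m2 oc pos a b n))))
          (cond (Nat.blt u2 i)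
            (force (dg m2 (dg (build Y (13 - n)) u2)) (fun q =>
              anyN (fun j => Nat.beq (dg (build Y (13 - n)) j) q) i ||
              force (Nat.add (build Y (13 - n)) (te i q)) (dfs2 m1 m2 oc pos a b n)))
            (allN (fun q => anyN (fun j => Nat.beq (dg (build Y (13 - n)) j) q) i ||
              force (Nat.add (build Y (13 - n)) (te i q)) (dfs2 m1 m2 oc pos a b n)) 14))))) =
          true := h
      simp only [force_eq] at h'
      have esub : Nat.sub 13 n = 13 - n := rfl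
      rw [esub] at h'
      set i := 13 - n with hidef
      have hnext : dfs2 m1 m2 oc pos a b n (Nat.add (build Y i) (te i (Y i))) = true → y = 1 := by
        intro h2
        rw [te_build, e15] at h2
        exact ih (by omega) h2
      by_cases h1 : dg pos (dg m1 (dg oc i)) < i
      · have b1 : Nat.blt (dg pos (dg m1 (dg oc i))) i = true := by rw [Nat.blt_eq]; exact h1
        rw [b1, cond_true, hpart m1 M1 hm1 hi1 hc1 i hi14 h1, inj_false hY hi14 hYinj,
          Bool.false_or] at h'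
        by_cases h2 : dg pos (dg m2 (dg oc i)) < i
        · rw [hpart m2 M2 hm2 hi2 hc2 i hi14 h2, Nat.beq_refl, Bool.not_true, Bool.and_false,
            Bool.false_or] at h'
          exact hnext h'
        · have b2 : Nat.blt (dg pos (dg m2 (dg oc i))) i = false := by
            rw [← Bool.not_eq_true, Nat.blt_eq]; exact h2
          rw [b2, Bool.false_and, Bool.false_or] at h'
          exact hnext h'
      · have b1 : Nat.blt (dg pos (dg m1 (dg oc i))) i = false := by
          rw [← Bool.not_eq_true, Nat.blt_eq]; exact h1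
        rw [b1, cond_false] at h'
        by_cases h2 : dg pos (dg m2 (dg oc i)) < i
        · have b2 : Nat.blt (dg pos (dg m2 (dg oc i))) i = true := by rw [Nat.blt_eq]; exact h2
          rw [b2, cond_true, hpart m2 M2 hm2 hi2 hc2 i hi14 h2, inj_false hY hi14 hYinj,
            Bool.false_or] at h'
          exact hnext h'
        · have b2 : Nat.blt (dg pos (dg m2 (dg oc i))) i = false := by
            rw [← Bool.not_eq_true, Nat.blt_eq]; exact h2
          rw [b2, cond_false] at h'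
          have hYi : Y i < 14 := by
            have := hYv ⟨i, hi14⟩
            simp only at this
            rw [this]; exact Fin.is_lt _
          have h3 := allN_spec h' (Y i) hYi
          rw [inj_false hY hi14 hYinj, Bool.false_or] at h3
          exact hnext h3
  exact key 14 le_rfl h

theorem labBad_false {k r : ℕ} {y : Perm (Fin 14)} (hr : Cod r (rho ^ k)⁻¹)
    (hA : InA (cjx k y)) (i : Fin 14) : labBad r i.val (y i).val (y 0).val = false := by
  rw [labBad, Bool.not_eq_false', beqB_iff]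
  have h0 : dg r 0 = ((rho ^ k)⁻¹ 0).val := hr 0
  simp only [sd]
  rw [hr, hr, hr, h0]
  rw [Bool.eq_iff_iff, beqB_iff, beqB_iff, blt_iff, blt_iff]
  rcases InA_cjx hA with h | h
  · have h1 := h i
    have h2 := h 0
    tauto
  · have h1 := h i
    have h2 := h 0
    tauto

theorem dfs3_spec {r1 r2 a : ℕ} {y : Perm (Fin 14)} (hr1 : Cod r1 (rho ^ 1)⁻¹)
    (hr2 : Cod r2 (rho ^ 2)⁻¹) (h0 : InA (cjx 0 y)) (h1 : InA (cjx 1 y)) (h2 : InA (cjx 2 y))
    (hA : y ∈ alternatingGroup (Fin 14)) (hbad : ∀ k, InA (cjx k y) ∨ InB (cjx k y))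
    (h : dfs3 r1 r2 a 14 0 = true) : y = 1 := by
  let Y : ℕ → ℕ := fun i => if h : i < 14 then (y ⟨i, h⟩).val else 0
  have hYv : ∀ i : Fin 14, Y i.val = (y i).val := by
    intro i; simp only [Y, dif_pos i.2]
  have hY : ∀ i, Y i < 16 := by
    intro i
    by_cases hi : i < 14
    · simp only [Y, dif_pos hi]; omega
    · simp only [Y, dif_neg hi]; norm_num
  have hYinj : ∀ i < 14, ∀ j < 14, Y i = Y j → i = j := by
    intro i hi j hj hij
    have h1 := hYv ⟨i, hi⟩
    have h2 := hYv ⟨j, hj⟩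
    simp only at h1 h2
    rw [h1, h2] at hij
    have h3 := y.injective (Fin.ext hij)
    exact congrArg Fin.val h3
  have hid : Cod idc (rho ^ 0)⁻¹ := by
    rw [pow_zero, inv_one]; exact cod_one
  have key : ∀ n, n ≤ 14 → dfs3 r1 r2 a n (build Y (14 - n)) = true → y = 1 := by
    intro n
    induction n with
    | zero =>
      intro _ h
      refine leafT_spec ?_ hA hbad (show leafT a a (build Y 14) = true from h)
      intro v
      rw [dg_build hY v.2, hYv]
    | succ n ih =>
      intro hn h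
      have hi14 : 13 - n < 14 := by omega
      have e14 : 14 - (n + 1) = 13 - n := by omega
      have e15 : 13 - n + 1 = 14 - n := by omega
      rw [e14] at h
      have h' : force (Nat.sub 13 n) (fun i =>
        allN (fun q => anyN (fun j => Nat.beq (dg (build Y (13 - n)) j) q) i ||
          ((!(Nat.beq i 0) && (labBad idc i q (dg (build Y (13 - n)) 0) ||
            (labBad r1 i q (dg (build Y (13 - n)) 0) ||
              labBad r2 i q (dg (build Y (13 - n)) 0)))) ||
            force (Nat.add (build Y (13 - n)) (te i q)) (dfs3 r1 r2 a n))) 14) = true := h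
      simp only [force_eq] at h'
      have esub : Nat.sub 13 n = 13 - n := rfl
      rw [esub] at h'
      set i := 13 - n with hidef
      have hYi : Y i < 14 := by
        have := hYv ⟨i, hi14⟩
        simp only at this
        rw [this]; exact Fin.is_lt _
      have h3 := allN_spec h' (Y i) hYi
      rw [inj_false hY hi14 hYinj, Bool.false_or] at h3
      have h4 : (!(Nat.beq i 0) && (labBad idc i (Y i) (dg (build Y i) 0) ||
            (labBad r1 i (Y i) (dg (build Y i) 0) ||
              labBad r2 i (Y i) (dg (build Y i) 0)))) = false := by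
        by_cases hi0 : i = 0
        · rw [hi0]; rfl
        · have e0 : dg (build Y i) 0 = (y 0).val := by
            rw [dg_build hY (by omega)]
            exact hYv 0
          have ei : Y i = (y ⟨i, hi14⟩).val := hYv ⟨i, hi14⟩
          have l0 := labBad_false hid h0 ⟨i, hi14⟩
          have l1 := labBad_false hr1 h1 ⟨i, hi14⟩
          have l2 := labBad_false hr2 h2 ⟨i, hi14⟩
          simp only at l0 l1 l2
          rw [e0, ei, l0, l1, l2]
          simp
      rw [h4, Bool.false_or, te_build, e15] at h3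
      exact ih (by omega) h3
  exact key 14 le_rfl h

theorem mt_invol {j : ℕ} (p : Fin 14) : mt j (mt j p) = p := by
  have h : tau * tau = 1 := by
    refine Cod.eq (c := idc) ?_ cod_one
    have := cod_tau.mul cod_tau
    have e : comp 28502781892209031 28502781892209031 = idc := by decide +kernel
    rwa [e] at this
  have h2 : mt j * mt j = 1 := by
    have : mt j * mt j = sB ^ j * (tau * tau) * (sB ^ j)⁻¹ := by rw [mt]; group
    rw [this, h]; group
  exact congrArg (fun f : Perm (Fin 14) => f p) h2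

theorem B_pair {l a b : ℕ} {L : List ℕ} (hchk : chkPairs l a b L = true) {y : Perm (Fin 14)}
    (hB0 : InB (cjx 0 y)) (hBl : InB (cjx l y))
    (hA : y ∈ alternatingGroup (Fin 14)) (hbad : ∀ k, InA (cjx k y) ∨ InB (cjx k y)) : y = 1 := by
  obtain ⟨j, hj, h1⟩ := hB0
  obtain ⟨j', hj', h2⟩ := hBl
  have h3 := allN_spec (allN_spec hchk j hj) j' hj'
  rw [force_eq, force_eq, chkPair, Bool.and_eq_true] at h3
  obtain ⟨hord, h4⟩ := h3
  simp only [force_eq] at h4
  have hinv : ∀ (k i : ℕ) (p : Fin 14), (rho ^ k * mt i * (rho ^ k)⁻¹)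
      ((rho ^ k * mt i * (rho ^ k)⁻¹) p) = p := by
    intro k i p
    simp only [Perm.mul_apply]
    rw [pia, mt_invol, pai]
  have hcomm : ∀ (k i : ℕ), cjx k y * mt i = mt i * cjx k y → ∀ p : Fin 14,
      y ((rho ^ k * mt i * (rho ^ k)⁻¹) p) = (rho ^ k * mt i * (rho ^ k)⁻¹) (y p) := by
    intro k i h p
    have h3 : y * (rho ^ k * mt i * (rho ^ k)⁻¹) = (rho ^ k * mt i * (rho ^ k)⁻¹) * y := by
      have e1 : y = rho ^ k * cjx k y * (rho ^ k)⁻¹ := by rw [cjx]; group
      calc y * (rho ^ k * mt i * (rho ^ k)⁻¹)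
          = (rho ^ k * cjx k y * (rho ^ k)⁻¹) * (rho ^ k * mt i * (rho ^ k)⁻¹) := by rw [← e1]
        _ = rho ^ k * (cjx k y * mt i) * (rho ^ k)⁻¹ := by group
        _ = rho ^ k * (mt i * cjx k y) * (rho ^ k)⁻¹ := by rw [h]
        _ = (rho ^ k * mt i * (rho ^ k)⁻¹) * (rho ^ k * cjx k y * (rho ^ k)⁻¹) := by group
        _ = (rho ^ k * mt i * (rho ^ k)⁻¹) * y := by rw [← e1]
    exact congrArg (fun f : Perm (Fin 14) => f p) h3
  exact dfs2_spec (cod_mcode 0 j) (cod_mcode l j') (hinv 0 j) (hinv l j') (hcomm 0 j h1)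
    (hcomm l j' h2) hord hA hbad h4

theorem A_triple {y : Perm (Fin 14)} (h0 : InA (cjx 0 y)) (h1 : InA (cjx 1 y))
    (h2 : InA (cjx 2 y)) (hA : y ∈ alternatingGroup (Fin 14))
    (hbad : ∀ k, InA (cjx k y) ∨ InB (cjx k y)) : y = 1 := by
  have h := run3
  rw [chk3, force_eq, force_eq] at h
  exact dfs3_spec (cod_rinv 1) (cod_rinv 2) h0 h1 h2 hA hbad h

theorem cjx_mod (k : ℕ) (x : Perm (Fin 14)) : cjx (k + 4) x = cjx k x := by
  rw [cjx, cjx, pow_add, rho_pow, mul_one]

theorem cjx_mem {k : ℕ} {x : Perm (Fin 14)} (hA : x ∈ alternatingGroup (Fin 14)) :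
    cjx k x ∈ alternatingGroup (Fin 14) := by
  rw [mem_alternatingGroup] at hA ⊢
  rw [cjx, Perm.sign_mul, Perm.sign_mul, Perm.sign_inv, hA, mul_one, Int.units_mul_self]

theorem prop_aux {A0 A1 A2 A3 B0 B1 B2 B3 P : Prop} (b0 : A0 ∨ B0) (b1 : A1 ∨ B1)
    (b2 : A2 ∨ B2) (b3 : A3 ∨ B3) (t0 : A0 → A1 → A2 → P) (t1 : A1 → A2 → A3 → P)
    (t2 : A2 → A3 → A0 → P) (t3 : A3 → A0 → A1 → P) (a0 : B0 → B1 → P) (a1 : B1 → B2 → P)
    (a2 : B2 → B3 → P) (a3 : B3 → B0 → P) (o0 : B0 → B2 → P) (o1 : B1 → B3 → P) : P := by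
  rcases b0 with h0 | h0 <;> rcases b1 with h1 | h1 <;> rcases b2 with h2 | h2 <;>
    rcases b3 with h3 | h3 <;>
  first
  | exact t0 h0 h1 h2
  | exact t1 h1 h2 h3
  | exact t2 h2 h3 h0
  | exact t3 h3 h0 h1
  | exact a0 h0 h1
  | exact a1 h1 h2
  | exact a2 h2 h3
  | exact a3 h3 h0
  | exact o0 h0 h2
  | exact o1 h1 h3

/-- no nontrivial even permutation lies, for every index, in the union of the intransitive and
imprimitive overgroups -/
theorem AB_part {x : Perm (Fin 14)} (hA : x ∈ alternatingGroup (Fin 14))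
    (hbad : ∀ k, InA (cjx k x) ∨ InB (cjx k x)) : x = 1 := by
  have hb : ∀ r, ∀ k, InA (cjx k (cjx r x)) ∨ InB (cjx k (cjx r x)) := by
    intro r k; rw [cjx_cjx]; exact hbad _
  have three : ∀ r, InA (cjx r x) → InA (cjx (r + 1) x) → InA (cjx (r + 2) x) → x = 1 := by
    intro r h0 h1 h2
    apply cjx_eq_one (k := r)
    apply A_triple _ _ _ (cjx_mem hA) (hb r)
    · rw [cjx_cjx]; exact h0
    · rw [cjx_cjx]; exact h1
    · rw [cjx_cjx]; exact h2
  have adj : ∀ r, InB (cjx r x) → InB (cjx (r + 1) x) → x = 1 := by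
    intro r h0 h1
    apply cjx_eq_one (k := r)
    apply B_pair pairs1 _ _ (cjx_mem hA) (hb r)
    · rw [cjx_cjx]; exact h0
    · rw [cjx_cjx]; exact h1
  have opp : ∀ r, InB (cjx r x) → InB (cjx (r + 2) x) → x = 1 := by
    intro r h0 h1
    apply cjx_eq_one (k := r)
    apply B_pair pairs2 _ _ (cjx_mem hA) (hb r)
    · rw [cjx_cjx]; exact h0
    · rw [cjx_cjx]; exact h1
  have m4 : cjx 4 x = cjx 0 x := cjx_mod 0 x
  have m5 : cjx 5 x = cjx 1 x := cjx_mod 1 x
  refine prop_aux (hbad 0) (hbad 1) (hbad 2) (hbad 3) (three 0) (three 1) ?_ ?_ (adj 0) (adj 1)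
    (adj 2) ?_ (opp 0) (opp 1)
  · intro h2 h3 h0
    exact three 2 h2 h3 (by rw [show 2 + 2 = 4 from rfl, m4]; exact h0)
  · intro h3 h0 h1
    exact three 3 h3 (by rw [show 3 + 1 = 4 from rfl, m4]; exact h0)
      (by rw [show 3 + 2 = 5 from rfl, m5]; exact h1)
  · intro h3 h0
    exact adj 3 h3 (by rw [show 3 + 1 = 4 from rfl, m4]; exact h0)

end Pool.Agent.Helper95.TDS
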