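import Pool.Agent.Helper95.TDS.GroupC

/-!
Prime powers that cannot divide the order of a primitive group of degree 14 without three-cycles.
-/

namespace Pool.Agent.Helper95.TDS

open Equiv Equiv.Perm MulAction

theorem card_perm14 : Nat.card (Perm (Fin 14)) = 87178291200 := by
  rw [Nat.card_perm, Nat.card_eq_fintype_card, Fintype.card_fin]
  decide

theorem card_alt14 : Nat.card (alternatingGroup (Fin 14)) = 43589145600 := by
  rw [nat_card_alternatingGroup, Nat.card_eq_fintype_card, Fintype.card_fin]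
  decide

instance fact5 : Fact (Nat.Prime 5) := ⟨by norm_num⟩
instance fact7 : Fact (Nat.Prime 7) := ⟨by norm_num⟩
instance fact11 : Fact (Nat.Prime 11) := ⟨by norm_num⟩
instance fact13 : Fact (Nat.Prime 13) := ⟨by norm_num⟩

/-- data on a cycle given by a list -/
theorem formPerm_data (l : List (Fin 14)) (hl : l.Nodup) (h2 : 2 ≤ l.length) :
    l.formPerm.IsCycle ∧ l.formPerm.support.card = l.length ∧ orderOf l.formPerm = l.length := by
  have h1 := List.isCycle_formPerm hl h2
  have h3 : l.formPerm.support.card = l.length := by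
    rw [List.support_formPerm_of_nodup l hl, List.toFinset_card_of_nodup hl]
    intro x hx
    rw [hx] at h2
    simp at h2
  exact ⟨h1, h3, by rw [h1.orderOf, h3]⟩

variable {H : Subgroup (Perm (Fin 14))}

theorem not_49 (hprim : IsPreprimitive H (Fin 14)) (no3 : ∀ g ∈ H, ¬ g.IsThreeCycle) :
    ¬ 7 ^ 2 ∣ Nat.card H := by
  intro h
  obtain ⟨h1, h2, h3⟩ := formPerm_data [0, 1, 2, 3, 4, 5, 6] (by decide) (by decide)
  obtain ⟨k, hk⟩ := exists_conj_mem (G := Perm (Fin 14)) (H := H) (p := 7) (v := 2) h
    (by rw [card_perm14]; norm_num) (j := 1) (g := List.formPerm [0, 1, 2, 3, 4, 5, 6])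
    (by rw [h3]; rfl)
  refine no_cycle hprim no3 hk h1.conj ?_ ?_
  · rw [card_support_conj, h2]; norm_num
  · rw [card_support_conj, h2]; norm_num

theorem not_25 (hprim : IsPreprimitive H (Fin 14)) (no3 : ∀ g ∈ H, ¬ g.IsThreeCycle) :
    ¬ 5 ^ 2 ∣ Nat.card H := by
  intro h
  obtain ⟨h1, h2, h3⟩ := formPerm_data [0, 1, 2, 3, 4] (by decide) (by decide)
  obtain ⟨k, hk⟩ := exists_conj_mem (G := Perm (Fin 14)) (H := H) (p := 5) (v := 2) h
    (by rw [card_perm14]; norm_num) (j := 1) (g := List.formPerm [0, 1, 2, 3, 4])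
    (by rw [h3]; rfl)
  refine no_cycle hprim no3 hk h1.conj ?_ ?_
  · rw [card_support_conj, h2]; norm_num
  · rw [card_support_conj, h2]; norm_num

theorem not_243 (no3 : ∀ g ∈ H, ¬ g.IsThreeCycle) :
    ¬ 3 ^ 5 ∣ Nat.card H := by
  intro h
  obtain ⟨h1, h2, h3⟩ := formPerm_data [0, 1, 2] (by decide) (by decide)
  obtain ⟨k, hk⟩ := exists_conj_mem (G := Perm (Fin 14)) (H := H) (p := 3) (v := 5) h
    (by rw [card_perm14]; norm_num) (j := 1) (g := List.formPerm [0, 1, 2])
    (by rw [h3]; rfl)
  refine no3 _ hk ?_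
  rw [← card_support_eq_three_iff, card_support_conj, h2]
  rfl

theorem not_11 (hprim : IsPreprimitive H (Fin 14)) (no3 : ∀ g ∈ H, ¬ g.IsThreeCycle) :
    ¬ 11 ∣ Nat.card H := by
  intro h
  obtain ⟨q, hq⟩ := exists_prime_orderOf_dvd_card' (G := H) 11 h
  have hq' : orderOf (q : Perm (Fin 14)) = 11 := by rw [Subgroup.orderOf_coe, hq]
  obtain ⟨n, hn⟩ := cycleType_prime_order (σ := (q : Perm (Fin 14))) (by rw [hq']; norm_num)
  have hsum := sum_cycleType (q : Perm (Fin 14))
  have hle : (q : Perm (Fin 14)).support.card ≤ 14 := by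
    have := Finset.card_le_univ (q : Perm (Fin 14)).support
    simpa using this
  rw [hn, Multiset.sum_replicate, hq', smul_eq_mul] at hsum
  have hn0 : n = 0 := by omega
  subst hn0
  have hcyc : (q : Perm (Fin 14)).cycleFactorsFinset.card = 1 := by
    have h1 := congrArg Multiset.card hn
    rw [cycleType_def, Multiset.card_map, Multiset.card_replicate] at h1
    exact h1
  obtain ⟨g, hg, hg3⟩ := three_cycle_of_frattini (K := H) (p := 11) q.2 hq'
    (fun h2 => by
      have h3 : 11 ^ 2 ∣ Nat.card (Perm (Fin 14)) := h2.trans (Subgroup.card_subgroup_dvd_card H)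
      rw [card_perm14] at h3
      norm_num at h3)
    (by norm_num) (by rw [hcyc]; norm_num) (q : Perm (Fin 14)).supportᶜ
    (by rw [Finset.card_compl, Fintype.card_fin, ← hsum])
    (fun x hx => by rwa [Finset.mem_compl, mem_support, not_not] at hx)
    (fun x hx hxF => absurd (by rwa [Finset.mem_compl, mem_support, not_not]) hxF)
    (fun β _ γ _ => by
      obtain ⟨g, hg⟩ := exists_smul_eq H β γ
      exact ⟨g, g.2, hg⟩)
  exact no3 g hg hg3

theorem not_5 (hprim : IsPreprimitive H (Fin 14)) (no3 : ∀ g ∈ H, ¬ g.IsThreeCycle)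
    (h2t : IsMultiplyPretransitive H (Fin 14) 2) :
    ¬ 5 ∣ Nat.card H := by
  intro h
  obtain ⟨q, hq⟩ := exists_prime_orderOf_dvd_card' (G := H) 5 h
  have hq' : orderOf (q : Perm (Fin 14)) = 5 := by rw [Subgroup.orderOf_coe, hq]
  obtain ⟨n, hn⟩ := cycleType_prime_order (σ := (q : Perm (Fin 14))) (by rw [hq']; norm_num)
  have hsum := sum_cycleType (q : Perm (Fin 14))
  have hle : (q : Perm (Fin 14)).support.card ≤ 14 := by
    have := Finset.card_le_univ (q : Perm (Fin 14)).support
    simpa using this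
  rw [hn, Multiset.sum_replicate, hq', smul_eq_mul] at hsum
  have hcyc : (q : Perm (Fin 14)).cycleFactorsFinset.card = n + 1 := by
    have h1 := congrArg Multiset.card hn
    rw [cycleType_def, Multiset.card_map, Multiset.card_replicate] at h1
    exact h1
  have hn1 : n = 0 ∨ n = 1 := by omega
  rcases hn1 with rfl | rfl
  · refine no_cycle hprim no3 q.2 ?_ (by rw [← hsum]; norm_num) (by rw [← hsum]; norm_num)
    rw [← card_cycleType_eq_one, hn]; simp
  · -- two 5-cycles
    obtain ⟨α, hα⟩ : ∃ α, α ∈ (q : Perm (Fin 14)).supportᶜ := by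
      rw [← Finset.nonempty_def, ← Finset.card_pos, Finset.card_compl, Fintype.card_fin, ← hsum]
      norm_num
    have hqα : (q : Perm (Fin 14)) α = α := by
      rwa [Finset.mem_compl, mem_support, not_not] at hα
    obtain ⟨g, hg, hg3⟩ := three_cycle_of_frattini (K := H ⊓ stabilizer (Perm (Fin 14)) α) (p := 5)
      (q := q) ⟨q.2, hqα⟩ hq'
      (fun h2 => not_25 hprim no3 (h2.trans (Subgroup.card_dvd_of_le inf_le_left)))
      (by norm_num) (by rw [hcyc]) ((q : Perm (Fin 14)).supportᶜ.erase α)
      (by rw [Finset.card_erase_of_mem hα, Finset.card_compl, Fintype.card_fin, ← hsum])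
      (fun x hx => by
        have := Finset.mem_of_mem_erase hx
        rwa [Finset.mem_compl, mem_support, not_not] at this)
      (fun x hx hxF g hg => by
        have hxα : x = α := by
          by_contra hne
          apply hxF
          rw [Finset.mem_erase, Finset.mem_compl, mem_support, not_not]
          exact ⟨hne, hx⟩
        subst hxα
        exact hg.2)
      (fun β hβ γ hγ => by
        have hβα : α ≠ β := (Finset.ne_of_mem_erase hβ).symm
        have hγα : α ≠ γ := (Finset.ne_of_mem_erase hγ).symm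
        rw [is_two_pretransitive_iff] at h2t
        obtain ⟨g, hg1, hg2⟩ := h2t hβα hγα
        exact ⟨g, ⟨g.2, hg1⟩, hg2⟩)
    exact no3 g hg.1 hg3

theorem not_1024 (hA : H ≤ alternatingGroup (Fin 14)) (hprim : IsPreprimitive H (Fin 14))
    (no3 : ∀ g ∈ H, ¬ g.IsThreeCycle)
    (h2t : IsMultiplyPretransitive H (Fin 14) 2) :
    ¬ 2 ^ 10 ∣ Nat.card H := by
  classical
  intro h
  have htA : (swap (0 : Fin 14) 1 * swap 2 3) ∈ alternatingGroup (Fin 14) := by
    rw [mem_alternatingGroup, Perm.sign_mul, sign_swap (by decide), sign_swap (by decide)]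
    rfl
  have hord : orderOf (⟨_, htA⟩ : alternatingGroup (Fin 14)) = 2 ^ 1 := by
    rw [Subgroup.orderOf_mk, pow_one]
    apply orderOf_eq_prime
    · rw [pow_two]; decide
    · decide
  obtain ⟨k, hk⟩ := exists_conj_mem (G := alternatingGroup (Fin 14))
    (H := H.subgroupOf (alternatingGroup (Fin 14))) (p := 2) (v := 10)
    (by
      have : Nat.card (H.subgroupOf (alternatingGroup (Fin 14))) = Nat.card H :=
        Nat.card_congr (Subgroup.subgroupOfEquivOfLe hA).toEquiv
      rw [this]; exact h)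
    (by rw [card_alt14]; norm_num) hord
  rw [Subgroup.mem_subgroupOf] at hk
  set t : Perm (Fin 14) := (k : Perm (Fin 14)) * (swap (0 : Fin 14) 1 * swap 2 3)
    * (k : Perm (Fin 14))⁻¹ with ht
  have htH : t ∈ H := hk
  have htc : t.support.card = 4 := by
    rw [ht, card_support_conj]
    decide
  obtain ⟨α, hα⟩ : ∃ α, α ∈ t.support := by
    rw [← Finset.nonempty_def, ← Finset.card_pos]; omega
  have htr1 : IsPretransitive H (Fin 14) := hprim.toIsPretransitive
  have htr2 : IsPretransitive (stabilizer H α) (SubMulAction.ofStabilizer H α) := by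
    rw [← is_one_pretransitive_iff]
    exact SubMulAction.ofStabilizer.isMultiplyPretransitive.1 h2t
  set E : Finset (SubMulAction.ofStabilizer H α) :=
    Finset.univ.filter (fun x => (x : Fin 14) ∈ t.support) with hE
  have hEc : E.card ≤ 3 := by
    have h1 : E.card = (E.map ⟨Subtype.val, Subtype.val_injective⟩).card := by
      rw [Finset.card_map]
    rw [h1]
    have h2 : E.map ⟨Subtype.val, Subtype.val_injective⟩ ⊆ t.support.erase α := by
      intro x hx
      rw [Finset.mem_map] at hx
      obtain ⟨y, hy, rfl⟩ := hx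
      rw [hE, Finset.mem_filter] at hy
      rw [Finset.mem_erase]
      refine ⟨?_, hy.2⟩
      have := y.2
      rw [SubMulAction.mem_ofStabilizer_iff] at this
      exact this
    have h3 := Finset.card_le_card h2
    rw [Finset.card_erase_of_mem hα, htc] at h3
    exact h3
  have hcard : Fintype.card (SubMulAction.ofStabilizer H α) = 13 := by
    have := SubMulAction.nat_card_ofStabilizer_add_one_eq H (α := Fin 14) α
    rw [Nat.card_eq_fintype_card, Nat.card_eq_fintype_card, Fintype.card_fin] at this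
    omega
  obtain ⟨g, hg⟩ := exists_separating (G := stabilizer H α)
    (α := SubMulAction.ofStabilizer H α) E E (by
      rw [hcard]
      calc E.card * E.card ≤ 3 * 3 := Nat.mul_le_mul hEc hEc
        _ < 13 := by norm_num)
  set g' : Perm (Fin 14) := ((g : H) : Perm (Fin 14)) with hg'
  have hgα : g' α = α := g.2
  have hgα' : g'⁻¹ α = α := by rw [Perm.inv_eq_iff_eq]; exact hgα.symm
  have hgH : g' ∈ H := (g : H).2
  have htα : t α ≠ α := mem_support.1 hα
  refine no3 _ (H.mul_mem (H.mul_mem (H.mul_mem htH (H.mul_mem (H.mul_mem hgH htH)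
    (H.inv_mem hgH))) (H.inv_mem htH)) (H.inv_mem (H.mul_mem (H.mul_mem hgH htH)
    (H.inv_mem hgH)))) (isThreeCycle_comm (a := α) htα ?_ ?_)
  · simp only [Perm.coe_mul, Function.comp_apply]
    rw [hgα']
    intro hcon
    apply htα
    have := congrArg (fun z => g'⁻¹ z) hcon
    simp only [pia, hgα'] at this
    exact this
  · intro x hx1 hx2
    by_contra hne
    simp only [Perm.coe_mul, Function.comp_apply] at hx2
    have h1 : t (g'⁻¹ x) ≠ g'⁻¹ x := by
      intro e; rw [e, pai] at hx2; exact hx2 rfl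
    have h2 : g'⁻¹ x ≠ α := by
      intro e
      rw [Perm.inv_eq_iff_eq, hgα] at e
      exact hne e
    have hm : g'⁻¹ x ∈ SubMulAction.ofStabilizer H α := by
      rw [SubMulAction.mem_ofStabilizer_iff]; exact h2
    have h3 := hg ⟨g'⁻¹ x, hm⟩ (by
      rw [hE, Finset.mem_filter]
      exact ⟨Finset.mem_univ _, mem_support.2 h1⟩)
    apply h3
    rw [hE, Finset.mem_filter]
    refine ⟨Finset.mem_univ _, ?_⟩
    have h4 : (((g • (⟨g'⁻¹ x, hm⟩ : SubMulAction.ofStabilizer H α)) :
        SubMulAction.ofStabilizer H α) : Fin 14) = g' (g'⁻¹ x) := rfl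
    rw [h4, pai]
    exact mem_support.2 hx1

end Pool.Agent.Helper95.TDS
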