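import Pool.Agent.Helper95.TDS.Code
import Pool.Agent.Helper95.TDS.GroupD

/-!
The permutation `s` of shape [7,7] and its overgroups: imprimitive and intransitive ones.
-/

namespace Pool.Agent.Helper95.TDS

open Equiv Equiv.Perm MulAction

/-- the product of the two 7-cycles `(0 1 ... 6)` and `(7 8 ... 13)` -/
def s : Perm (Fin 14) := mkP 35408300952863521 57325821135888646 (by decide)
/-- the first 7-cycle -/
def sA : Perm (Fin 14) := mkP 62129658759824161 62129658841473286 (by decide)
/-- the second 7-cycle -/
def sB : Perm (Fin 14) := mkP 35408301052408336 57325821153784336 (by decide)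
/-- the swap of the two sides -/
def tau : Perm (Fin 14) := mkP 28502781892209031 28502781892209031 (by decide)
/-- negation -/
def mu6 : Perm (Fin 14) := mkP 38750970664142176 38750970664142176 (by decide)
/-- doubling -/
def mu2 : Perm (Fin 14) := mkP 57013772970189856 48867293721153856 (by decide)
/-- the matching `a_t ↔ b_{t+j}` -/
def mt (j : ℕ) : Perm (Fin 14) := sB ^ j * tau * (sB ^ j)⁻¹

theorem cod_s : Cod 35408300952863521 s := cod_mkP _ _ _
theorem cod_s' : Cod 57325821135888646 s⁻¹ := cod_mkP_inv _ _ _
theorem cod_sA : Cod 62129658759824161 sA := cod_mkP _ _ _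
theorem cod_sA' : Cod 62129658841473286 sA⁻¹ := cod_mkP_inv _ _ _
theorem cod_sB : Cod 35408301052408336 sB := cod_mkP _ _ _
theorem cod_sB' : Cod 57325821153784336 sB⁻¹ := cod_mkP_inv _ _ _
theorem cod_tau : Cod 28502781892209031 tau := cod_mkP _ _ _
theorem cod_mu6 : Cod 38750970664142176 mu6 := cod_mkP _ _ _
theorem cod_mu2 : Cod 57013772970189856 mu2 := cod_mkP _ _ _

theorem s_eq : s = sA * sB := by
  refine Cod.eq (c := 35408300952863521) cod_s ?_
  have := cod_sA.mul cod_sB
  have e : comp 62129658759824161 35408301052408336 = 35408300952863521 := by decide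
  rwa [e] at this

theorem sA_sB : sA * sB = sB * sA := by
  refine Cod.eq (c := comp 62129658759824161 35408301052408336) (cod_sA.mul cod_sB) ?_
  have := cod_sB.mul cod_sA
  have e : comp 62129658759824161 35408301052408336
    = comp 35408301052408336 62129658759824161 := by decide
  rwa [e]

theorem sA_pow : sA ^ 7 = 1 := by
  refine Cod.eq (c := idc) ?_ cod_one
  have := cod_sA.pow 7
  have e : pw 62129658759824161 7 = idc := by decide +kernel
  rwa [e] at this

theorem sB_pow : sB ^ 7 = 1 := by
  refine Cod.eq (c := idc) ?_ cod_one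
  have := cod_sB.pow 7
  have e : pw 35408301052408336 7 = idc := by decide +kernel
  rwa [e] at this

theorem comm_sA : Commute s sA := by
  have h : Commute sA sB := sA_sB
  rw [s_eq]
  exact (Commute.refl sA).mul_left h.symm

theorem comm_sB : Commute s sB := by
  have h : Commute sA sB := sA_sB
  rw [s_eq]
  exact h.mul_left (Commute.refl sB)

theorem s_pow7 : s ^ 7 = 1 := by
  have h : Commute sA sB := sA_sB
  rw [s_eq, h.mul_pow, sA_pow, sB_pow, one_mul]

theorem s_ne : s ≠ 1 := by
  intro h
  have := congrArg (fun f : Perm (Fin 14) => (f 0).val) h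
  revert this
  decide

theorem orderOf_s : orderOf s = 7 := orderOf_eq_prime s_pow7 s_ne

/-- action of powers of `s` on points -/
def sh (j p : ℕ) : ℕ := Nat.add (Nat.mul 7 (Nat.div p 7)) (Nat.mod (Nat.add p j) 7)

theorem sh_eq (j p : ℕ) : sh j p = 7 * (p / 7) + (p + j) % 7 := rfl

theorem s_apply (p : Fin 14) : (s p).val = sh 1 p.val := by
  revert p; decide

theorem s_pow_apply (j : ℕ) (p : Fin 14) : ((s ^ j) p).val = sh j p.val := by
  induction j with
  | zero =>
    have := p.2
    rw [sh_eq]; simp only [pow_zero, Perm.coe_one, id]; omega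
  | succ j ih =>
    rw [pow_succ', Perm.mul_apply, s_apply, ih, sh_eq, sh_eq, sh_eq]
    have := p.2
    omega

theorem mt_apply : ∀ j : Fin 7, ∀ p : Fin 14,
    (mt j.val p).val = if p.val < 7 then 7 + (p.val + j.val) % 7 else (p.val + (7 - j.val)) % 7 := by
  decide +kernel

/-- `x` preserves the partition into the two sides -/
def InA (x : Perm (Fin 14)) : Prop :=
  (∀ p : Fin 14, (x p).val < 7 ↔ p.val < 7) ∨ (∀ p : Fin 14, (x p).val < 7 ↔ ¬ p.val < 7)

/-- `x` commutes with one of the seven matchings -/
def InB (x : Perm (Fin 14)) : Prop := ∃ j < 7, x * mt j = mt j * x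

theorem transitive_of {H : Subgroup (Perm (Fin 14))} (hs : s ∈ H) {x : Perm (Fin 14)}
    (hx : x ∈ H) (hA : ¬ InA x) : IsPretransitive H (Fin 14) := by
  obtain ⟨p, hp, hxp⟩ : ∃ p : Fin 14, p.val < 7 ∧ ¬ (x p).val < 7 := by
    by_contra hcon
    push Not at hcon
    apply hA
    left
    -- x maps the first side into itself, hence bijectively
    intro p
    refine ⟨fun h => ?_, hcon p⟩
    by_contra hp
    -- the map on the finset
    have h1 : (Finset.univ.filter (fun p : Fin 14 => p.val < 7)).image x
        ⊆ Finset.univ.filter (fun p : Fin 14 => p.val < 7) := by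
      intro y hy
      simp only [Finset.mem_image, Finset.mem_filter, Finset.mem_univ, true_and] at hy ⊢
      obtain ⟨z, hz, rfl⟩ := hy
      exact hcon z hz
    have h2 := Finset.eq_of_subset_of_card_le h1 (by
      rw [Finset.card_image_of_injective _ x.injective])
    have h3 : x p ∈ (Finset.univ.filter (fun p : Fin 14 => p.val < 7)).image x := by
      rw [h2]; simpa using h
    simp only [Finset.mem_image, Finset.mem_filter, Finset.mem_univ, true_and] at h3
    obtain ⟨z, hz, hzp⟩ := h3
    rw [x.injective hzp] at hz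
    exact hp hz
  -- move 0 to p, then x, then to any point on the second side
  have hmove : ∀ q r : Fin 14, (q.val < 7 ↔ r.val < 7) → ∃ g ∈ H, g q = r := by
    intro q r hqr
    refine ⟨s ^ (r.val + 14 - q.val), H.pow_mem hs _, ?_⟩
    apply Fin.ext
    rw [s_pow_apply, sh_eq]
    have := q.2
    have := r.2
    omega
  rw [isPretransitive_iff_base (0 : Fin 14)]
  intro y
  by_cases hy : y.val < 7
  · obtain ⟨g, hg, hgy⟩ := hmove 0 y ⟨fun _ => hy, fun _ => by decide⟩
    exact ⟨⟨g, hg⟩, hgy⟩
  · obtain ⟨g, hg, hgy⟩ := hmove 0 p ⟨fun _ => hp, fun _ => by decide⟩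
    obtain ⟨g', hg', hgy'⟩ := hmove (x p) y ⟨fun h => absurd h hxp, fun h => absurd h hy⟩
    refine ⟨⟨g' * x * g, H.mul_mem (H.mul_mem hg' hx) hg⟩, ?_⟩
    change (g' * x * g) 0 = y
    rw [Perm.mul_apply, Perm.mul_apply, hgy, hgy']

theorem primitive_of {H : Subgroup (Perm (Fin 14))} (hs : s ∈ H) {x : Perm (Fin 14)}
    (hx : x ∈ H) (hA : ¬ InA x) (hB : ¬ InB x) : IsPreprimitive H (Fin 14) := by
  have htr := transitive_of hs hx hA
  apply IsPreprimitive.of_isTrivialBlock_base (0 : Fin 14)
  intro B h0 hblock
  rw [isBlock_iff_smul_eq_of_mem] at hblock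
  have hbl : ∀ g ∈ H, ∀ a, a ∈ B → g a ∈ B → ∀ b, g b ∈ B ↔ b ∈ B := by
    intro g hg a ha hga b
    have h1 := hblock (g := ⟨g, hg⟩) ha hga
    constructor
    · intro h2
      rw [← h1, Set.mem_smul_set] at h2
      obtain ⟨c, hc, hcb⟩ := h2
      have : g c = g b := hcb
      rwa [← g.injective this]
    · intro h2
      rw [← h1]
      exact Set.smul_mem_smul_set h2
  -- if a nontrivial power of s preserves B then s does
  have hspow : ∀ d : ℕ, ¬ 7 ∣ d → (∃ a, a ∈ B ∧ (s ^ d) a ∈ B) → ∀ i : ℕ, ∀ b, (s ^ i) b ∈ B ↔
      b ∈ B := by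
    rintro d hd ⟨a, ha, hda⟩
    have h1 := hbl _ (H.pow_mem hs d) a ha hda
    have h2 : ∀ n : ℕ, ∀ b, (s ^ (d * n)) b ∈ B ↔ b ∈ B := by
      intro n
      induction n with
      | zero => intro b; simp
      | succ n ih =>
        intro b
        rw [mul_add, mul_one, pow_add, Perm.mul_apply, ih, h1]
    intro i b
    obtain ⟨n, hn⟩ : ∃ n, d * n ≡ i [MOD 7] := by
      have hco : Nat.Coprime d 7 := by
        rw [Nat.coprime_comm, (by norm_num : Nat.Prime 7).coprime_iff_not_dvd]; exact hd
      refine ⟨d ^ 5 * i, ?_⟩
      have h6 : d ^ 6 ≡ 1 [MOD 7] := by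
        have := Nat.ModEq.pow_totient hco
        rwa [Nat.totient_prime (by norm_num)] at this
      calc d * (d ^ 5 * i) = d ^ 6 * i := by ring
        _ ≡ 1 * i [MOD 7] := h6.mul_right i
        _ = i := one_mul i
    have h3 : s ^ i = s ^ (d * n) := by
      rw [pow_eq_pow_iff_modEq, orderOf_s]; exact hn.symm
    rw [h3]; exact h2 n b
  by_cases hc1 : ∃ t : Fin 14, t ∈ B ∧ t.val < 7 ∧ t ≠ 0
  · obtain ⟨t, htB, ht7, ht0⟩ := hc1
    have hinv := hspow t.val (by
      intro hd
      apply ht0
      apply Fin.ext
      change t.val = 0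
      omega) ⟨0, h0, by
        have : (s ^ t.val) 0 = t := by
          apply Fin.ext
          rw [s_pow_apply, sh_eq]
          have : ((0 : Fin 14)).val = 0 := rfl
          omega
        rwa [this]⟩
    have hAB : ∀ p : Fin 14, p.val < 7 → p ∈ B := by
      intro p hp
      have : (s ^ p.val) 0 = p := by
        apply Fin.ext
        rw [s_pow_apply, sh_eq]
        have : ((0 : Fin 14)).val = 0 := rfl
        omega
      rw [← this, hinv]; exact h0
    by_cases hc2 : ∃ b : Fin 14, b ∈ B ∧ ¬ b.val < 7
    · obtain ⟨b, hbB, hb7⟩ := hc2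
      right
      rw [Set.eq_univ_iff_forall]
      intro p
      by_cases hp : p.val < 7
      · exact hAB p hp
      · have : (s ^ (p.val + 14 - b.val)) b = p := by
          apply Fin.ext
          rw [s_pow_apply, sh_eq]
          have := p.2
          have := b.2
          omega
        rw [← this, hinv]; exact hbB
    · exfalso
      push Not at hc2
      have hBiff : ∀ p : Fin 14, p ∈ B ↔ p.val < 7 := fun p => ⟨hc2 p, hAB p⟩
      apply hA
      by_cases hc3 : ∃ a, a ∈ B ∧ x a ∈ B
      · obtain ⟨a, ha, hxa⟩ := hc3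
        left
        intro p
        rw [← hBiff, ← hBiff]
        exact hbl x hx a ha hxa p
      · push Not at hc3
        right
        have hcon : ∀ p : Fin 14, p.val < 7 → ¬ (x p).val < 7 := by
          intro p hp h
          exact hc3 p ((hBiff p).2 hp) ((hBiff _).2 h)
        intro p
        refine ⟨fun h hp => hcon p hp h, fun hp => ?_⟩
        by_contra h
        have h1 : (Finset.univ.filter (fun p : Fin 14 => p.val < 7)).image x
            ⊆ Finset.univ.filter (fun p : Fin 14 => ¬ p.val < 7) := by
          intro y hy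
          simp only [Finset.mem_image, Finset.mem_filter, Finset.mem_univ, true_and] at hy ⊢
          obtain ⟨z, hz, rfl⟩ := hy
          exact hcon z hz
        have h2 := Finset.eq_of_subset_of_card_le h1 (by
          rw [Finset.card_image_of_injective _ x.injective]
          decide)
        have h3 : x p ∈ (Finset.univ.filter (fun p : Fin 14 => p.val < 7)).image x := by
          rw [h2]; simpa using h
        simp only [Finset.mem_image, Finset.mem_filter, Finset.mem_univ, true_and] at h3
        obtain ⟨z, hz, hzp⟩ := h3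
        rw [x.injective hzp] at hz
        exact hp hz
  · push Not at hc1
    by_cases hc2 : ∃ b : Fin 14, b ∈ B ∧ ¬ b.val < 7
    · exfalso
      obtain ⟨b, hbB, hb7⟩ := hc2
      -- B = {0, b}
      have hB2 : ∀ c ∈ B, c = 0 ∨ c = b := by
        intro c hc
        by_cases hc7 : c.val < 7
        · exact Or.inl (hc1 c hc hc7)
        · right
          by_contra hne
          have hd : (s ^ (c.val + 7 - b.val)) b = c := by
            apply Fin.ext
            rw [s_pow_apply, sh_eq]
            have := c.2
            have := b.2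
            omega
          have hnd : ¬ 7 ∣ (c.val + 7 - b.val) := by
            intro hdv
            apply hne
            apply Fin.ext
            have := c.2
            have := b.2
            omega
          have hinv := hspow _ hnd ⟨b, hbB, by rwa [hd]⟩ 1
          have h1 : (s ^ 1) 0 ∈ B := (hinv 0).2 h0
          have h2 := hc1 _ h1 (by rw [s_pow_apply, sh_eq]; decide)
          have h3 := congrArg Fin.val h2
          rw [s_pow_apply, sh_eq] at h3
          revert h3; decide
      apply hB
      refine ⟨b.val - 7, by have := b.2; omega, ?_⟩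
      -- each point lies in a translate of B together with its partner
      have hpart : ∀ p : Fin 14, ∃ t : ℕ, ((s ^ t) 0 = p ∧ (s ^ t) b = mt (b.val - 7) p) ∨
          ((s ^ t) b = p ∧ (s ^ t) 0 = mt (b.val - 7) p) := by
        intro p
        have hmt := mt_apply ⟨b.val - 7, by have := b.2; omega⟩ p
        simp only at hmt
        by_cases hp : p.val < 7
        · refine ⟨p.val, Or.inl ⟨?_, ?_⟩⟩
          · apply Fin.ext
            rw [s_pow_apply, sh_eq]
            have : ((0 : Fin 14)).val = 0 := rfl
            omega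
          · apply Fin.ext
            rw [s_pow_apply, sh_eq, hmt, if_pos hp]
            have := b.2
            omega
        · refine ⟨p.val + 14 - b.val, Or.inr ⟨?_, ?_⟩⟩
          · apply Fin.ext
            rw [s_pow_apply, sh_eq]
            have := b.2
            have := p.2
            omega
          · apply Fin.ext
            rw [s_pow_apply, sh_eq, hmt, if_neg hp]
            have : ((0 : Fin 14)).val = 0 := rfl
            have := b.2
            have := p.2
            omega
      have hb0 : b ≠ 0 := by
        intro e; rw [e] at hb7; exact hb7 (by decide)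
      have hinvm : ∀ p : Fin 14, p ≠ mt (b.val - 7) p := by
        intro p e
        obtain ⟨t, ⟨h1, h2⟩ | ⟨h1, h2⟩⟩ := hpart p
        · exact hb0 ((s ^ t).injective (h2.trans (e.symm.trans h1.symm)))
        · exact hb0 ((s ^ t).injective (h2.trans (e.symm.trans h1.symm))).symm
      ext p
      rw [Perm.mul_apply, Perm.mul_apply]
      congr 1
      obtain ⟨t, ht⟩ := hpart p
      obtain ⟨u, hu⟩ := hpart (x p)
      -- y = s^{-u} x s^t maps some point of B into B
      set g := (s ^ u)⁻¹ * x * s ^ t with hg
      have hgH : g ∈ H := H.mul_mem (H.mul_mem (H.inv_mem (H.pow_mem hs _)) hx) (H.pow_mem hs _)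
      have hxg : ∀ c, x ((s ^ t) c) = (s ^ u) (g c) := by
        intro c
        rw [hg, Perm.mul_apply, Perm.mul_apply, pai]
      -- the partner q of p
      obtain ⟨c, c', hcB, hc'B, hcp, hcm⟩ : ∃ c c' : Fin 14, c ∈ B ∧ c' ∈ B ∧ (s ^ t) c = p ∧
          (s ^ t) c' = mt (b.val - 7) p := by
        rcases ht with ⟨h1, h2⟩ | ⟨h1, h2⟩
        · exact ⟨0, b, h0, hbB, h1, h2⟩
        · exact ⟨b, 0, hbB, h0, h1, h2⟩
      obtain ⟨d, d', hdB, hd'B, hdp, hdm⟩ : ∃ c c' : Fin 14, c ∈ B ∧ c' ∈ B ∧ (s ^ u) c = x p ∧
          (s ^ u) c' = mt (b.val - 7) (x p) := by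
        rcases hu with ⟨h1, h2⟩ | ⟨h1, h2⟩
        · exact ⟨0, b, h0, hbB, h1, h2⟩
        · exact ⟨b, 0, hbB, h0, h1, h2⟩
      have hgc : g c = d := by
        apply (s ^ u).injective
        rw [← hxg, hcp, hdp]
      have hgc' : g c' ∈ B := (hbl g hgH c hcB (by rw [hgc]; exact hdB) c').2 hc'B
      rw [← hcm, hxg]
      rw [← hdm]
      congr 1
      -- g c' ≠ g c = d, and both d, d' exhaust B
      have hne1 : g c' ≠ d := by
        rw [← hgc]
        intro e
        have := g.injective e
        apply hinvm p
        rw [← hcm, this, hcp]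
      have hne2 : d' ≠ d := by
        intro e
        apply hinvm (x p)
        rw [← hdm, e, hdp]
      rcases hB2 _ hgc' with h1 | h1 <;> rcases hB2 _ hdB with h2 | h2 <;>
        rcases hB2 _ hd'B with h3 | h3
      · exact absurd (h1.trans h2.symm) hne1
      · exact absurd (h1.trans h2.symm) hne1
      · rw [h1, h3]
      · exact absurd (h3.trans h2.symm) hne2
      · exact absurd (h3.trans h2.symm) hne2
      · rw [h1, h3]
      · exact absurd (h1.trans h2.symm) hne1
      · exact absurd (h1.trans h2.symm) hne1
    · left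
      push Not at hc2
      intro a ha b hb
      rw [hc1 a ha (hc2 a ha), hc1 b hb (hc2 b hb)]

end Pool.Agent.Helper95.TDS
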