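import Pool.Agent.Helper95.TDS.NormS

/-!
Enumeration of the 13-cycles fixing 0, sending 7 to 1 and inverted by `mu6`.
-/

namespace Pool.Agent.Helper95.TDS

open Equiv Equiv.Perm

/-- lookup in `mu6` -/
def yy (q : ℕ) : ℕ := dg 38750970664142176 q

/-- one entry of a code -/
def te (a b : ℕ) : ℕ := Nat.shiftLeft b (Nat.mul 4 a)

theorem te_eq (a b : ℕ) : te a b = b * 16 ^ a := by
  have : te a b = b <<< (4 * a) := rfl
  rw [this, Nat.shiftLeft_eq, pow_mul]; norm_num

/-- code of the 13-cycle with `z ^ i 7 = p_i` -/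
def zc (p2 p3 p4 p5 p6 q2 q3 q4 q5 q6 : ℕ) : ℕ :=
  Nat.add (te 7 1) (Nat.add (te 1 p2) (Nat.add (te p2 p3) (Nat.add (te p3 p4)
  (Nat.add (te p4 p5) (Nat.add (te p5 p6) (Nat.add (te p6 q6) (Nat.add (te q6 q5)
  (Nat.add (te q5 q4) (Nat.add (te q4 q3) (Nat.add (te q3 q2) (Nat.add (te q2 6)
  (te 6 7))))))))))))

/-- iterate `s ^ i z` -/
def itz (c i n p : ℕ) : ℕ := Nat.rec p (fun _ a => sh i (dg c a)) n

/-- `s ^ i z` violates the order condition -/
def badT (c i : ℕ) : Bool :=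
  anyN (fun p => !(Nat.beq (itz c i 6 p) p)) 14 &&
  (anyN (fun p => !(Nat.beq (itz c i 7 p) p)) 14 &&
  anyN (fun p => !(Nat.beq (itz c i 13 p) p)) 14)

/-- membership in a list -/
def inL (p : ℕ) (l : List ℕ) : Bool := List.rec false (fun a _ r => Nat.beq p a || r) l

theorem inL_false {p : ℕ} {l : List ℕ} (h : ∀ a ∈ l, p ≠ a) : inL p l = false := by
  induction l with
  | nil => rfl
  | cons a l ih =>
    have e : inL p (a :: l) = (Nat.beq p a || inL p l) := rfl
    rw [e, ih (fun b hb => h b (List.mem_cons_of_mem _ hb)), Bool.or_false]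
    by_contra hcon
    rw [Bool.not_eq_false] at hcon
    exact h a List.mem_cons_self (Nat.eq_of_beq_eq_true hcon)

def zA : ℕ := 48842269696338736
def zB : ℕ := 28045088868881536
def zC : ℕ := 48283155147441616

def chkZ (c : ℕ) : Bool :=
  inL c [zA, zB, zC] || badT c 1 || badT c 2 || badT c 3 || badT c 4 || badT c 5

def loopZ : Bool :=
  allN (fun p2 => inL p2 [0, 7, 1, 6] || force (yy p2) (fun q2 =>
  allN (fun p3 => inL p3 [0, 7, 1, 6, p2, q2] || force (yy p3) (fun q3 =>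
  allN (fun p4 => inL p4 [0, 7, 1, 6, p2, q2, p3, q3] || force (yy p4) (fun q4 =>
  allN (fun p5 => inL p5 [0, 7, 1, 6, p2, q2, p3, q3, p4, q4] || force (yy p5) (fun q5 =>
  allN (fun p6 => inL p6 [0, 7, 1, 6, p2, q2, p3, q3, p4, q4, p5, q5] ||
    force (yy p6) (fun q6 => force (zc p2 p3 p4 p5 p6 q2 q3 q4 q5 q6) chkZ)) 14)) 14)) 14)) 14)) 14

set_option maxRecDepth 100000 in
theorem loopZ_true : loopZ = true := by decide +kernel

end Pool.Agent.Helper95.TDS
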