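import Pool.Agent.Helper95.TDS.NormS
import Pool.Agent.Helper95.TDS.Enum

/-!
Definitions for the final kernel computations.
-/

namespace Pool.Agent.Helper95.TDS

/-- code of `rho` and of its inverse -/
def rc : ℕ := 16894523319141001
def rc' : ℕ := 30531245668815451

/-- lookup in the matching `a_t ↔ b_{t+j}` -/
def mv (j p : ℕ) : ℕ :=
  cond (Nat.blt p 7) (Nat.add 7 (Nat.mod (Nat.add p j) 7)) (Nat.mod (Nat.add p (Nat.sub 7 j)) 7)

/-- equality of Booleans -/
def beqB (a b : Bool) : Bool := cond a b (!b)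

/-- `c` does not preserve the partition into sides -/
def nA (c : ℕ) : Bool :=
  anyN (fun p => !(beqB (Nat.blt (dg c p) 7) (Nat.blt p 7))) 14 &&
  anyN (fun p => beqB (Nat.blt (dg c p) 7) (Nat.blt p 7)) 14

/-- `c` commutes with none of the matchings -/
def nB (c : ℕ) : Bool :=
  allN (fun j => anyN (fun p => !(Nat.beq (dg c (mv j p)) (mv j (dg c p)))) 14) 7

/-- iterate `c s ^ j` -/
def itt (c j n p : ℕ) : ℕ := Nat.rec p (fun _ a => dg c (sh j a)) n

/-- `c s ^ j` violates the order condition for some `j` -/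
def nT (c : ℕ) : Bool :=
  anyN (fun j => anyN (fun p => !(Nat.beq (itt c j 6 p) p)) 14 &&
    (anyN (fun p => !(Nat.beq (itt c j 7 p) p)) 14 &&
      anyN (fun p => !(Nat.beq (itt c j 13 p) p)) 14)) 7

def tst (c : ℕ) : Bool := nA c && (nB c && nT c)

/-- conjugation by the inverse of `rho` -/
def cjr (c : ℕ) : ℕ := comp (comp rc' c) rc

/-- test of the code of the first conjugate -/
def chk1 (c : ℕ) : Bool :=
  Nat.beq c idc || (tst c || force (cjr c) (fun c2 => tst c2 || force (cjr c2) tst))

/-- left factors -/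
def lf (zz d : ℕ) (i e : ℕ) : ℕ :=
  comp (comp rc' (pw 57325821153784336 d)) (comp (pw 35408300952863521 i)
    (pw (comp zz (pw 35408300952863521 6)) e))

/-- right factors -/
def rf (zz wz d : ℕ) (j k : ℕ) : ℕ :=
  comp (comp (pw zz j) (pw wz k)) (comp (pw 35408301052408336 d) rc)

/-- all elements of a list, forcing them first -/
def allL (f : ℕ → Bool) (l : List ℕ) : Bool := List.rec true (fun a _ r => force a f && r) l

theorem allL_spec {f : ℕ → Bool} {l : List ℕ} (h : allL f l = true) {a : ℕ} (ha : a ∈ l) :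
    f a = true := by
  induction l with
  | nil => exact absurd ha (by simp)
  | cons b l ih =>
    have h' : (force b f && allL f l) = true := h
    rw [Bool.and_eq_true, force_eq] at h'
    rcases List.mem_cons.1 ha with rfl | h2
    · exact h'.1
    · exact ih h'.2 h2

/-- one row of a table -/
def tab1 (f : ℕ → ℕ) (m : ℕ) (l : List ℕ) : List ℕ := Nat.rec l (fun j acc => f j :: acc) m

/-- flattened table -/
def tab2 (f : ℕ → ℕ → ℕ) (n m : ℕ) : List ℕ := Nat.rec [] (fun i acc => tab1 (f i) m acc) n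

theorem mem_tab1 (f : ℕ → ℕ) (m : ℕ) (l : List ℕ) :
    (∀ j < m, f j ∈ tab1 f m l) ∧ ∀ a ∈ l, a ∈ tab1 f m l := by
  induction m with
  | zero => exact ⟨fun j hj => absurd hj (by omega), fun a ha => ha⟩
  | succ m ih =>
    have e : tab1 f (m + 1) l = f m :: tab1 f m l := rfl
    rw [e]
    refine ⟨fun j hj => ?_, fun a ha => List.mem_cons_of_mem _ (ih.2 a ha)⟩
    rcases Nat.lt_succ_iff_lt_or_eq.1 hj with h | h
    · exact List.mem_cons_of_mem _ (ih.1 j h)
    · subst h; exact List.mem_cons_self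

theorem mem_tab2 (f : ℕ → ℕ → ℕ) {n m i j : ℕ} (hi : i < n) (hj : j < m) :
    f i j ∈ tab2 f n m := by
  induction n with
  | zero => omega
  | succ n ih =>
    have e : tab2 f (n + 1) m = tab1 (f n) m (tab2 f n m) := rfl
    rw [e]
    rcases Nat.lt_succ_iff_lt_or_eq.1 hi with h | h
    · exact (mem_tab1 _ _ _).2 _ (ih h)
    · subst h; exact (mem_tab1 _ _ _).1 j hj

/-- the whole check for one group -/
def chkAll (zz wz : ℕ) : Bool :=
  allN (fun d => allL (fun a => allL (fun b => force (comp a b) chk1)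
    (tab2 (rf zz wz d) 13 6)) (tab2 (lf zz d) 7 2)) 7

/-- code of a word -/
def wcode (zz i j k l : ℕ) : ℕ :=
  comp (comp (pw 35408300952863521 i) (pw zz j)) (comp (pw 35408300952863521 k) (pw zz l))

end Pool.Agent.Helper95.TDS
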