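import Pool.Agent.Helper95.TDS.ListH
import Pool.Agent.Helper95.TDS.ChkA
import Pool.Agent.Helper95.TDS.ChkB
import Pool.Agent.Helper95.TDS.ChkC

/-!
Soundness of the kernel computations on the primitive overgroups.
-/

namespace Pool.Agent.Helper95.TDS

open Equiv Equiv.Perm MulAction

/-- the rotation -/
def rho : Perm (Fin 14) := mkP rc rc' (by decide)

theorem cod_rho : Cod rc rho := cod_mkP _ _ _
theorem cod_rho' : Cod rc' rho⁻¹ := cod_mkP_inv _ _ _

/-- conjugation by the inverse of a power of `rho` -/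
def cjx (k : ℕ) (x : Perm (Fin 14)) : Perm (Fin 14) := (rho ^ k)⁻¹ * x * rho ^ k

theorem cjx_cjx (i k : ℕ) (x : Perm (Fin 14)) : cjx i (cjx k x) = cjx (k + i) x := by
  simp only [cjx, pow_add]; group

theorem rho_pow : rho ^ 4 = 1 := by
  refine Cod.eq (c := idc) ?_ cod_one
  have := cod_rho.pow 4
  have e : pw rc 4 = idc := by decide +kernel
  rwa [e] at this

theorem cjx_eq_one {k : ℕ} {x : Perm (Fin 14)} (h : cjx k x = 1) : x = 1 := by
  have : x = rho ^ k * cjx k x * (rho ^ k)⁻¹ := by rw [cjx]; group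
  rw [this, h]; group

/-- order condition -/
def TT (g : Perm (Fin 14)) : Prop := g ^ 6 = 1 ∨ g ^ 7 = 1 ∨ g ^ 13 = 1

/-- a permutation generating, with `s`, the whole alternating group -/
def Good (x : Perm (Fin 14)) : Prop := ¬ InA x ∧ ¬ InB x ∧ ∃ j : ℕ, ¬ TT (x * s ^ j)

theorem beqB_iff (a b : Bool) : beqB a b = true ↔ a = b := by
  cases a <;> cases b <;> simp [beqB]

theorem blt_iff (a b c d : ℕ) : (Nat.blt a b = Nat.blt c d) ↔ (a < b ↔ c < d) := by
  rw [Bool.eq_iff_iff, Nat.blt_eq, Nat.blt_eq]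

theorem nA_spec {c : ℕ} {x : Perm (Fin 14)} (hx : Cod c x) (h : nA c = true) : ¬ InA x := by
  rw [nA, Bool.and_eq_true] at h
  obtain ⟨h1, h2⟩ := h
  rintro (h3 | h3)
  · obtain ⟨p, hp, h4⟩ := anyN_spec h1
    have h5 := hx ⟨p, hp⟩
    simp only at h5
    rw [Bool.not_eq_true'] at h4
    have h6 := h3 ⟨p, hp⟩
    rw [← h5] at h6
    have h7 : beqB (Nat.blt (dg c p) 7) (Nat.blt p 7) = true := by
      rw [beqB_iff, blt_iff]; exact h6
    rw [h7] at h4
    exact absurd h4 (by decide)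
  · obtain ⟨p, hp, h4⟩ := anyN_spec h2
    have h5 := hx ⟨p, hp⟩
    simp only at h5
    rw [beqB_iff, blt_iff] at h4
    have h6 := h3 ⟨p, hp⟩
    rw [← h5] at h6
    simp only at h6
    tauto

theorem mv_eq {j : ℕ} (hj : j < 7) (p : Fin 14) : mv j p.val = (mt j p).val := by
  have h := mt_apply ⟨j, hj⟩ p
  simp only at h
  rw [h, mv]
  by_cases hp : p.val < 7
  · have b1 : Nat.blt p.val 7 = true := by rw [Nat.blt_eq]; exact hp
    rw [b1, cond_true, if_pos hp]; rfl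
  · have b1 : Nat.blt p.val 7 = false := by rw [← Bool.not_eq_true, Nat.blt_eq]; exact hp
    rw [b1, cond_false, if_neg hp]; rfl

theorem nB_spec {c : ℕ} {x : Perm (Fin 14)} (hx : Cod c x) (h : nB c = true) : ¬ InB x := by
  rintro ⟨j, hj, h1⟩
  obtain ⟨p, hp, h2⟩ := anyN_spec (allN_spec h j hj)
  have h3 := congrArg (fun f : Perm (Fin 14) => (f ⟨p, hp⟩).val) h1
  simp only [Perm.mul_apply] at h3
  have h4 : mv j p = (mt j ⟨p, hp⟩).val := mv_eq hj ⟨p, hp⟩
  have h5 : dg c p = (x ⟨p, hp⟩).val := hx ⟨p, hp⟩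
  rw [h4, h5, hx, mv_eq hj, h3, Nat.beq_refl] at h2
  exact absurd h2 (by decide)

theorem itt_eq {c : ℕ} {x : Perm (Fin 14)} (hx : Cod c x) (j n : ℕ) (p : Fin 14) :
    itt c j n p.val = (((x * s ^ j) ^ n) p).val := by
  induction n with
  | zero => rfl
  | succ n ih =>
    have h1 : itt c j (n + 1) p.val = dg c (sh j (itt c j n p.val)) := rfl
    rw [h1, ih, ← s_pow_apply, hx, pow_succ' (x * s ^ j), Perm.mul_apply, Perm.mul_apply]

theorem nT_spec {c : ℕ} {x : Perm (Fin 14)} (hx : Cod c x) (h : nT c = true) :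
    ∃ j : ℕ, ¬ TT (x * s ^ j) := by
  obtain ⟨j, _, h1⟩ := anyN_spec h
  refine ⟨j, fun hT => ?_⟩
  rw [Bool.and_eq_true, Bool.and_eq_true] at h1
  obtain ⟨h6, h7, h13⟩ := h1
  have key : ∀ n, (x * s ^ j) ^ n = 1 →
      anyN (fun p => !(Nat.beq (itt c j n p) p)) 14 = true → False := by
    intro n hn h
    obtain ⟨p, hp, h⟩ := anyN_spec h
    have h1 := itt_eq hx j n ⟨p, hp⟩
    simp only at h1
    rw [hn] at h1
    have h2 : itt c j n p = p := h1
    rw [h2, Nat.beq_refl] at h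
    exact absurd h (by decide)
  rcases hT with h | h | h
  · exact key 6 h h6
  · exact key 7 h h7
  · exact key 13 h h13

theorem tst_spec {c : ℕ} {x : Perm (Fin 14)} (hx : Cod c x) (h : tst c = true) : Good x := by
  rw [tst, Bool.and_eq_true, Bool.and_eq_true] at h
  exact ⟨nA_spec hx h.1, nB_spec hx h.2.1, nT_spec hx h.2.2⟩

theorem cjr_spec {c k : ℕ} {x : Perm (Fin 14)} (hx : Cod c (cjx k x)) :
    Cod (cjr c) (cjx (k + 1) x) := by
  have h := (cod_rho'.mul hx).mul cod_rho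
  have e : rho⁻¹ * cjx k x * rho = cjx (k + 1) x := by
    simp only [cjx, pow_add, pow_one]; group
  rw [e] at h
  exact h

theorem chk1_spec {c : ℕ} {x : Perm (Fin 14)} (hx : Cod c (cjx 1 x)) (h : chk1 c = true) :
    x = 1 ∨ ∃ i < 4, Good (cjx i x) := by
  rw [chk1, Bool.or_eq_true, Bool.or_eq_true, force_eq, Bool.or_eq_true, force_eq] at h
  rcases h with h | h | h | h
  · left
    have h1 := Nat.eq_of_beq_eq_true h
    rw [h1] at hx
    exact cjx_eq_one (hx.eq cod_one)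
  · exact Or.inr ⟨1, by norm_num, tst_spec hx h⟩
  · exact Or.inr ⟨2, by norm_num, tst_spec (cjr_spec hx) h⟩
  · exact Or.inr ⟨3, by norm_num, tst_spec (cjr_spec (cjr_spec hx)) h⟩

theorem C_list {zz a b c d : ℕ} {z : Perm (Fin 14)} (hz : Cod zz z)
    (hchk : chkAll zz (wcode zz a b c d) = true) {t : ℕ} (ht : t < 7) {x : Perm (Fin 14)}
    (hx : InList z a b c d (sB ^ t * x * (sB ^ t)⁻¹)) :
    x = 1 ∨ ∃ i < 4, Good (cjx i x) := by
  obtain ⟨i, hi, e, he, j, hj, k, hk, h⟩ := hx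
  have h1 := allN_spec hchk t ht
  have h2 := allL_spec h1 (mem_tab2 (lf zz t) hi he)
  have h3 := allL_spec h2 (mem_tab2 (rf zz (wcode zz a b c d) t) hj hk)
  rw [force_eq] at h3
  refine chk1_spec ?_ h3
  have hL : Cod (lf zz t i e) ((rho⁻¹ * (sB⁻¹) ^ t) * (s ^ i * (z * s ^ 6) ^ e)) :=
    (cod_rho'.mul (cod_sB'.pow t)).mul ((cod_s.pow i).mul ((hz.mul (cod_s.pow 6)).pow e))
  have hR : Cod (rf zz (wcode zz a b c d) t j k)
      ((z ^ j * (s ^ a * z ^ b * (s ^ c * z ^ d)) ^ k) * (sB ^ t * rho)) :=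
    ((hz.pow j).mul ((cod_wcode hz a b c d).pow k)).mul ((cod_sB.pow t).mul cod_rho)
  have h4 := hL.mul hR
  have h5 : x = (sB ^ t)⁻¹ * (s ^ i * (z * s ^ 6) ^ e *
      (z ^ j * (s ^ a * z ^ b * (s ^ c * z ^ d)) ^ k)) * sB ^ t := by
    rw [← h]; group
  have h6 : cjx 1 x = (rho⁻¹ * (sB⁻¹) ^ t) * (s ^ i * (z * s ^ 6) ^ e) *
      ((z ^ j * (s ^ a * z ^ b * (s ^ c * z ^ d)) ^ k) * (sB ^ t * rho)) := by
    rw [cjx, h5, inv_pow, pow_one]
    simp only [mul_assoc]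
  rw [h6]
  exact h4

theorem C_part {x : Perm (Fin 14)} {t : ℕ} (ht : t < 7)
    (hx : InG (sB ^ t * x * (sB ^ t)⁻¹)) : x = 1 ∨ ∃ i < 4, Good (cjx i x) := by
  rcases hx with h | h | h
  · exact C_list cod_ZA runA ht h
  · exact C_list cod_ZB runB ht h
  · exact C_list cod_ZC runC ht h

end Pool.Agent.Helper95.TDS
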