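import Mathlib

/-!
Permutations of 14 points coded by natural numbers (four bits per point).
-/

namespace Pool.Agent.Helper95.TDS

open Equiv

/-- the `i`-th hexadecimal digit -/
def dg (c i : ℕ) : ℕ := Nat.land (Nat.shiftRight c (Nat.mul 4 i)) 15

theorem dg_eq (c i : ℕ) : dg c i = c / 16 ^ i % 16 := by
  have h1 : Nat.land (Nat.shiftRight c (Nat.mul 4 i)) 15 = (c >>> (4 * i)) &&& 15 := rfl
  rw [dg, h1, show (15 : ℕ) = 2 ^ 4 - 1 from rfl, Nat.and_two_pow_sub_one_eq_mod,
    Nat.shiftRight_eq_div_pow, pow_mul]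
  norm_num

theorem dg_lt (c i : ℕ) : dg c i < 16 := by
  rw [dg_eq]; exact Nat.mod_lt _ (by norm_num)

/-- the number with digits `f 0, ..., f (n-1)` -/
def build (f : ℕ → ℕ) (n : ℕ) : ℕ :=
  Nat.rec 0 (fun i acc => Nat.add acc (Nat.shiftLeft (f i) (Nat.mul 4 i))) n

theorem build_succ (f : ℕ → ℕ) (n : ℕ) : build f (n + 1) = build f n + f n * 16 ^ n := by
  have h1 : build f (n + 1) = build f n + (f n <<< (4 * n)) := rfl
  rw [h1, Nat.shiftLeft_eq, pow_mul]
  norm_num

theorem build_lt {f : ℕ → ℕ} (hf : ∀ i, f i < 16) (n : ℕ) : build f n < 16 ^ n := by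
  induction n with
  | zero => simp [build]
  | succ n ih =>
    rw [build_succ, pow_succ]
    have := hf n
    have h2 : f n * 16 ^ n ≤ 15 * 16 ^ n := Nat.mul_le_mul_right _ (by omega)
    omega

theorem dg_build {f : ℕ → ℕ} (hf : ∀ i, f i < 16) {n i : ℕ} (hi : i < n) :
    dg (build f n) i = f i := by
  induction n with
  | zero => omega
  | succ n ih =>
    rw [dg_eq, build_succ]
    rcases Nat.lt_succ_iff_lt_or_eq.1 hi with h | h
    · have h1 : f n * 16 ^ n = (f n * 16 ^ (n - i - 1) * 16) * 16 ^ i := by
        rw [mul_assoc, mul_assoc, ← pow_succ', ← pow_add]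
        congr 2; omega
      rw [h1, Nat.add_mul_div_right _ _ (by positivity), Nat.add_mul_mod_self_right, ← dg_eq]
      exact ih h
    · subst h
      rw [Nat.add_mul_div_right _ _ (by positivity), Nat.div_eq_of_lt (build_lt hf i), zero_add]
      exact Nat.mod_eq_of_lt (hf i)

/-- `c` codes the permutation `x` -/
def Cod (c : ℕ) (x : Perm (Fin 14)) : Prop := ∀ i : Fin 14, dg c i.val = (x i).val

/-- composition of codes -/
def comp (c d : ℕ) : ℕ := build (fun i => dg c (dg d i)) 14

theorem Cod.mul {c d : ℕ} {x y : Perm (Fin 14)} (hx : Cod c x) (hy : Cod d y) :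
    Cod (comp c d) (x * y) := by
  intro i
  rw [comp, dg_build (fun i => dg_lt _ _) i.2, hy i, hx (y i)]
  rfl

/-- the identity code -/
def idc : ℕ := 62129658859368976

theorem cod_one : Cod idc 1 := by
  intro i
  revert i
  decide

theorem Cod.eq {c : ℕ} {x y : Perm (Fin 14)} (hx : Cod c x) (hy : Cod c y) : x = y := by
  ext i
  rw [← hx i, ← hy i]

/-- powers of codes -/
def pw (c n : ℕ) : ℕ := Nat.rec idc (fun _ acc => comp c acc) n

theorem Cod.pow {c : ℕ} {x : Perm (Fin 14)} (hx : Cod c x) (n : ℕ) : Cod (pw c n) (x ^ n) := by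
  induction n with
  | zero => exact cod_one
  | succ n ih =>
    rw [pow_succ']
    exact hx.mul ih

/-- check that `d` codes the inverse of `c` -/
def isInv (c d : ℕ) : Bool :=
  Nat.rec true (fun i acc => Nat.beq (dg c (dg d i)) i && Nat.ble (dg d i) 13 && acc) 14

theorem isInv_spec {c d : ℕ} (h : isInv c d = true) (i : ℕ) (hi : i < 14) :
    dg c (dg d i) = i ∧ dg d i < 14 := by
  have key : ∀ n, (Nat.rec true (fun i acc => Nat.beq (dg c (dg d i)) i &&
      Nat.ble (dg d i) 13 && acc) n : Bool) = true → ∀ i < n, dg c (dg d i) = i ∧ dg d i < 14 := by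
    intro n
    induction n with
    | zero => intro _ i hi; omega
    | succ n ih =>
      intro hn i hi
      simp only [Bool.and_eq_true] at hn
      obtain ⟨⟨h1, h2⟩, h3⟩ := hn
      rcases Nat.lt_succ_iff_lt_or_eq.1 hi with h | h
      · exact ih h3 i h
      · subst h
        exact ⟨Nat.eq_of_beq_eq_true h1, by have := Nat.le_of_ble_eq_true h2; omega⟩
  exact key 14 h i hi

theorem Cod.inv {c d : ℕ} {x : Perm (Fin 14)} (hx : Cod c x) (h : isInv c d = true) :
    Cod d x⁻¹ := by
  intro i
  obtain ⟨h1, h2⟩ := isInv_spec h i.val i.2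
  have h3 := hx ⟨dg d i.val, h2⟩
  simp only at h3
  rw [h1] at h3
  have h4 : x ⟨dg d i.val, h2⟩ = i := Fin.ext h3.symm
  have h5 : x⁻¹ i = ⟨dg d i.val, h2⟩ := by
    rw [Perm.inv_eq_iff_eq]; exact h4.symm
  rw [h5]

/-- the permutation with given code and inverse code -/
def mkP (c d : ℕ) (h : (isInv c d && isInv d c) = true) : Perm (Fin 14) where
  toFun i := ⟨dg c i.val, (isInv_spec ((Bool.and_eq_true _ _).mp h).2 i.val i.2).2⟩
  invFun i := ⟨dg d i.val, (isInv_spec ((Bool.and_eq_true _ _).mp h).1 i.val i.2).2⟩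
  left_inv i := Fin.ext (isInv_spec ((Bool.and_eq_true _ _).mp h).2 i.val i.2).1
  right_inv i := Fin.ext (isInv_spec ((Bool.and_eq_true _ _).mp h).1 i.val i.2).1

theorem cod_mkP (c d : ℕ) (h : (isInv c d && isInv d c) = true) : Cod c (mkP c d h) :=
  fun _ => rfl

theorem cod_mkP_inv (c d : ℕ) (h : (isInv c d && isInv d c) = true) : Cod d (mkP c d h)⁻¹ :=
  fun _ => rfl

/-- parity of a row of inversions -/
def rowP (c j m : ℕ) : Bool :=
  Nat.rec false (fun i acc => xor (Nat.ble (dg c j) (dg c i)) acc) m

/-- parity of the inversions in the first rows -/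
def parN (c n : ℕ) : Bool := Nat.rec false (fun j acc => xor (rowP c j j) acc) n

/-- parity of a code -/
def par (c : ℕ) : Bool := parN c 14

theorem sign_eq {c : ℕ} {x : Perm (Fin 14)} (hx : Cod c x) :
    Perm.sign x = if par c then -1 else 1 := by
  rw [Perm.sign_eq_prod_prod_Iio]
  have h1 : ∀ j : Fin 14, (∏ i ∈ Finset.Iio j, (if x i < x j then (1 : ℤˣ) else -1))
      = if rowP c j.val j.val then -1 else 1 := by
    intro j
    have h2 : (∏ i ∈ Finset.Iio j, (if x i < x j then (1 : ℤˣ) else -1))
        = ∏ i ∈ Finset.range j.val, (if dg c i < dg c j.val then (1 : ℤˣ) else -1) := by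
      have h3 : Finset.range j.val = (Finset.Iio j).map Fin.valEmbedding := by
        rw [Fin.map_valEmbedding_Iio, Nat.Iio_eq_range]
      rw [h3, Finset.prod_map]
      apply Finset.prod_congr rfl
      intro i _
      have e1 : dg c (Fin.valEmbedding i) = (x i).val := hx i
      rw [e1, hx j]
      rfl
    rw [h2]
    have key : ∀ m, (∏ i ∈ Finset.range m, (if dg c i < dg c j.val then (1 : ℤˣ) else -1))
        = if rowP c j.val m then -1 else 1 := by
      intro m
      induction m with
      | zero => rfl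
      | succ m ih =>
        rw [Finset.prod_range_succ, ih]
        have e : rowP c j.val (m + 1) = xor (Nat.ble (dg c j.val) (dg c m)) (rowP c j.val m) := rfl
        rw [e]
        by_cases hlt : dg c m < dg c j.val
        · have hb : Nat.ble (dg c j.val) (dg c m) = false := by
            by_contra hb
            rw [Bool.not_eq_false] at hb
            have := Nat.le_of_ble_eq_true hb
            omega
          rw [if_pos hlt, hb, mul_one, Bool.false_xor]
        · have hb : Nat.ble (dg c j.val) (dg c m) = true := by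
            rw [Nat.ble_eq]; omega
          rw [if_neg hlt, hb, Bool.true_xor]
          cases rowP c j.val m <;> simp
    exact key j.val
  rw [Finset.prod_congr rfl (fun j _ => h1 j)]
  have h4 : (∏ j : Fin 14, (if rowP c j.val j.val then (-1 : ℤˣ) else 1))
      = ∏ j ∈ Finset.range 14, (if rowP c j j then (-1 : ℤˣ) else 1) :=
    Fin.prod_univ_eq_prod_range (fun j => if rowP c j j then (-1 : ℤˣ) else 1) 14
  rw [h4]
  have key : ∀ m, (∏ j ∈ Finset.range m, (if rowP c j j then (-1 : ℤˣ) else 1))
      = if parN c m then -1 else 1 := by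
    intro m
    induction m with
    | zero => rfl
    | succ m ih =>
      rw [Finset.prod_range_succ, ih]
      have e : parN c (m + 1) = xor (rowP c m m) (parN c m) := rfl
      rw [e]
      cases rowP c m m <;> cases parN c m <;> simp
  exact key 14

/-- bounded universal test -/
def allN (f : ℕ → Bool) (n : ℕ) : Bool := Nat.rec true (fun i acc => f i && acc) n

theorem allN_spec {f : ℕ → Bool} {n : ℕ} (h : allN f n = true) (i : ℕ) (hi : i < n) :
    f i = true := by
  induction n with
  | zero => omega
  | succ n ih =>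
    have h' : (f n && allN f n) = true := h
    rw [Bool.and_eq_true] at h'
    rcases Nat.lt_succ_iff_lt_or_eq.1 hi with h1 | h1
    · exact ih h'.2 h1
    · subst h1; exact h'.1

/-- force the evaluation of a number before passing it on -/
def force (n : ℕ) (f : ℕ → Bool) : Bool := Nat.rec (f 0) (fun m _ => f (Nat.succ m)) n

theorem force_eq (n : ℕ) (f : ℕ → Bool) : force n f = f n := by
  cases n <;> rfl

/-- bounded existential test -/
def anyN (f : ℕ → Bool) (n : ℕ) : Bool := Nat.rec false (fun i acc => f i || acc) n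

theorem anyN_spec {f : ℕ → Bool} {n : ℕ} (h : anyN f n = true) : ∃ i < n, f i = true := by
  induction n with
  | zero => exact absurd h (by simp [anyN])
  | succ n ih =>
    have h' : (f n || anyN f n) = true := h
    rw [Bool.or_eq_true] at h'
    rcases h' with h1 | h1
    · exact ⟨n, Nat.lt_succ_self n, h1⟩
    · obtain ⟨i, hi, hf⟩ := ih h1
      exact ⟨i, Nat.lt_succ_of_lt hi, hf⟩

end Pool.Agent.Helper95.TDS
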