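import Pool.Agent.Helper95.TDS.ABSound

/-!
Four conjugates of `s` form a total dominating set of the alternating group of degree 14.
-/

namespace Pool.Agent.Helper95.TDS

open Equiv Equiv.Perm MulAction

theorem s_mem : s ∈ alternatingGroup (Fin 14) := by
  rw [mem_alternatingGroup, sign_eq cod_s]
  have : par 35408300952863521 = false := by decide +kernel
  rw [this]; rfl

theorem sign_tau : Perm.sign tau = -1 := by
  rw [sign_eq cod_tau]
  have : par 28502781892209031 = true := by decide +kernel
  rw [this]; rfl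

theorem sign_rho : Perm.sign rho = -1 := by
  rw [sign_eq cod_rho]
  have : par rc = true := by decide +kernel
  rw [this]; rfl

theorem tau_s : tau * s = s * tau := by
  refine Cod.eq (c := comp 28502781892209031 35408300952863521) (cod_tau.mul cod_s) ?_
  have := cod_s.mul cod_tau
  have e : comp 28502781892209031 35408300952863521
    = comp 35408300952863521 28502781892209031 := by decide +kernel
  rwa [e]

/-- the elements of the dominating set -/
def el (k : ℕ) : Perm (Fin 14) := rho ^ k * s * (rho ^ k)⁻¹

theorem el_mem (k : ℕ) : el k ∈ alternatingGroup (Fin 14) := by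
  have h := s_mem
  rw [mem_alternatingGroup] at h ⊢
  rw [el, Perm.sign_mul, Perm.sign_mul, Perm.sign_inv, h, mul_one, Int.units_mul_self]

theorem el_mod (k : ℕ) : el (k % 4) = el k := by
  have h : rho ^ (k % 4) = rho ^ k := by
    conv_rhs => rw [← Nat.div_add_mod k 4, pow_add, pow_mul, rho_pow, one_pow, one_mul]
  rw [el, el, h]

theorem alt_le_cj {K : Subgroup (Perm (Fin 14))} (c : Perm (Fin 14))
    (h : alternatingGroup (Fin 14) ≤ K) : alternatingGroup (Fin 14) ≤ cj c K := by
  intro g hg
  rw [mem_cj']
  apply h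
  rw [mem_alternatingGroup] at hg ⊢
  rw [Perm.sign_mul, Perm.sign_mul, Perm.sign_inv, hg, mul_one, Int.units_mul_self]

theorem closure_cj (k : ℕ) (x : Perm (Fin 14)) :
    cj (rho ^ k) (Subgroup.closure {cjx k x, s}) = Subgroup.closure {x, el k} := by
  rw [cj, MonoidHom.map_closure]
  congr 1
  rw [Set.image_pair]
  have e1 : (MulAut.conj (rho ^ k)).toMonoidHom (cjx k x) = x := by
    change rho ^ k * cjx k x * (rho ^ k)⁻¹ = x
    rw [cjx]; group
  have e2 : (MulAut.conj (rho ^ k)).toMonoidHom s = el k := rfl
  rw [e1, e2]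

/-- Every nontrivial even permutation generates the alternating group together with one of the
four elements. -/
theorem dominate {x : Perm (Fin 14)} (hA : x ∈ alternatingGroup (Fin 14)) (hx : x ≠ 1) :
    ∃ k < 4, alternatingGroup (Fin 14) ≤ Subgroup.closure {x, el k} := by
  by_contra hcon
  push Not at hcon
  have hcon' : ∀ k, ¬ alternatingGroup (Fin 14) ≤ Subgroup.closure {x, el k} := by
    intro k
    rw [← el_mod]
    exact hcon (k % 4) (Nat.mod_lt _ (by norm_num))
  have hbad : ∀ k, InA (cjx k x) ∨ InB (cjx k x) ∨ ((∀ j : ℕ, TT (cjx k x * s ^ j)) ∧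
      ∃ d < 7, InG (sB ^ d * cjx k x * (sB ^ d)⁻¹)) := by
    intro k
    by_cases hIA : InA (cjx k x)
    · exact Or.inl hIA
    by_cases hIB : InB (cjx k x)
    · exact Or.inr (Or.inl hIB)
    right; right
    set K := Subgroup.closure {cjx k x, s} with hK
    have hs : s ∈ K := Subgroup.subset_closure (by simp)
    have hy : cjx k x ∈ K := Subgroup.subset_closure (by simp)
    have hKA : K ≤ alternatingGroup (Fin 14) := by
      rw [hK, Subgroup.closure_le]
      rintro g (rfl | hg)
      · exact cjx_mem hA
      · rw [Set.mem_singleton_iff.1 hg]; exact s_mem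
    have hprim := primitive_of hs hy hIA hIB
    have hne : ¬ alternatingGroup (Fin 14) ≤ K := by
      intro h
      apply hcon' k
      rw [← closure_cj]
      exact alt_le_cj _ h
    obtain ⟨hT, d, hd, hG⟩ := classify hKA hprim hne hs
    exact ⟨fun j => hT _ (K.mul_mem hy (K.pow_mem hs j)), d, hd, hG _ hy⟩
  by_cases h3 : ∃ k, ∃ d < 7, InG (sB ^ d * cjx k x * (sB ^ d)⁻¹)
  · obtain ⟨k, d, hd, hG⟩ := h3
    rcases C_part hd hG with h | ⟨i, _, hA', hB', j, hj⟩
    · exact hx (cjx_eq_one h)
    · rw [cjx_cjx] at hA' hB' hj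
      rcases hbad (k + i) with h | h | h
      · exact hA' h
      · exact hB' h
      · exact hj (h.1 j)
  · apply hx
    apply AB_part hA
    intro k
    rcases hbad k with h | h | h
    · exact Or.inl h
    · exact Or.inr h
    · exact absurd ⟨k, h.2⟩ h3

/-- The four elements are conjugate in the alternating group. -/
theorem conj_el (k : ℕ) : ∃ g ∈ alternatingGroup (Fin 14), g * s * g⁻¹ = el k := by
  rcases Nat.even_or_odd k with h | h
  · refine ⟨rho ^ k, ?_, rfl⟩
    rw [mem_alternatingGroup, map_pow, sign_rho]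
    exact h.neg_one_pow
  · refine ⟨rho ^ k * tau, ?_, ?_⟩
    · rw [mem_alternatingGroup, Perm.sign_mul, map_pow, sign_rho, sign_tau, h.neg_one_pow]
      rfl
    · rw [el]
      calc rho ^ k * tau * s * (rho ^ k * tau)⁻¹
          = rho ^ k * (tau * s) * tau⁻¹ * (rho ^ k)⁻¹ := by group
        _ = rho ^ k * (s * tau) * tau⁻¹ * (rho ^ k)⁻¹ := by rw [tau_s]
        _ = rho ^ k * s * (rho ^ k)⁻¹ := by group

end Pool.Agent.Helper95.TDS
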