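import Mathlib

/-!
General lemmas on permutation groups: commutators that are three-cycles, conjugates in a subgroup
with full Sylow subgroup, separation in transitive groups.
-/

namespace Pool.Agent.Helper95.TDS

open Equiv Equiv.Perm MulAction

theorem pai {α : Type*} (g : Perm α) (a : α) : g (g⁻¹ a) = a := by simp

theorem pia {α : Type*} (g : Perm α) (a : α) : g⁻¹ (g a) = a := by simp

/-- If the supports of `g` and `h` meet in exactly one point, the commutator is a three-cycle. -/
theorem isThreeCycle_comm {α : Type*} [DecidableEq α] [Fintype α] {g h : Perm α} {a : α}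
    (hg : g a ≠ a) (hh : h a ≠ a) (hx : ∀ x, g x ≠ x → h x ≠ x → x = a) :
    (g * h * g⁻¹ * h⁻¹).IsThreeCycle := by
  have hgne : ∀ x, g x ≠ x → x ≠ a → h x = x := fun x h1 h2 => by
    by_contra h3; exact h2 (hx x h1 h3)
  have hhne : ∀ x, h x ≠ x → x ≠ a → g x = x := fun x h1 h2 => by
    by_contra h3; exact h2 (hx x h3 h1)
  have hgi : ∀ x, g x = x → g⁻¹ x = x := fun x h1 => by
    rw [Perm.inv_eq_iff_eq]; exact h1.symm
  have hhi : ∀ x, h x = x → h⁻¹ x = x := fun x h1 => by
    rw [Perm.inv_eq_iff_eq]; exact h1.symm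
  -- b = g a, d = h a
  have hbg : g (g a) ≠ g a := fun e => hg (g.injective e)
  have hdh : h (h a) ≠ h a := fun e => hh (h.injective e)
  have hb : h (g a) = g a := hgne _ hbg hg
  have hd : g (h a) = h a := hhne _ hdh hh
  have hbd : g a ≠ h a := by
    intro e
    rw [e] at hbg
    exact hbg hd
  have key : g * h * g⁻¹ * h⁻¹ = swap a (h a) * swap a (g a) := by
    ext x
    simp only [Perm.coe_mul, Function.comp_apply]
    by_cases hxa : x = a
    · subst hxa
      rw [swap_apply_left, swap_apply_of_ne_of_ne hg hbd]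
      -- h⁻¹ x
      have h1 : h (h⁻¹ x) ≠ h⁻¹ x := by
        rw [pai]; intro e
        exact hh (by have := congrArg h e; rwa [pai] at this)
      have h2 : h⁻¹ x ≠ x := by
        intro e; exact hh (by rw [Perm.inv_eq_iff_eq] at e; exact e.symm)
      rw [hgi _ (hhne _ h1 h2), pai]
    by_cases hxb : x = g a
    · subst hxb
      rw [swap_apply_right, swap_apply_left, hhi _ hb, pia, hd]
    rw [swap_apply_of_ne_of_ne hxa hxb]
    by_cases hxd : x = h a
    · subst hxd
      rw [swap_apply_right, pia]
      have h1 : g (g⁻¹ a) ≠ g⁻¹ a := by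
        rw [pai]; intro e
        exact hg (by have := congrArg g e; rwa [pai] at this)
      have h2 : g⁻¹ a ≠ a := by
        intro e; exact hg (by rw [Perm.inv_eq_iff_eq] at e; exact e.symm)
      rw [hgne _ h1 h2, pai]
    rw [swap_apply_of_ne_of_ne hxa hxd]
    by_cases h1 : h x = x
    · rw [hhi _ h1]
      by_cases h2 : g x = x
      · rw [hgi _ h2, h1, h2]
      · have h3 : g (g⁻¹ x) ≠ g⁻¹ x := by
          rw [pai]; intro e
          exact h2 (by have := congrArg g e; rwa [pai] at this)
        have h4 : g⁻¹ x ≠ a := by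
          intro e; apply hxb; rw [Perm.inv_eq_iff_eq] at e; exact e
        rw [hgne _ h3 h4, pai]
    · have h3 : h (h⁻¹ x) ≠ h⁻¹ x := by
        rw [pai]; intro e
        exact h1 (by have := congrArg h e; rwa [pai] at this)
      have h4 : h⁻¹ x ≠ a := by
        intro e; apply hxd; rw [Perm.inv_eq_iff_eq] at e; exact e
      rw [hgi _ (hhne _ h3 h4), pai, hhne _ h1 hxa]
  rw [key]
  exact isThreeCycle_swap_mul_swap_same (Ne.symm hh) (Ne.symm hg) (Ne.symm hbd)

/-- Neumann's separation lemma. -/
theorem exists_separating {G α : Type*} [Group G] [Finite G] [Fintype α] [DecidableEq α]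
    [MulAction G α] [IsPretransitive G α] (E F : Finset α)
    (h : E.card * F.card < Fintype.card α) : ∃ g : G, ∀ e ∈ E, g • e ∉ F := by
  classical
  by_contra hcon
  push Not at hcon
  have := Fintype.ofFinite G
  -- every g sends some e to some f
  have hcount : ∀ e f : α, (Finset.univ.filter (fun g : G => g • e = f)).card * Fintype.card α
      = Fintype.card G := by
    intro e f
    obtain ⟨k, hk⟩ := exists_smul_eq G e f
    have h1 : (Finset.univ.filter (fun g : G => g • e = f)).card
        = (Finset.univ.filter (fun g : G => g • e = e)).card := by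
      refine Finset.card_bij (fun g _ => k⁻¹ * g) ?_ ?_ ?_
      · intro g hg
        simp only [Finset.mem_filter, Finset.mem_univ, true_and] at hg ⊢
        rw [mul_smul, hg, ← hk, inv_smul_smul]
      · intro a _ b _ hab
        exact mul_left_cancel hab
      · intro b hb
        simp only [Finset.mem_filter, Finset.mem_univ, true_and] at hb
        refine ⟨k * b, ?_, by group⟩
        simp only [Finset.mem_filter, Finset.mem_univ, true_and]
        rw [mul_smul, hb, hk]
    have h2 : (Finset.univ.filter (fun g : G => g • e = e)).card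
        = Fintype.card (stabilizer G e) := by
      rw [Fintype.card_subtype]
      congr 1
    have h3 := card_orbit_mul_card_stabilizer_eq_card_group G e
    have h4 : Fintype.card (orbit G e) = Fintype.card α := by
      exact (set_fintype_card_eq_univ_iff _).mpr (orbit_eq_univ G e)
    rw [h1, h2, mul_comm, ← h4, h3]
  have hsub : (Finset.univ : Finset G) ⊆
      (E ×ˢ F).biUnion (fun p => Finset.univ.filter (fun g : G => g • p.1 = p.2)) := by
    intro g _
    obtain ⟨e, he, hf⟩ := hcon g
    simp only [Finset.mem_biUnion, Finset.mem_product, Finset.mem_filter, Finset.mem_univ,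
      true_and]
    exact ⟨(e, g • e), ⟨he, hf⟩, rfl⟩
  have hle := (Finset.card_le_card hsub).trans Finset.card_biUnion_le
  have hGpos : 0 < Fintype.card G := Fintype.card_pos
  have : Fintype.card G * Fintype.card α ≤ (E.card * F.card) * Fintype.card G := by
    calc Fintype.card G * Fintype.card α
        ≤ (∑ p ∈ E ×ˢ F, (Finset.univ.filter (fun g : G => g • p.1 = p.2)).card)
            * Fintype.card α := Nat.mul_le_mul_right _ (by simpa using hle)
      _ = ∑ p ∈ E ×ˢ F, (Finset.univ.filter (fun g : G => g • p.1 = p.2)).card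
            * Fintype.card α := by rw [Finset.sum_mul]
      _ = ∑ p ∈ E ×ˢ F, Fintype.card G := Finset.sum_congr rfl (fun p _ => hcount _ _)
      _ = (E.card * F.card) * Fintype.card G := by
        rw [Finset.sum_const, Finset.card_product, smul_eq_mul]
  rw [mul_comm] at this
  have := Nat.le_of_mul_le_mul_right this hGpos
  omega

/-- If `H` contains the full `p`-part of `G`, every `p`-element of `G` is conjugate into `H`. -/
theorem exists_conj_mem {G : Type*} [Group G] [Finite G] {H : Subgroup G} {p v : ℕ}
    [hp : Fact p.Prime] (hv : p ^ v ∣ Nat.card H) (hv' : ¬ p ^ (v + 1) ∣ Nat.card G) {g : G}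
    {j : ℕ} (hg : orderOf g = p ^ j) : ∃ k : G, k * g * k⁻¹ ∈ H := by
  obtain ⟨K, hK⟩ := Sylow.exists_subgroup_card_pow_prime (G := H) p hv
  -- K mapped to G
  set K' : Subgroup G := K.map H.subtype with hK'
  have hcard : Nat.card K' = p ^ v := by
    rw [hK', Subgroup.card_map_of_injective H.subtype_injective, hK]
  have hfac : (Nat.card G).factorization p = v := by
    have hne : Nat.card G ≠ 0 := Nat.card_pos.ne'
    have h1 : p ^ v ∣ Nat.card G := hcard ▸ Subgroup.card_subgroup_dvd_card K'
    have h2 := (hp.out.pow_dvd_iff_le_factorization hne).1 h1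
    have h3 : ¬ (v + 1 ≤ (Nat.card G).factorization p) := fun h =>
      hv' ((hp.out.pow_dvd_iff_le_factorization hne).2 h)
    omega
  let S : Sylow p G := Sylow.ofCard K' (by rw [hcard, hfac])
  have hS : (S : Subgroup G) = K' := rfl
  have hgp : IsPGroup p (Subgroup.zpowers g) := by
    rw [IsPGroup.iff_card]
    exact ⟨j, by rw [Nat.card_zpowers, hg]⟩
  obtain ⟨Q, hQ⟩ := hgp.exists_le_sylow
  obtain ⟨k, hk⟩ := exists_smul_eq G Q S
  refine ⟨k, ?_⟩
  have h1 : g ∈ Q := hQ (Subgroup.mem_zpowers g)
  have h2 : k * g * k⁻¹ ∈ (k • Q : Sylow p G) := by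
    rw [← SetLike.mem_coe, Sylow.coe_smul]
    exact ⟨g, h1, rfl⟩
  rw [hk] at h2
  have h3 : k * g * k⁻¹ ∈ K' := h2
  rw [hK'] at h3
  obtain ⟨y, _, hy⟩ := h3
  rw [← hy]
  exact y.2

end Pool.Agent.Helper95.TDS
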