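import Pool.Agent.Helper95.TDS.GroupA

/-!
Primitive subgroups of the symmetric group on 14 points without three-cycles.
-/

namespace Pool.Agent.Helper95.TDS

open Equiv Equiv.Perm MulAction

/-- A primitive group of degree 14 without three-cycles contains no cycle of prime length
at most 7. -/
theorem no_cycle {H : Subgroup (Perm (Fin 14))} (hprim : IsPreprimitive H (Fin 14))
    (no3 : ∀ g ∈ H, ¬ g.IsThreeCycle) {g : Perm (Fin 14)} (hg : g ∈ H) (hc : g.IsCycle)
    (hp : g.support.card.Prime) (h7 : g.support.card ≤ 7) : False := by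
  classical
  set p := g.support.card with hpdef
  have hp2 : 2 ≤ p := hp.two_le
  have hS : ((g.support : Set (Fin 14))ᶜ).ncard = 14 - p := by
    rw [Set.ncard_compl, Set.ncard_coe_finset, Nat.card_eq_fintype_card, Fintype.card_fin]
  have hn : 14 - p = (13 - p) + 1 := by omega
  have htr := isPretransitive_of_isCycle_mem (G := H) hc hg
  have hcard : Nat.card (SubMulAction.ofFixingSubgroup H ((g.support : Set (Fin 14))ᶜ)) = p := by
    have h1 : (SubMulAction.ofFixingSubgroup H ((g.support : Set (Fin 14))ᶜ) : Set (Fin 14))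
        = (g.support : Set (Fin 14)) := by
      ext x
      simp [SubMulAction.mem_ofFixingSubgroup_iff]
    have h2 : Nat.card (SubMulAction.ofFixingSubgroup H ((g.support : Set (Fin 14))ᶜ))
        = (SubMulAction.ofFixingSubgroup H ((g.support : Set (Fin 14))ᶜ) :
          Set (Fin 14)).ncard := by
      rw [← Nat.card_coe_set_eq]
      rfl
    rw [h2, h1, Set.ncard_coe_finset]
  have hprim2 : IsPreprimitive (fixingSubgroup H ((g.support : Set (Fin 14))ᶜ))
      (SubMulAction.ofFixingSubgroup H ((g.support : Set (Fin 14))ᶜ)) :=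
    IsPreprimitive.of_prime_card (by rw [hcard]; exact hp)
  have hmp := hprim.isMultiplyPreprimitive (hS.trans hn)
    (by rw [Nat.card_eq_fintype_card, Fintype.card_fin]; omega) hprim2
  have hmt : IsMultiplyPretransitive H (Fin 14) (13 - p + 2) := hmp.isMultiplyPretransitive
  have hmt2 : IsMultiplyPretransitive H (Fin 14) p :=
    isMultiplyPretransitive_of_le (n := 13 - p + 2) (by omega)
      (by rw [Nat.card_eq_fintype_card, Fintype.card_fin]; omega)
  -- choose the target set
  obtain ⟨a, ha⟩ : ∃ a, a ∈ g.support := by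
    rw [← Finset.nonempty_def, ← Finset.card_pos]; omega
  obtain ⟨T', hT', hT'c⟩ := Finset.exists_subset_card_eq (s := g.supportᶜ) (n := p - 1)
    (by rw [Finset.card_compl, Fintype.card_fin]; omega)
  have haT' : a ∉ T' := fun h => by
    have := hT' h
    rw [Finset.mem_compl] at this
    exact this ha
  have hTc : (insert a T').card = p := by
    rw [Finset.card_insert_of_notMem haT', hT'c]; omega
  set e1 : Fin p ↪ Fin 14 := (g.support.orderEmbOfFin hpdef.symm).toEmbedding with he1
  set e2 : Fin p ↪ Fin 14 := ((insert a T').orderEmbOfFin hTc).toEmbedding with he2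
  obtain ⟨h, hh⟩ := exists_smul_eq (M := H) e1 e2
  have hh' : ∀ i, (h : Perm (Fin 14)) (e1 i) = e2 i := fun i => by
    rw [← hh]; rfl
  have hr1 : ∀ x, x ∈ g.support → ∃ i, e1 i = x := by
    intro x hx
    have := Finset.range_orderEmbOfFin g.support hpdef.symm
    have h2 : x ∈ Set.range (g.support.orderEmbOfFin hpdef.symm) := by rw [this]; exact hx
    exact h2
  have hr2 : ∀ x, x ∈ insert a T' → ∃ i, e2 i = x := by
    intro x hx
    have := Finset.range_orderEmbOfFin (insert a T') hTc
    have h2 : x ∈ Set.range ((insert a T').orderEmbOfFin hTc) := by rw [this]; exact hx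
    exact h2
  have hm1 : ∀ i, e1 i ∈ g.support := fun i => Finset.orderEmbOfFin_mem _ _ _
  have hm2 : ∀ i, e2 i ∈ insert a T' := fun i => Finset.orderEmbOfFin_mem _ _ _
  have hgsupp : ∀ x, x ∈ g.support ↔ g x ≠ x := fun x => mem_support
  refine no3 _ (H.mul_mem (H.mul_mem (H.mul_mem hg (H.mul_mem (H.mul_mem h.2 hg)
    (H.inv_mem h.2))) (H.inv_mem hg)) (H.inv_mem (H.mul_mem (H.mul_mem h.2 hg)
    (H.inv_mem h.2)))) (isThreeCycle_comm (a := a) ((hgsupp a).1 ha) ?_ ?_)
  · obtain ⟨i, hi⟩ := hr2 a (Finset.mem_insert_self _ _)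
    simp only [Perm.coe_mul, Function.comp_apply]
    have : (h : Perm (Fin 14))⁻¹ a = e1 i := by
      rw [Perm.inv_eq_iff_eq, hh', hi]
    rw [this]
    intro hcon
    rw [← hi, ← hh'] at hcon
    exact (hgsupp _).1 (hm1 i) ((h : Perm (Fin 14)).injective hcon)
  · intro x hgx hkx
    simp only [Perm.coe_mul, Function.comp_apply] at hkx
    have h1 : (h : Perm (Fin 14))⁻¹ x ∈ g.support := by
      rw [hgsupp]
      intro hcon
      rw [hcon, pai] at hkx
      exact hkx rfl
    obtain ⟨i, hi⟩ := hr1 _ h1
    have h2 : x = e2 i := by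
      rw [← hh', hi, pai]
    have h3 := hm2 i
    rw [← h2, Finset.mem_insert] at h3
    rcases h3 with h3 | h3
    · exact h3
    · have := hT' h3
      rw [Finset.mem_compl] at this
      exact absurd ((hgsupp x).2 hgx) this

/-- Order of a primitive group of degree 14 is divisible by 14. -/
theorem dvd_card {H : Subgroup (Perm (Fin 14))} (htr : IsPretransitive H (Fin 14)) :
    14 ∣ Nat.card H := by
  have h1 := (stabilizer H (0 : Fin 14)).card_mul_index
  have h2 : (stabilizer H (0 : Fin 14)).index = 14 := by
    rw [index_stabilizer_of_transitive, Nat.card_eq_fintype_card, Fintype.card_fin]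
  rw [h2] at h1
  exact ⟨_, by rw [← h1, mul_comm]⟩

/-- Burnside's transfer theorem for primitive groups of degree 14. -/
theorem not_normalizer_le {H : Subgroup (Perm (Fin 14))} (hprim : IsPreprimitive H (Fin 14))
    {p : ℕ} [hp : Fact p.Prime] (hp14 : p ∣ 14) (P : Sylow p H)
    (hP : Subgroup.normalizer (P : Set H) ≤ Subgroup.centralizer (P : Set H)) : False := by
  have h14 := dvd_card hprim.toIsPretransitive
  set K := (MonoidHom.transferSylow P hP).ker with hK
  have hKp : ¬ p ∣ Nat.card K := MonoidHom.not_dvd_card_ker_transferSylow P hP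
  have hcomp := MonoidHom.ker_transferSylow_isComplement' P hP
  by_cases hfix : fixedPoints K (Fin 14) = Set.univ
  · -- K is trivial
    have hKbot : Nat.card K = 1 := by
      rw [Nat.card_eq_one_iff_unique]
      refine ⟨⟨fun a b => ?_⟩, ⟨1⟩⟩
      have hone : ∀ a : K, a = 1 := by
        intro a
        apply Subtype.ext
        apply Subtype.ext
        ext x
        have : x ∈ fixedPoints K (Fin 14) := by rw [hfix]; trivial
        have h2 := this a
        have h3 : ((a : H) : Perm (Fin 14)) x = x := h2
        rw [h3]; rfl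
      rw [hone a, hone b]
    have hcm := hcomp.card_mul_card
    rw [hKbot, one_mul] at hcm
    obtain ⟨k, hk⟩ := P.2.exists_card_eq
    have hk' : Nat.card H = p ^ k := by rw [← hcm, ← hk]
    rw [hk'] at h14
    have h2 : 2 ∣ p ^ k := dvd_trans (by norm_num) h14
    have h7 : 7 ∣ p ^ k := dvd_trans (by norm_num) h14
    have e2 := (Nat.prime_dvd_prime_iff_eq Nat.prime_two hp.out).1 (Nat.prime_two.dvd_of_dvd_pow h2)
    have e7 := (Nat.prime_dvd_prime_iff_eq (by norm_num) hp.out).1
      ((by norm_num : Nat.Prime 7).dvd_of_dvd_pow h7)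
    omega
  · have htr : IsPretransitive K (Fin 14) :=
      IsQuasiPreprimitive.isPretransitive_of_normal hfix
    have h1 := (stabilizer K (0 : Fin 14)).card_mul_index
    have h2 : (stabilizer K (0 : Fin 14)).index = 14 := by
      rw [index_stabilizer_of_transitive, Nat.card_eq_fintype_card, Fintype.card_fin]
    rw [h2] at h1
    exact hKp (hp14.trans ⟨_, by rw [← h1, mul_comm]⟩)

/-- The order of the normaliser of a self-centralising subgroup of prime order. -/
theorem card_normalizer_dvd {G : Type*} [Group G] [Finite G] {p : ℕ} [hp : Fact p.Prime]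
    (P : Subgroup G) (hP : Nat.card P = p)
    (hC : Subgroup.centralizer (P : Set G) ≤ P) :
    Nat.card (Subgroup.normalizer (P : Set G)) ∣ p * (p - 1) := by
  have key := Subgroup.card_dvd_of_injective _
    (QuotientGroup.kerLift_injective P.normalizerMonoidHom)
  rw [Subgroup.normalizerMonoidHom_ker] at key
  have hcyc : IsCyclic P := isCyclic_of_prime_card hP
  rw [hcyc.card_mulAut, hP, Nat.totient_prime hp.out] at key
  have h1 := Subgroup.card_eq_card_quotient_mul_card_subgroup
    ((Subgroup.centralizer (P : Set G)).subgroupOf (Subgroup.normalizer (P : Set G)))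
  have h2 : Nat.card ((Subgroup.centralizer (P : Set G)).subgroupOf
      (Subgroup.normalizer (P : Set G))) ∣ p := by
    have h3 : Nat.card ((Subgroup.centralizer (P : Set G)).subgroupOf
        (Subgroup.normalizer (P : Set G))) = Nat.card (Subgroup.centralizer (P : Set G)) := by
      apply Nat.card_congr
      apply (Subgroup.subgroupOfEquivOfLe _).toEquiv
      exact Subgroup.centralizer_le_normalizer (P : Set G)
    rw [h3, ← hP]
    exact Subgroup.card_dvd_of_le hC
  rw [h1, mul_comm p]
  exact mul_dvd_mul key h2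

end Pool.Agent.Helper95.TDS
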