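import Pool.Agent.Helper95.TDS.GroupB

/-!
A Frattini argument producing three-cycles, and exclusion of prime powers from the order of a
doubly transitive group of degree 14 without three-cycles.
-/

namespace Pool.Agent.Helper95.TDS

open Equiv Equiv.Perm MulAction

theorem frattini_point {G X : Type*} [Group G] [Finite G] [MulAction G X] {p : ℕ}
    [hp : Fact p.Prime] {q : G} (hq : orderOf q = p) (hpG : ¬ p ^ 2 ∣ Nat.card G) {β γ : X}
    (hβ : q • β = β) (hγ : q • γ = γ) {g : G} (hg : g • β = γ) :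
    ∃ h : G, h • β = γ ∧ ∃ k : ℕ, h * q * h⁻¹ = q ^ k := by
  set S := stabilizer G γ with hS
  have hq1 : q ∈ S := hγ
  have hq2 : g * q * g⁻¹ ∈ S := by
    rw [hS, mem_stabilizer_iff, mul_smul, mul_smul, ← hg, inv_smul_smul, hβ]
  have hcardS : ¬ p ^ 2 ∣ Nat.card S := fun h => hpG (h.trans (Subgroup.card_subgroup_dvd_card S))
  have hpS : p ∣ Nat.card S := by
    have : orderOf (⟨q, hq1⟩ : S) ∣ Nat.card S := orderOf_dvd_natCard _
    rwa [Subgroup.orderOf_mk, hq] at this
  have hfac : (Nat.card S).factorization p = 1 := by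
    have hne : Nat.card S ≠ 0 := Nat.card_pos.ne'
    have h1 := (hp.out.pow_dvd_iff_le_factorization (k := 1) hne).1 (by simpa using hpS)
    have h3 : ¬ (2 ≤ (Nat.card S).factorization p) := fun h =>
      hcardS ((hp.out.pow_dvd_iff_le_factorization hne).2 h)
    omega
  have hord2 : orderOf (g * q * g⁻¹) = p := by
    rw [← hq]
    exact orderOf_injective (MulAut.conj g).toMonoidHom (MulAut.conj g).injective q
  let P1 : Sylow p S := Sylow.ofCard (Subgroup.zpowers (⟨g * q * g⁻¹, hq2⟩ : S))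
    (by rw [Nat.card_zpowers, Subgroup.orderOf_mk, hord2, hfac, pow_one])
  let P2 : Sylow p S := Sylow.ofCard (Subgroup.zpowers (⟨q, hq1⟩ : S))
    (by rw [Nat.card_zpowers, Subgroup.orderOf_mk, hq, hfac, pow_one])
  obtain ⟨s, hs⟩ := exists_smul_eq S P1 P2
  have h1 : (⟨g * q * g⁻¹, hq2⟩ : S) ∈ P1 := Subgroup.mem_zpowers _
  have h2 : s * (⟨g * q * g⁻¹, hq2⟩ : S) * s⁻¹ ∈ (s • P1 : Sylow p S) := by
    rw [← SetLike.mem_coe, Sylow.coe_smul]
    exact ⟨_, h1, rfl⟩
  rw [hs] at h2
  have h3 : s * (⟨g * q * g⁻¹, hq2⟩ : S) * s⁻¹ ∈ Subgroup.zpowers (⟨q, hq1⟩ : S) := h2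
  rw [← mem_powers_iff_mem_zpowers] at h3
  obtain ⟨k, hk⟩ := h3
  refine ⟨(s : G) * g, ?_, k, ?_⟩
  · rw [mul_smul, hg]
    exact s.2
  · have := congrArg (Subtype.val) hk
    simp only [Subgroup.coe_mul, Subgroup.coe_inv, SubmonoidClass.mk_pow] at this
    rw [this]; group

theorem conj_pow_iter {G : Type*} [Group G] {g q : G} {k : ℕ} (h : g * q * g⁻¹ = q ^ k) (j : ℕ) :
    g ^ j * q * (g ^ j)⁻¹ = q ^ (k ^ j) := by
  induction j with
  | zero => simp
  | succ j ih =>
    have e1 : g ^ (j + 1) * q * (g ^ (j + 1))⁻¹ = g * (g ^ j * q * (g ^ j)⁻¹) * g⁻¹ := by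
      rw [pow_succ']; group
    have e2 : g * q ^ (k ^ j) * g⁻¹ = (g * q * g⁻¹) ^ (k ^ j) := by
      rw [conj_pow]
    rw [e1, ih, e2, h, ← pow_mul, pow_succ, mul_comm]

theorem three_cycle_of_frattini {K : Subgroup (Perm (Fin 14))} {p : ℕ} [hp : Fact p.Prime]
    {q : Perm (Fin 14)} (hqK : q ∈ K) (hq : orderOf q = p) (hpK : ¬ p ^ 2 ∣ Nat.card K)
    (hm : 2 * p * (p - 1) % 3 = 1) (hcyc : q.cycleFactorsFinset.card ≤ 2)
    (F : Finset (Fin 14)) (hF : F.card = 3) (hFq : ∀ x ∈ F, q x = x)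
    (hrest : ∀ x, q x = x → x ∉ F → ∀ g ∈ K, g x = x)
    (htr : ∀ β ∈ F, ∀ γ ∈ F, ∃ g ∈ K, g β = γ) : ∃ g ∈ K, g.IsThreeCycle := by
  -- normalising elements preserve F
  have hN : ∀ g ∈ K, (∃ k : ℕ, g * q * g⁻¹ = q ^ k) → ∀ x ∈ F, g x ∈ F := by
    rintro g hg ⟨k, hk⟩ x hx
    by_contra hcon
    -- q ^ k fixes g x
    have h1 : (q ^ k) (g x) = g x := by
      rw [← hk]; simp [hFq x hx]
    -- q is a power of q ^ k, since q^k is nontrivial
    have h2 : q (g x) = g x := by
      have hco : Nat.Coprime k p := by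
        rw [Nat.coprime_comm, hp.out.coprime_iff_not_dvd]
        intro hdvd
        have : q ^ k = 1 := by
          rw [← hq] at hdvd
          exact orderOf_dvd_iff_pow_eq_one.1 hdvd
        rw [this] at hk
        have hq1 : q = 1 := by
          have := congrArg (fun z => g⁻¹ * z * g) hk
          simpa [mul_assoc] using this
        rw [hq1, orderOf_one] at hq
        exact hp.out.one_lt.ne hq
      have h3 : ∃ m : ℕ, (q ^ k) ^ m = q := by
        have hmem : q ∈ Subgroup.zpowers (q ^ k) := by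
          have h4 : Subgroup.zpowers (q ^ k) = Subgroup.zpowers q := by
            apply Subgroup.eq_of_le_of_card_ge
            · rw [Subgroup.zpowers_le]
              exact Subgroup.pow_mem _ (Subgroup.mem_zpowers q) k
            · rw [Nat.card_zpowers, Nat.card_zpowers, Nat.Coprime.orderOf_pow]
              rw [hq]; exact hco.symm
          rw [h4]; exact Subgroup.mem_zpowers q
        rw [← mem_powers_iff_mem_zpowers] at hmem
        exact hmem
      obtain ⟨m, hm'⟩ := h3
      rw [← hm']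
      exact Equiv.Perm.pow_apply_eq_self_of_apply_eq_self h1 m
    have h5 := hrest (g x) h2 hcon g hg
    have h6 : g x = x := g.injective h5
    rw [h6] at hcon
    exact hcon hx
  -- transitivity of the normaliser on F
  have hNtr : ∀ β ∈ F, ∀ γ ∈ F, ∃ g ∈ K, g β = γ ∧ ∃ k : ℕ, g * q * g⁻¹ = q ^ k := by
    intro β hβ γ hγ
    obtain ⟨g, hg, hgβ⟩ := htr β hβ γ hγ
    obtain ⟨h, hh, k, hk⟩ := frattini_point (G := K) (X := Fin 14) (q := ⟨q, hqK⟩) (p := p)
      (by rw [Subgroup.orderOf_mk, hq]) hpK (β := β) (γ := γ) (hFq β hβ) (hFq γ hγ)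
      (g := ⟨g, hg⟩) hgβ
    exact ⟨h, h.2, hh, k, by simpa using congrArg Subtype.val hk⟩
  -- an element cycling F
  obtain ⟨a, b, c, hab, hac, hbc, hFe⟩ := Finset.card_eq_three.1 hF
  have haF : a ∈ F := by rw [hFe]; simp
  have hbF : b ∈ F := by rw [hFe]; simp
  have hcF : c ∈ F := by rw [hFe]; simp
  have hFmem : ∀ x, x ∈ F → x = a ∨ x = b ∨ x = c := by
    intro x hx; rw [hFe] at hx; simpa using hx
  have hcycF : ∃ g ∈ K, (∃ k : ℕ, g * q * g⁻¹ = q ^ k) ∧
      ((g a = b ∧ g b = c ∧ g c = a) ∨ (g a = c ∧ g c = b ∧ g b = a)) := by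
    obtain ⟨g1, hg1, hg1a, k1, hk1⟩ := hNtr a haF b hbF
    obtain ⟨g2, hg2, hg2a, k2, hk2⟩ := hNtr a haF c hcF
    have h1b := hFmem _ (hN g1 hg1 ⟨k1, hk1⟩ b hbF)
    have h1c := hFmem _ (hN g1 hg1 ⟨k1, hk1⟩ c hcF)
    have h2b := hFmem _ (hN g2 hg2 ⟨k2, hk2⟩ b hbF)
    have h2c := hFmem _ (hN g2 hg2 ⟨k2, hk2⟩ c hcF)
    have i1ab : g1 a ≠ g1 b := fun e => hab (g1.injective e)
    have i1ac : g1 a ≠ g1 c := fun e => hac (g1.injective e)
    have i1bc : g1 b ≠ g1 c := fun e => hbc (g1.injective e)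
    have i2ab : g2 a ≠ g2 b := fun e => hab (g2.injective e)
    have i2ac : g2 a ≠ g2 c := fun e => hac (g2.injective e)
    have i2bc : g2 b ≠ g2 c := fun e => hbc (g2.injective e)
    by_cases hA : g1 b = c
    · refine ⟨g1, hg1, ⟨k1, hk1⟩, Or.inl ⟨hg1a, hA, ?_⟩⟩
      rcases h1c with h | h | h
      · exact h
      · exact absurd (hg1a.trans h.symm) i1ac
      · exact absurd (hA.trans h.symm) i1bc
    by_cases hB : g2 c = b
    · refine ⟨g2, hg2, ⟨k2, hk2⟩, Or.inr ⟨hg2a, hB, ?_⟩⟩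
      rcases h2b with h | h | h
      · exact h
      · exact absurd (hB.trans h.symm) (Ne.symm i2bc)
      · exact absurd (hg2a.trans h.symm) i2ab
    have g1b : g1 b = a := by
      rcases h1b with h | h | h
      · exact h
      · exact absurd (hg1a.trans h.symm) i1ab
      · exact absurd h hA
    have g1c : g1 c = c := by
      rcases h1c with h | h | h
      · exact absurd (g1b.trans h.symm) i1bc
      · exact absurd (hg1a.trans h.symm) i1ac
      · exact h
    have g2c : g2 c = a := by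
      rcases h2c with h | h | h
      · exact h
      · exact absurd h hB
      · exact absurd (hg2a.trans h.symm) i2ac
    have g2b : g2 b = b := by
      rcases h2b with h | h | h
      · exact absurd (h.trans g2c.symm) i2bc
      · exact h
      · exact absurd (hg2a.trans h.symm) i2ab
    refine ⟨g1 * g2, K.mul_mem hg1 hg2, ⟨k2 * k1, ?_⟩, Or.inr ⟨?_, ?_, ?_⟩⟩
    · have e1 : g1 * g2 * q * (g1 * g2)⁻¹ = g1 * (g2 * q * g2⁻¹) * g1⁻¹ := by group
      rw [e1, hk2, conj_pow.symm, hk1, ← pow_mul, mul_comm]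
    · rw [Perm.mul_apply, hg2a, g1c]
    · rw [Perm.mul_apply, g2c, hg1a]
    · rw [Perm.mul_apply, g2b, g1b]
  obtain ⟨g, hgK, ⟨k, hk⟩, hgF⟩ := hcycF
  have hg3 : ∀ x ∈ F, (g ^ 3) x = x := by
    intro x hx
    have e : (g ^ 3) x = g (g (g x)) := rfl
    rw [e]
    rcases hgF with ⟨h1, h2, h3⟩ | ⟨h1, h2, h3⟩ <;>
    rcases hFmem x hx with h | h | h <;> subst h <;> simp [h1, h2, h3]
  -- tau
  set τ := g ^ (p - 1) with hτ
  have hco : Nat.Coprime k p := by
    rw [Nat.coprime_comm, hp.out.coprime_iff_not_dvd]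
    intro hdvd
    have : q ^ k = 1 := by
      rw [← hq] at hdvd
      exact orderOf_dvd_iff_pow_eq_one.1 hdvd
    rw [this] at hk
    have hq1 : q = 1 := by
      have := congrArg (fun z => g⁻¹ * z * g) hk
      simpa [mul_assoc] using this
    rw [hq1, orderOf_one] at hq
    exact hp.out.one_lt.ne hq
  have hkp : q ^ (k ^ (p - 1)) = q := by
    have h1 : k ^ (p - 1) ≡ 1 [MOD p] := by
      have := Nat.ModEq.pow_totient hco
      rwa [Nat.totient_prime hp.out] at this
    have h2 : q ^ (k ^ (p - 1)) = q ^ 1 := by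
      rw [pow_eq_pow_iff_modEq, hq]; exact h1
    rw [h2, pow_one]
  have hτq : τ * q * τ⁻¹ = q := by
    rw [hτ, conj_pow_iter hk, hkp]
  have hcom : Commute τ q := by
    have h := congrArg (· * τ) hτq
    have h2 : τ * q = q * τ := by simpa using h
    exact h2
  have hτc : ∀ x, τ (q x) = q (τ x) := by
    intro x
    have : τ * q = q * τ := by
      have := congrArg (· * τ) hτq
      simpa using this
    exact congrArg (fun f : Perm (Fin 14) => f x) this
  have hτcz : ∀ (i : ℤ) x, τ ((q ^ i) x) = (q ^ i) (τ x) := by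
    intro i x
    exact congrArg (fun f : Perm (Fin 14) => f x) (hcom.zpow_right i).eq
  -- tau ^ 2 acts on each cycle of q as a power
  have hτsupp : ∀ x, x ∈ q.support → τ x ∈ q.support := by
    intro x hx
    rw [mem_support] at hx ⊢
    intro e
    rw [← hτc] at e
    exact hx (τ.injective e)
  have hsame : ∀ x ∈ q.support, ∃ i : ℤ, τ (τ x) = (q ^ i) x := by
    intro x hx
    have h1 : τ x ∈ q.support := hτsupp x hx
    have h2 : τ (τ x) ∈ q.support := hτsupp _ h1
    -- pigeonhole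
    have hpig : q.cycleOf x = q.cycleOf (τ x) ∨ q.cycleOf (τ x) = q.cycleOf (τ (τ x)) ∨
        q.cycleOf x = q.cycleOf (τ (τ x)) := by
      by_contra hcon
      push Not at hcon
      obtain ⟨c1, c2, c3⟩ := hcon
      have hsub : ({q.cycleOf x, q.cycleOf (τ x), q.cycleOf (τ (τ x))} : Finset (Perm (Fin 14)))
          ⊆ q.cycleFactorsFinset := by
        intro y hy
        simp only [Finset.mem_insert, Finset.mem_singleton] at hy
        rcases hy with rfl | rfl | rfl
        · rwa [cycleOf_mem_cycleFactorsFinset_iff]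
        · rwa [cycleOf_mem_cycleFactorsFinset_iff]
        · rwa [cycleOf_mem_cycleFactorsFinset_iff]
      have := Finset.card_le_card hsub
      rw [Finset.card_eq_three.2 ⟨_, _, _, c1, c3, c2, rfl⟩] at this
      omega
    rcases hpig with h | h | h
    · rw [← sameCycle_iff_cycleOf_eq_of_mem_support hx h1] at h
      obtain ⟨i, hi⟩ := h
      refine ⟨i + i, ?_⟩
      rw [← hi, hτcz, ← hi, ← Perm.mul_apply, ← zpow_add]
    · rw [← sameCycle_iff_cycleOf_eq_of_mem_support h1 h2] at h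
      obtain ⟨i, hi⟩ := h
      have hi' : τ x = (q ^ i) x := by
        rw [← hτcz] at hi
        exact (τ.injective hi).symm
      refine ⟨i + i, ?_⟩
      rw [← hi, hi', ← Perm.mul_apply, ← zpow_add]
    · rw [← sameCycle_iff_cycleOf_eq_of_mem_support hx h2] at h
      obtain ⟨i, hi⟩ := h
      exact ⟨i, hi.symm⟩
  have htriv : ∀ x ∈ q.support, (τ ^ (2 * p)) x = x := by
    intro x hx
    obtain ⟨i, hi⟩ := hsame x hx
    have hind : ∀ n : ℕ, (τ ^ (2 * n)) x = (q ^ (i * n)) x := by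
      intro n
      induction n with
      | zero => simp
      | succ n ih =>
        have e : τ ^ (2 * (n + 1)) = τ ^ (2 * n) * (τ * τ) := by
          rw [mul_add, pow_add]; simp [pow_two]
        rw [e, Perm.mul_apply, Perm.mul_apply, hi]
        have hcomm : Commute (τ ^ (2 * n)) (q ^ i) := by
          exact (hcom.pow_left _).zpow_right _
        have e2 : (τ ^ (2 * n)) ((q ^ i) x) = (q ^ i) ((τ ^ (2 * n)) x) :=
          congrArg (fun f : Perm (Fin 14) => f x) hcomm.eq
        rw [e2, ih, ← Perm.mul_apply, ← zpow_add]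
        congr 2
        push_cast; ring
    rw [hind, mul_comm, zpow_mul]
    have : q ^ (p : ℤ) = 1 := by rw [zpow_natCast, ← hq, pow_orderOf_eq_one]
    rw [this, one_zpow]; rfl
  have hte : τ ^ (2 * p) = g ^ (2 * p * (p - 1)) := by
    rw [hτ, ← pow_mul, mul_comm]
  refine ⟨g ^ (2 * p * (p - 1)), K.pow_mem hgK _, ?_⟩
  rw [← card_support_eq_three_iff, ← hF]
  congr 1
  ext x
  rw [mem_support]
  constructor
  · intro hx
    by_contra hxF
    apply hx
    by_cases hxq : q x = x
    · exact hrest x hxq hxF _ (K.pow_mem hgK _)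
    · rw [← hte]
      exact htriv x (mem_support.2 hxq)
  · intro hx
    have e1 : 2 * p * (p - 1) = 3 * (2 * p * (p - 1) / 3) + 1 := by omega
    have e2 : (g ^ (2 * p * (p - 1))) x = g x := by
      rw [e1, pow_succ', Perm.mul_apply, pow_mul]
      rw [Equiv.Perm.pow_apply_eq_self_of_apply_eq_self (hg3 x hx)]
    rw [e2]
    rcases hgF with ⟨h1, h2, h3⟩ | ⟨h1, h2, h3⟩ <;>
    rcases hFmem x hx with h | h | h <;> subst h
    · rw [h1]; exact hab.symm
    · rw [h2]; exact hbc.symm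
    · rw [h3]; exact hac
    · rw [h1]; exact hac.symm
    · rw [h3]; exact hab
    · rw [h2]; exact hbc

end Pool.Agent.Helper95.TDS
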