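import Mathlib

/-!
Labels of points by a family of subsets: bases for the action of the alternating group of degree 14
on 5-subsets, and a lower bound for the size of a total dominating set.
-/

namespace Pool.Agent.Helper95.TDS

open Equiv Equiv.Perm MulAction

/-- If no nontrivial even permutation preserves all labels, then the labelling is injective away
from one point. -/
theorem injOn_of {L : Type*} (l : Fin 14 → L)
    (h : ∀ g ∈ alternatingGroup (Fin 14), (∀ p, l (g p) = l p) → g = 1) :
    ∃ b : Fin 14, Set.InjOn l {p | p ≠ b} := by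
  by_cases hinj : Function.Injective l
  · exact ⟨0, hinj.injOn⟩
  · rw [Function.Injective] at hinj
    push Not at hinj
    obtain ⟨a, b, hab, hne⟩ := hinj
    refine ⟨b, ?_⟩
    intro c hc d hd hcd
    by_contra hcd'
    have h1 := h (swap a b * swap c d) (by
      rw [mem_alternatingGroup, Perm.sign_mul, sign_swap hne, sign_swap hcd']; rfl) (by
      intro p
      have hsw : ∀ x y : Fin 14, l x = l y → ∀ q, l (swap x y q) = l q := by
        intro x y hxy q
        by_cases hx : q = x
        · rw [hx, swap_apply_left, hxy]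
        by_cases hy : q = y
        · rw [hy, swap_apply_right, hxy]
        · rw [swap_apply_of_ne_of_ne hx hy]
      rw [Perm.mul_apply, hsw a b hab, hsw c d hcd])
    have h2 : swap a b = swap c d := by
      have := congrArg (· * swap c d) h1
      simpa [mul_assoc] using this
    have h3 : swap c d b = a := by rw [← h2, swap_apply_right]
    have h4 : swap c d b = b := swap_apply_of_ne_of_ne (Ne.symm hc) (Ne.symm hd)
    exact hne (h3.symm.trans h4)

theorem sum_max : ∑ v : Finset (Fin 4), max (3 - (v.card : ℤ)) 0 = 17 := by decide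

/-- Four 5-subsets of 14 points are not a base for the alternating group. -/
theorem four_not_base (D : Fin 4 → Finset (Fin 14)) (hD : ∀ i, (D i).card = 5) :
    ∃ g ∈ alternatingGroup (Fin 14), g ≠ 1 ∧ ∀ i p, g p ∈ D i ↔ p ∈ D i := by
  classical
  by_contra hcon
  push Not at hcon
  let l : Fin 14 → Finset (Fin 4) := fun p => Finset.univ.filter (fun i => p ∈ D i)
  obtain ⟨b, hb⟩ := injOn_of l (by
    intro g hg hl
    by_contra hne
    obtain ⟨i, p, hip⟩ := hcon g hg hne
    have h1 := Finset.ext_iff.1 (hl p) i
    simp only [l, Finset.mem_filter, Finset.mem_univ, true_and] at h1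
    tauto)
  have hsum : ∑ p : Fin 14, ((l p).card : ℤ) = 20 := by
    have h1 : ∑ p : Fin 14, (l p).card = ∑ i : Fin 4, (D i).card := by
      have h2 := Finset.sum_card_bipartiteAbove_eq_sum_card_bipartiteBelow
        (s := (Finset.univ : Finset (Fin 14))) (t := (Finset.univ : Finset (Fin 4)))
        (fun p i => p ∈ D i)
      simp only [Finset.bipartiteAbove, Finset.bipartiteBelow] at h2
      rw [h2]
      apply Finset.sum_congr rfl
      intro i _
      congr 1
      ext p; simp
    have h3 : ∑ i : Fin 4, (D i).card = 20 := by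
      rw [Finset.sum_congr rfl (fun i _ => hD i)]; simp
    rw [h3] at h1
    exact_mod_cast h1
  have htot : ∑ p : Fin 14, (3 - ((l p).card : ℤ)) = 22 := by
    rw [Finset.sum_sub_distrib, hsum]; simp
  have hb2 : ∑ p ∈ Finset.univ.erase b, (3 - ((l p).card : ℤ)) ≤ 17 := by
    have h1 : ∑ p ∈ Finset.univ.erase b, (3 - ((l p).card : ℤ))
        = ∑ v ∈ (Finset.univ.erase b).image l, (3 - (v.card : ℤ)) := by
      rw [Finset.sum_image]
      intro x hx y hy hxy
      refine hb ?_ ?_ hxy
      · have := Finset.mem_coe.1 hx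
        exact Finset.ne_of_mem_erase this
      · have := Finset.mem_coe.1 hy
        exact Finset.ne_of_mem_erase this
    rw [h1]
    calc ∑ v ∈ (Finset.univ.erase b).image l, (3 - (v.card : ℤ))
        ≤ ∑ v ∈ (Finset.univ.erase b).image l, max (3 - (v.card : ℤ)) 0 :=
          Finset.sum_le_sum (fun v _ => le_max_left _ _)
      _ ≤ ∑ v : Finset (Fin 4), max (3 - (v.card : ℤ)) 0 :=
          Finset.sum_le_sum_of_subset_of_nonneg (Finset.subset_univ _)
            (fun v _ _ => le_max_right _ _)
      _ = 17 := sum_max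
  have hsplit := Finset.add_sum_erase Finset.univ (fun p => (3 - ((l p).card : ℤ)))
    (Finset.mem_univ b)
  rw [htot] at hsplit
  have : (0 : ℤ) ≤ ((l b).card : ℤ) := by positivity
  omega

/-- an even permutation of 14 points is not a 14-cycle -/
theorem exists_not_sameCycle {s : Perm (Fin 14)} (hs : s ∈ alternatingGroup (Fin 14)) :
    ∃ p, ¬ s.SameCycle 0 p := by
  by_contra hcon
  push Not at hcon
  have hmv : ∀ p, s p ≠ p := by
    intro p hp
    have h1 : ∀ q, q = p := by
      intro q
      have h2 : s.SameCycle p q := ((hcon p).symm).trans (hcon q)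
      obtain ⟨i, hi⟩ := h2
      rw [← hi]
      exact Equiv.Perm.zpow_apply_eq_self_of_apply_eq_self hp i
    have h3 := h1 0
    have h4 := h1 1
    rw [← h4] at h3
    exact absurd h3 (by decide)
  have hcyc : s.IsCycle := ⟨0, hmv 0, fun y _ => hcon y⟩
  have hsupp : s.support = Finset.univ := by
    ext p; simp [hmv p]
  rw [mem_alternatingGroup, hcyc.sign, hsupp, Finset.card_univ, Fintype.card_fin] at hs
  exact absurd hs (by decide)

/-- Three even permutations of 14 points do not dominate. -/
theorem three_not_dominate (S : Finset (Perm (Fin 14))) (hS : S.card ≤ 3)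
    (hA : ∀ s ∈ S, s ∈ alternatingGroup (Fin 14)) :
    ∃ g ∈ alternatingGroup (Fin 14), g ≠ 1 ∧ ∀ s ∈ S,
      ¬ alternatingGroup (Fin 14) ≤ Subgroup.closure {g, s} := by
  classical
  by_contra hcon
  push Not at hcon
  let l : Fin 14 → Finset (Perm (Fin 14)) := fun p => S.filter (fun s => s.SameCycle 0 p)
  obtain ⟨b, hb⟩ := injOn_of l (by
    intro g hg hl
    by_contra hne
    obtain ⟨s, hs, hle⟩ := hcon g hg hne
    have hinv : ∀ p, s.SameCycle 0 (g p) ↔ s.SameCycle 0 p := by
      intro p
      have h1 := Finset.ext_iff.1 (hl p) s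
      simp only [l, Finset.mem_filter, hs, true_and] at h1
      exact h1
    have hcl : ∀ x ∈ Subgroup.closure {g, s}, ∀ p, s.SameCycle 0 (x p) ↔ s.SameCycle 0 p := by
      intro x hx
      induction hx using Subgroup.closure_induction with
      | mem x hx =>
        rcases hx with rfl | hx
        · exact hinv
        · rw [Set.mem_singleton_iff.1 hx]
          intro p
          exact sameCycle_apply_right
      | one => intro p; rfl
      | mul x y _ _ ihx ihy => intro p; rw [Perm.mul_apply, ihx, ihy]
      | inv x _ ih =>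
        intro p
        have := ih (x⁻¹ p)
        have e : x (x⁻¹ p) = p := by simp
        rw [e] at this
        exact this.symm
    obtain ⟨p, hp⟩ := exists_not_sameCycle (hA s hs)
    have htr := alternatingGroup.isPretransitive_of_three_le_card (Fin 14)
      (by rw [Nat.card_eq_fintype_card, Fintype.card_fin]; norm_num)
    obtain ⟨a, ha⟩ := exists_smul_eq (alternatingGroup (Fin 14)) (0 : Fin 14) p
    have h1 := hcl a (hle a.2) 0
    have h2 : (a : Perm (Fin 14)) 0 = p := ha
    rw [h2] at h1
    exact hp (h1.2 (SameCycle.refl _ _)))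
  have h1 : (Finset.univ.erase b).card ≤ S.powerset.card := by
    apply Finset.card_le_card_of_injOn l
    · intro p _
      exact Finset.mem_coe.2 (Finset.mem_powerset.2 (Finset.filter_subset _ _))
    · intro x hx y hy hxy
      refine hb ?_ ?_ hxy
      · exact Finset.ne_of_mem_erase (Finset.mem_coe.1 hx)
      · exact Finset.ne_of_mem_erase (Finset.mem_coe.1 hy)
  rw [Finset.card_erase_of_mem (Finset.mem_univ _), Finset.card_univ, Fintype.card_fin,
    Finset.card_powerset] at h1
  have h2 : 2 ^ S.card ≤ 2 ^ 3 := Nat.pow_le_pow_right (by norm_num) hS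
  omega

/-- a base of five 5-subsets -/
def D5 : Fin 5 → Finset (Fin 14) :=
  ![{1, 7, 9, 10, 13}, {2, 6, 8, 9, 12}, {3, 6, 7, 11, 13}, {4, 8, 10, 11, 12}, {5, 10, 11, 12, 13}]

theorem D5_card : ∀ i, (D5 i).card = 5 := by decide

theorem D5_sep : ∀ p q : Fin 14, (∀ i, p ∈ D5 i ↔ q ∈ D5 i) → p = q := by decide

theorem D5_base {g : Perm (Fin 14)} (h : ∀ i p, g p ∈ D5 i ↔ p ∈ D5 i) : g = 1 := by
  ext p
  rw [D5_sep (g p) p (fun i => h i p)]
  rfl

end Pool.Agent.Helper95.TDS
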