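import Pool.Agent.Helper95.TDS.ZClass
import Pool.Agent.Helper95.TDS.CDef

/-!
Explicit list of the elements of a primitive group of order 1092 containing `s`.
-/

namespace Pool.Agent.Helper95.TDS

open Equiv Equiv.Perm MulAction

variable {H : Subgroup (Perm (Fin 14))}

theorem mem_list (hcard : Nat.card H = 1092) (hs : s ∈ H) {z w : Perm (Fin 14)} (hzH : z ∈ H)
    (hz : orderOf z = 13) (hz0 : z 0 = 0) (hr : (z * s ^ 6) 0 = 7) (hw : w ∈ H) (hw0 : w 0 = 0)
    (hw7 : w 7 = 7) (hwk : ∀ k < 6, ∀ k' < 6, (w ^ k) 1 = (w ^ k') 1 → k = k') :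
    ∀ x ∈ H, ∃ i < 7, ∃ e < 2, ∃ j < 13, ∃ k < 6,
      x = s ^ i * (z * s ^ 6) ^ e * (z ^ j * w ^ k) := by
  let f : Fin 7 × Fin 2 × Fin 13 × Fin 6 → H := fun t =>
    ⟨s ^ t.1.val * (z * s ^ 6) ^ t.2.1.val * (z ^ t.2.2.1.val * w ^ t.2.2.2.val),
      H.mul_mem (H.mul_mem (H.pow_mem hs _) (H.pow_mem (H.mul_mem hzH (H.pow_mem hs _)) _))
        (H.mul_mem (H.pow_mem hzH _) (H.pow_mem hw _))⟩
  have hfix0 : ∀ j k : ℕ, (z ^ j * w ^ k) 0 = 0 := by
    intro j k
    rw [Perm.mul_apply, Equiv.Perm.pow_apply_eq_self_of_apply_eq_self hw0 k,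
      Equiv.Perm.pow_apply_eq_self_of_apply_eq_self hz0 j]
  have hsr : ∀ i e : ℕ, i < 7 → e < 2 → ((s ^ i * (z * s ^ 6) ^ e) 0).val = i + 7 * e := by
    intro i e hi he
    rw [Perm.mul_apply, s_pow_apply, sh_eq]
    interval_cases e
    · have : ((0 : Fin 14)).val = 0 := rfl
      rw [pow_zero, Perm.coe_one, id]; omega
    · have : ((7 : Fin 14)).val = 7 := rfl
      rw [pow_one, hr]; omega
  have hinj : Function.Injective f := by
    rintro ⟨i, e, j, k⟩ ⟨i', e', j', k'⟩ h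
    have h1 : s ^ i.val * (z * s ^ 6) ^ e.val * (z ^ j.val * w ^ k.val)
        = s ^ i'.val * (z * s ^ 6) ^ e'.val * (z ^ j'.val * w ^ k'.val) :=
      congrArg Subtype.val h
    have h2 := congrArg (fun g : Perm (Fin 14) => (g 0).val) h1
    simp only [Perm.mul_apply _ (z ^ _ * w ^ _)] at h2
    rw [hfix0, hfix0, hsr _ _ i.2 e.2, hsr _ _ i'.2 e'.2] at h2
    have hi := i.2
    have hi' := i'.2
    have he := e.2
    have he' := e'.2
    have hii : i.val = i'.val := by omega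
    have hee : e.val = e'.val := by omega
    rw [hii, hee] at h1
    have h3 := mul_left_cancel h1
    have h4 := congrArg (fun g : Perm (Fin 14) => g 7) h3
    simp only [Perm.mul_apply] at h4
    rw [Equiv.Perm.pow_apply_eq_self_of_apply_eq_self hw7 k.val,
      Equiv.Perm.pow_apply_eq_self_of_apply_eq_self hw7 k'.val] at h4
    have hjj := P_inj hz hz0 j.2 j'.2 h4
    rw [hjj] at h3
    have h5 := mul_left_cancel h3
    have hkk := hwk k.val k.2 k'.val k'.2 (by rw [h5])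
    rw [Prod.mk.injEq, Prod.mk.injEq, Prod.mk.injEq]
    exact ⟨Fin.ext hii, Fin.ext hee, Fin.ext hjj, Fin.ext hkk⟩
  have hsurj : Function.Surjective f := by
    have hfin : Fintype H := Fintype.ofFinite H
    refine (Fintype.bijective_iff_injective_and_card f).2 ⟨hinj, ?_⟩ |>.2
    rw [← Nat.card_eq_fintype_card (α := H), hcard]
    simp
  intro x hx
  obtain ⟨⟨i, e, j, k⟩, h⟩ := hsurj ⟨x, hx⟩
  exact ⟨i.val, i.2, e.val, e.2, j.val, j.2, k.val, k.2, (congrArg Subtype.val h).symm⟩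

theorem cod_wcode {zz : ℕ} {z : Perm (Fin 14)} (hz : Cod zz z) (i j k l : ℕ) :
    Cod (wcode zz i j k l) (s ^ i * z ^ j * (s ^ k * z ^ l)) :=
  ((cod_s.pow i).mul (hz.pow j)).mul ((cod_s.pow k).mul (hz.pow l))

/-- check of the word -/
def chkW (zz wz : ℕ) : Bool :=
  Nat.beq (dg wz 0) 0 && Nat.beq (dg wz 7) 7 && Nat.beq (dg (comp zz (pw 35408300952863521 6)) 0) 7
  && allN (fun k => allN (fun k' => Nat.beq k k' || !(Nat.beq (itd wz k 1) (itd wz k' 1))) 6) 6

theorem mem_list' (hcard : Nat.card H = 1092) (hs : s ∈ H) {z : Perm (Fin 14)} (hzH : z ∈ H)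
    (hz : orderOf z = 13) (hz0 : z 0 = 0) {zz a b c d : ℕ} (hcz : Cod zz z)
    (hchk : chkW zz (wcode zz a b c d) = true) :
    ∀ x ∈ H, ∃ i < 7, ∃ e < 2, ∃ j < 13, ∃ k < 6,
      x = s ^ i * (z * s ^ 6) ^ e * (z ^ j * (s ^ a * z ^ b * (s ^ c * z ^ d)) ^ k) := by
  simp only [chkW, Bool.and_eq_true] at hchk
  obtain ⟨⟨⟨h1, h2⟩, h3⟩, h4⟩ := hchk
  have h1 := Nat.eq_of_beq_eq_true h1
  have h2 := Nat.eq_of_beq_eq_true h2
  have h3 := Nat.eq_of_beq_eq_true h3
  have hw := cod_wcode hcz a b c d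
  have hwH : s ^ a * z ^ b * (s ^ c * z ^ d) ∈ H :=
    H.mul_mem (H.mul_mem (H.pow_mem hs _) (H.pow_mem hzH _))
      (H.mul_mem (H.pow_mem hs _) (H.pow_mem hzH _))
  apply mem_list hcard hs hzH hz hz0 _ hwH
  · apply Fin.ext
    rw [← hw 0]; exact h1
  · apply Fin.ext
    rw [← hw 7]; exact h2
  · intro k hk k' hk' h
    have h5 := allN_spec (allN_spec h4 k hk) k' hk'
    rw [Bool.or_eq_true] at h5
    rcases h5 with h5 | h5
    · exact Nat.eq_of_beq_eq_true h5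
    · exfalso
      have e1 := itd_eq hw k 1
      have e2 := itd_eq hw k' 1
      rw [h, ← e2] at e1
      have e3 : itd (wcode zz a b c d) k 1 = itd (wcode zz a b c d) k' 1 := e1
      rw [e3, Nat.beq_refl] at h5
      exact absurd h5 (by decide)
  · apply Fin.ext
    rw [← (hcz.mul (cod_s.pow 6)) 0]; exact h3

theorem chkWA : chkW zA (wcode zA 1 1 4 5) = true := by decide +kernel
theorem chkWB : chkW zB (wcode zB 2 1 3 3) = true := by decide +kernel
theorem chkWC : chkW zC (wcode zC 1 5 5 2) = true := by decide +kernel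

/-- the three 13-cycles -/
def ZA : Perm (Fin 14) := mkP zA 56626547031085936 (by decide)
def ZB : Perm (Fin 14) := mkP zB 42884533023066736 (by decide)
def ZC : Perm (Fin 14) := mkP zC 5574160628143216 (by decide)

theorem cod_ZA : Cod zA ZA := cod_mkP _ _ _
theorem cod_ZB : Cod zB ZB := cod_mkP _ _ _
theorem cod_ZC : Cod zC ZC := cod_mkP _ _ _

/-- the elements of the group generated by `s` and `z` -/
def InList (z : Perm (Fin 14)) (a b c d : ℕ) (x : Perm (Fin 14)) : Prop :=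
  ∃ i < 7, ∃ e < 2, ∃ j < 13, ∃ k < 6,
    x = s ^ i * (z * s ^ 6) ^ e * (z ^ j * (s ^ a * z ^ b * (s ^ c * z ^ d)) ^ k)

/-- membership in one of the three groups -/
def InG (x : Perm (Fin 14)) : Prop :=
  InList ZA 1 1 4 5 x ∨ InList ZB 2 1 3 3 x ∨ InList ZC 1 5 5 2 x

theorem list_all (hA : H ≤ alternatingGroup (Fin 14)) (hprim : IsPreprimitive H (Fin 14))
    (no3 : ∀ g ∈ H, ¬ g.IsThreeCycle) (hs : s ∈ H) (hμ : mu6 ∈ H ∨ mu2 ∈ H) :
    ∀ x ∈ H, InG x := by
  obtain ⟨hcard, h14, h78⟩ := order_H hA hprim no3 hs hμ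
  obtain ⟨z, hzH, hz, hz0, hz7, hinv⟩ := exists_z' hA hprim no3 hs hμ
  have hT : ∀ i : ℕ, (s ^ i * z) ^ 6 = 1 ∨ (s ^ i * z) ^ 7 = 1 ∨ (s ^ i * z) ^ 13 = 1 :=
    fun i => T_of hA hprim hs hcard (H.mul_mem (H.pow_mem hs i) hzH)
  intro x hx
  rcases z_class hz hz0 hz7 hinv hT with h | h | h
  · have := h.eq cod_ZA
    subst this
    exact Or.inl (mem_list' hcard hs hzH hz hz0 h chkWA x hx)
  · have := h.eq cod_ZB
    subst this
    exact Or.inr (Or.inl (mem_list' hcard hs hzH hz hz0 h chkWB x hx))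
  · have := h.eq cod_ZC
    subst this
    exact Or.inr (Or.inr (mem_list' hcard hs hzH hz hz0 h chkWC x hx))

theorem card_of (hA : H ≤ alternatingGroup (Fin 14)) (hprim : IsPreprimitive H (Fin 14))
    (no3 : ∀ g ∈ H, ¬ g.IsThreeCycle) (hs : s ∈ H) (hμ : mu6 ∈ H ∨ mu2 ∈ H) :
    Nat.card H = 1092 := (order_H hA hprim no3 hs hμ).1

/-- Classification of the proper primitive subgroups of the alternating group of degree 14
containing `s`. -/
theorem classify {H : Subgroup (Perm (Fin 14))} (hA : H ≤ alternatingGroup (Fin 14))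
    (hprim : IsPreprimitive H (Fin 14)) (hne : ¬ alternatingGroup (Fin 14) ≤ H) (hs : s ∈ H) :
    (∀ g ∈ H, g ^ 6 = 1 ∨ g ^ 7 = 1 ∨ g ^ 13 = 1) ∧
    ∃ d < 7, ∀ x ∈ H, InG (sB ^ d * x * (sB ^ d)⁻¹) := by
  have no3 : ∀ g ∈ H, ¬ g.IsThreeCycle := fun g hg h3 =>
    hne (alternatingGroup_le_of_isPreprimitive_of_isThreeCycle_mem hprim h3 hg)
  obtain ⟨a, b, hμ⟩ := exists_cj hA hprim no3 hs
  set c := sA ^ a * sB ^ b with hc
  have hA' := cj_le c hA
  have hprim' := cj_prim c hprim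
  have no3' := cj_no3 c no3
  have hs' : s ∈ cj c H := cj_s (comm_tr a b) hs
  have hcard := card_of hA' hprim' no3' hs' hμ
  refine ⟨?_, (b + 6 * a) % 7, Nat.mod_lt _ (by norm_num), ?_⟩
  · intro g hg
    have h1 := T_of hA' hprim' hs' hcard (mem_cj.2 hg)
    rw [conj_pow, conj_pow, conj_pow] at h1
    have h2 : ∀ y : Perm (Fin 14), c * y * c⁻¹ = 1 → y = 1 := by
      intro y hy
      have h3 : y = c⁻¹ * (c * y * c⁻¹) * c := by group
      rw [h3, hy]; group
    rcases h1 with h | h | h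
    · exact Or.inl (h2 _ h)
    · exact Or.inr (Or.inl (h2 _ h))
    · exact Or.inr (Or.inr (h2 _ h))
  · intro x hx
    apply list_all hA' hprim' no3' hs' hμ
    have hd : sB ^ ((b + 6 * a) % 7) = sB ^ (b + 6 * a) := by
      conv_rhs => rw [← Nat.div_add_mod (b + 6 * a) 7, pow_add, pow_mul, sB_pow, one_pow, one_mul]
    have hcomm : Commute sA sB := sA_sB
    have hc2 : c = s ^ a * sB ^ (b + 6 * a) := by
      rw [hc, s_eq, hcomm.mul_pow, mul_assoc, ← pow_add]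
      congr 1
      have : a + (b + 6 * a) = b + 7 * a := by ring
      rw [this, pow_add, pow_mul, sB_pow, one_pow, mul_one]
    rw [hd]
    have h3 : sB ^ (b + 6 * a) * x * (sB ^ (b + 6 * a))⁻¹
        = (s ^ a)⁻¹ * (c * x * c⁻¹) * s ^ a := by
      rw [hc2]; group
    rw [h3]
    exact (cj c H).mul_mem ((cj c H).mul_mem ((cj c H).inv_mem ((cj c H).pow_mem hs' a))
      (mem_cj.2 hx)) ((cj c H).pow_mem hs' a)

end Pool.Agent.Helper95.TDS
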