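import Pool.Agent.Helper95.TDS.Rel

/-! Kernel computation for the multiplier 6. -/

namespace Pool.Agent.Helper95.TDS
set_option maxRecDepth 100000
theorem loop6 : loop 19083792 16 = true := by decide +kernel
end Pool.Agent.Helper95.TDS
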