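import Pool.Agent.Helper95.TDS.Base

/-!
Even permutations normalising the subgroup generated by `s`.
-/

namespace Pool.Agent.Helper95.TDS

open Equiv Equiv.Perm MulAction

/-- code of the permutation `g` with `g s = s ^ k g`, `g 0 = u`, `g 7 = v` -/
def nf (k u v : ℕ) : ℕ :=
  build (fun i => cond (Nat.blt i 7) (sh (Nat.mul k i) u) (sh (Nat.mul k (Nat.sub i 7)) v)) 14

theorem sh_lt {j p : ℕ} (hp : p < 14) : sh j p < 14 := by
  rw [sh_eq]; omega

theorem conj_pow_apply {g : Perm (Fin 14)} {k : ℕ} (h : g * s = s ^ k * g) (i : ℕ) :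
    g * s ^ i = s ^ (k * i) * g := by
  induction i with
  | zero => simp
  | succ i ih =>
    rw [pow_succ, ← mul_assoc, ih, mul_assoc, h, ← mul_assoc, ← pow_add, mul_add, mul_one]

theorem cod_nf {g : Perm (Fin 14)} {k : ℕ} (h : g * s = s ^ k * g) :
    Cod (nf k (g 0).val (g 7).val) g := by
  intro i
  rw [nf, dg_build _ i.2]
  · by_cases hi : i.val < 7
    · have hb : Nat.blt i.val 7 = true := by rw [Nat.blt_eq]; exact hi
      rw [hb, cond_true]
      have e : (s ^ i.val) 0 = i := by
        apply Fin.ext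
        rw [s_pow_apply, sh_eq]
        have : ((0 : Fin 14)).val = 0 := rfl
        omega
      have h2 := congrArg (fun f : Perm (Fin 14) => f 0) (conj_pow_apply h i.val)
      simp only [Perm.mul_apply] at h2
      rw [e] at h2
      rw [h2, s_pow_apply]
      rfl
    · have hb : Nat.blt i.val 7 = false := by
        rw [← Bool.not_eq_true, Nat.blt_eq]; exact hi
      rw [hb, cond_false]
      have e : (s ^ (i.val - 7)) 7 = i := by
        apply Fin.ext
        rw [s_pow_apply, sh_eq]
        have : ((7 : Fin 14)).val = 7 := rfl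
        have := i.2
        omega
      have h2 := congrArg (fun f : Perm (Fin 14) => f 7) (conj_pow_apply h (i.val - 7))
      simp only [Perm.mul_apply] at h2
      rw [e] at h2
      rw [h2, s_pow_apply]
      rfl
  · intro j
    cases Nat.blt j 7
    · rw [cond_false]; have := sh_lt (j := k.mul (j.sub 7)) (g 7).2; omega
    · rw [cond_true]; have := sh_lt (j := k.mul j) (g 0).2; omega

/-- two digits coincide -/
def notInj (c : ℕ) : Bool := anyN (fun i => anyN (fun j => Nat.beq (dg c i) (dg c j)) i) 14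

theorem notInj_spec {c : ℕ} {x : Perm (Fin 14)} (hx : Cod c x) : notInj c = false := by
  by_contra h
  rw [Bool.not_eq_false] at h
  obtain ⟨i, hi, h⟩ := anyN_spec h
  obtain ⟨j, hj, h⟩ := anyN_spec h
  have h1 := Nat.eq_of_beq_eq_true h
  have h2 := hx ⟨i, hi⟩
  have h3 := hx ⟨j, by omega⟩
  simp only at h2 h3
  rw [h1, h3] at h2
  have h4 := x.injective (Fin.ext h2)
  have := congrArg Fin.val h4
  simp only at this
  omega

theorem par_false {c : ℕ} {x : Perm (Fin 14)} (hx : Cod c x)
    (hA : x ∈ alternatingGroup (Fin 14)) : par c = false := by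
  rw [mem_alternatingGroup, sign_eq hx] at hA
  by_contra h
  rw [Bool.not_eq_false] at h
  rw [if_pos h] at hA
  exact absurd hA (by decide)

/-- check for the centraliser -/
def chkC : Bool := allN (fun u => allN (fun v =>
  par (nf 1 u v) || notInj (nf 1 u v) || Nat.beq (pw (nf 1 u v) 7) idc) 14) 14

theorem chkC_true : chkC = true := by decide +kernel

theorem centralizer_pow {g : Perm (Fin 14)} (hA : g ∈ alternatingGroup (Fin 14))
    (h : g * s = s * g) : g ^ 7 = 1 := by
  have hc := cod_nf (k := 1) (g := g) (by rw [pow_one]; exact h)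
  have h1 := allN_spec (allN_spec chkC_true (g 0).val (g 0).2) (g 7).val (g 7).2
  rw [notInj_spec hc, par_false hc hA, Bool.false_or, Bool.false_or] at h1
  have h2 := Nat.eq_of_beq_eq_true h1
  have h3 := hc.pow 7
  rw [h2] at h3
  exact h3.eq cod_one

/-- code of `sA ^ a * sB ^ b` -/
def trc (a b : ℕ) : ℕ := comp (pw 62129658759824161 a) (pw 35408301052408336 b)

theorem cod_trc (a b : ℕ) : Cod (trc a b) (sA ^ a * sB ^ b) := (cod_sA.pow a).mul (cod_sB.pow b)

/-- check for normalisers -/
def chkM (k m : ℕ) : Bool := allN (fun u => allN (fun v =>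
  par (nf k u v) || notInj (nf k u v) || anyN (fun a => anyN (fun b =>
    Nat.beq (comp (trc a b) (nf k u v)) (comp m (trc a b))) 7) 7) 14) 14

theorem chkM6 : chkM 6 38750970664142176 = true := by decide +kernel
theorem chkM2 : chkM 2 57013772970189856 = true := by decide +kernel

theorem norm_form {g : Perm (Fin 14)} (hA : g ∈ alternatingGroup (Fin 14)) {k m : ℕ}
    {μ : Perm (Fin 14)} (hm : Cod m μ) (hchk : chkM k m = true)
    (h : g * s = s ^ k * g) : ∃ a b : ℕ, (sA ^ a * sB ^ b) * g * (sA ^ a * sB ^ b)⁻¹ = μ := by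
  have hc := cod_nf h
  have h1 := allN_spec (allN_spec hchk (g 0).val (g 0).2) (g 7).val (g 7).2
  rw [notInj_spec hc, par_false hc hA, Bool.false_or, Bool.false_or] at h1
  obtain ⟨a, _, h2⟩ := anyN_spec h1
  obtain ⟨b, _, h3⟩ := anyN_spec h2
  have h4 := Nat.eq_of_beq_eq_true h3
  refine ⟨a, b, ?_⟩
  have h5 := (cod_trc a b).mul hc
  rw [h4] at h5
  have h6 := h5.eq (hm.mul (cod_trc a b))
  rw [h6]; group

end Pool.Agent.Helper95.TDS
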