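import Pool.Agent.Helper95.TDS.Loop2
import Pool.Agent.Helper95.TDS.Loop6

/-!
Double transitivity of primitive groups of degree 14 containing `s` and `mu6` or `mu2`.
-/

namespace Pool.Agent.Helper95.TDS

open Equiv Equiv.Perm MulAction

variable {H : Subgroup (Perm (Fin 14))}

/-- An invariant relation inside a nontrivial equivalence relation contradicts primitivity. -/
theorem no_invariant (hprim : IsPreprimitive H (Fin 14)) (S E : Fin 14 → Fin 14 → Prop)
    (hS : ∀ h ∈ H, ∀ p q, S p q → S (h p) (h q)) (hE : Equivalence E)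
    (hSE : ∀ p q, S p q → E p q) {u v w : Fin 14} (huv : u ≠ v) (hSuv : S u v)
    (hw : ¬ E u w) : False := by
  have hgen : ∀ h ∈ H, ∀ p q, Relation.EqvGen S p q → Relation.EqvGen S (h p) (h q) := by
    intro h hh p q hpq
    induction hpq with
    | rel x y hxy => exact Relation.EqvGen.rel _ _ (hS h hh x y hxy)
    | refl x => exact Relation.EqvGen.refl _
    | symm x y _ ih => exact Relation.EqvGen.symm _ _ ih
    | trans x y z _ _ ih1 ih2 => exact Relation.EqvGen.trans _ _ _ ih1 ih2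
  have hgE : ∀ p q, Relation.EqvGen S p q → E p q := by
    intro p q hpq
    induction hpq with
    | rel x y hxy => exact hSE x y hxy
    | refl x => exact hE.refl x
    | symm x y _ ih => exact hE.symm ih
    | trans x y z _ _ ih1 ih2 => exact hE.trans ih1 ih2
  have hblock : IsBlock H {x | Relation.EqvGen S u x} := by
    rw [isBlock_iff_smul_eq_of_mem]
    intro g a ha hga
    have ha' : Relation.EqvGen S u a := ha
    have hga' : Relation.EqvGen S u ((g : Perm (Fin 14)) a) := hga
    ext x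
    rw [Set.mem_smul_set]
    constructor
    · rintro ⟨y, hy, rfl⟩
      have hy' : Relation.EqvGen S u y := hy
      have h1 : Relation.EqvGen S a y := Relation.EqvGen.trans _ _ _
        (Relation.EqvGen.symm _ _ ha') hy'
      exact Relation.EqvGen.trans _ _ _ hga' (hgen g g.2 _ _ h1)
    · intro hx
      have hx' : Relation.EqvGen S u x := hx
      refine ⟨(g : Perm (Fin 14))⁻¹ x, ?_, ?_⟩
      · have h1 : Relation.EqvGen S ((g : Perm (Fin 14)) a) x :=
          Relation.EqvGen.trans _ _ _ (Relation.EqvGen.symm _ _ hga') hx'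
        have h2 := hgen _ (H.inv_mem g.2) _ _ h1
        rw [pia] at h2
        exact Relation.EqvGen.trans _ _ _ ha' h2
      · change (g : Perm (Fin 14)) ((g : Perm (Fin 14))⁻¹ x) = x
        exact pai _ _
  rcases hprim.isTrivialBlock_of_isBlock hblock with h | h
  · exact huv (h (Relation.EqvGen.refl u) (Relation.EqvGen.rel _ _ hSuv))
  · have : w ∈ {x | Relation.EqvGen S u x} := by rw [h]; trivial
    exact hw (hgE u w this)

theorem exists_shift (p : Fin 14) : ∃ i : ℕ, ((s ^ i) p).val = 7 * (p.val / 7) := by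
  refine ⟨14 - p.val, ?_⟩
  rw [s_pow_apply, sh_eq]
  have := p.2
  omega

theorem impA_false (hprim : IsPreprimitive H (Fin 14)) (hs : s ∈ H) {c : ℕ → ℕ → ℕ}
    (hc : Inv H c) {u v : Fin 14} (huv : u ≠ v) (h : impA c (c u.val v.val) = true) : False := by
  obtain ⟨w, hw⟩ : ∃ w : Fin 14, ¬ (u.val < 7 ↔ w.val < 7) := by
    by_cases h : u.val < 7
    · exact ⟨7, by simp [h]⟩
    · exact ⟨0, by simp [h]⟩
  refine no_invariant hprim (fun p q => p ≠ q ∧ c p.val q.val = c u.val v.val)
    (fun p q => (p.val < 7 ↔ q.val < 7)) ?_ ?_ ?_ huv ⟨huv, rfl⟩ hw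
  · rintro g hg p q ⟨h1, h2⟩
    exact ⟨fun e => h1 (g.injective e), by rw [hc g hg, h2]⟩
  · exact ⟨fun _ => Iff.rfl, fun h => h.symm, fun h1 h2 => h1.trans h2⟩
  · rintro p q ⟨h1, h2⟩
    obtain ⟨i, hi⟩ := exists_shift p
    have h3 : c ((s ^ i) p).val ((s ^ i) q).val = c u.val v.val := by
      rw [hc _ (H.pow_mem hs i), h2]
    have hne : ((s ^ i) p).val ≠ ((s ^ i) q).val :=
      fun e => h1 ((s ^ i).injective (Fin.ext e))
    have hsq : (((s ^ i) q).val < 7 ↔ q.val < 7) := by
      rw [s_pow_apply, sh_eq]; have := q.2; omega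
    have h4 := allN_spec h ((s ^ i) q).val ((s ^ i) q).2
    simp only [Bool.and_eq_true, Bool.or_eq_true, Bool.not_eq_true'] at h4
    obtain ⟨h5, h6⟩ := h4
    have hp := p.2
    by_cases hp7 : p.val < 7
    · have e0 : ((s ^ i) p).val = 0 := by rw [hi]; omega
      rw [e0] at h3 hne
      rcases h5 with (h5 | h5) | h5
      · exact absurd (Nat.eq_of_beq_eq_true h5).symm hne
      · rw [h3] at h5
        have : Nat.beq (c u.val v.val) (c u.val v.val) = true := Nat.beq_refl _
        rw [this] at h5; exact absurd h5 (by decide)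
      · rw [Nat.blt_eq] at h5
        exact ⟨fun _ => hsq.1 h5, fun _ => hp7⟩
    · have e0 : ((s ^ i) p).val = 7 := by rw [hi]; omega
      rw [e0] at h3 hne
      rcases h6 with (h6 | h6) | h6
      · exact absurd (Nat.eq_of_beq_eq_true h6).symm hne
      · rw [h3] at h6
        have : Nat.beq (c u.val v.val) (c u.val v.val) = true := Nat.beq_refl _
        rw [this] at h6; exact absurd h6 (by decide)
      · have h7 := Nat.le_of_ble_eq_true h6
        exact ⟨fun h => absurd h hp7, fun h => absurd (hsq.2 h) (by omega)⟩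

theorem impB_false (hprim : IsPreprimitive H (Fin 14)) (hs : s ∈ H) {c : ℕ → ℕ → ℕ}
    (hc : Inv H c) {u v : Fin 14} (huv : u ≠ v) (h : impB c (c u.val v.val) = true) : False := by
  obtain ⟨w, hw⟩ : ∃ w : Fin 14, ¬ (u.val % 7 = w.val % 7) := by
    by_cases h : u.val % 7 = 0
    · exact ⟨1, by simp [h]⟩
    · exact ⟨0, by simpa using h⟩
  refine no_invariant hprim (fun p q => p ≠ q ∧ c p.val q.val = c u.val v.val)
    (fun p q => (p.val % 7 = q.val % 7)) ?_ ?_ ?_ huv ⟨huv, rfl⟩ hw
  · rintro g hg p q ⟨h1, h2⟩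
    exact ⟨fun e => h1 (g.injective e), by rw [hc g hg, h2]⟩
  · exact ⟨fun _ => rfl, fun h => h.symm, fun h1 h2 => h1.trans h2⟩
  · rintro p q ⟨h1, h2⟩
    obtain ⟨i, hi⟩ := exists_shift p
    have h3 : c ((s ^ i) p).val ((s ^ i) q).val = c u.val v.val := by
      rw [hc _ (H.pow_mem hs i), h2]
    have hne : ((s ^ i) p).val ≠ ((s ^ i) q).val :=
      fun e => h1 ((s ^ i).injective (Fin.ext e))
    have hsq := s_pow_apply i q
    have hsp := s_pow_apply i p
    rw [sh_eq] at hsq hsp
    have hp := p.2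
    have hq := q.2
    have h4 := allN_spec h ((s ^ i) q).val ((s ^ i) q).2
    simp only [Bool.and_eq_true, Bool.or_eq_true, Bool.not_eq_true'] at h4
    obtain ⟨h5, h6⟩ := h4
    by_cases hp7 : p.val < 7
    · have e0 : ((s ^ i) p).val = 0 := by rw [hi]; omega
      rw [e0] at h3 hne hsp
      rcases h5 with (h5 | h5) | h5
      · exact absurd (Nat.eq_of_beq_eq_true h5).symm hne
      · rw [h3] at h5
        have : Nat.beq (c u.val v.val) (c u.val v.val) = true := Nat.beq_refl _
        rw [this] at h5; exact absurd h5 (by decide)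
      · have h7 := Nat.eq_of_beq_eq_true h5
        omega
    · have e0 : ((s ^ i) p).val = 7 := by rw [hi]; omega
      rw [e0] at h3 hne hsp
      rcases h6 with (h6 | h6) | h6
      · exact absurd (Nat.eq_of_beq_eq_true h6).symm hne
      · rw [h3] at h6
        have : Nat.beq (c u.val v.val) (c u.val v.val) = true := Nat.beq_refl _
        rw [this] at h6; exact absurd h6 (by decide)
      · have h7 := Nat.eq_of_beq_eq_true h6
        omega

theorem imp_false (hprim : IsPreprimitive H (Fin 14)) (hs : s ∈ H) {c : ℕ → ℕ → ℕ}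
    (hc : Inv H c) (h : imp c = true) : False := by
  obtain ⟨v, hv, h1⟩ := anyN_spec h
  simp only [Bool.or_eq_true, Bool.and_eq_true, force_eq, Bool.not_eq_true'] at h1
  have hbeq : ∀ a b : ℕ, Nat.beq a b = false → a ≠ b := by
    intro a b hab e
    rw [e, Nat.beq_refl] at hab
    exact absurd hab (by decide)
  rcases h1 with ⟨h1, h2 | h2⟩ | ⟨h1, h2 | h2⟩
  · exact impA_false hprim hs hc (u := 0) (v := ⟨v, hv⟩)
      (fun e => hbeq _ _ h1 (congrArg Fin.val e).symm) h2
  · exact impB_false hprim hs hc (u := 0) (v := ⟨v, hv⟩)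
      (fun e => hbeq _ _ h1 (congrArg Fin.val e).symm) h2
  · exact impA_false hprim hs hc (u := 7) (v := ⟨v, hv⟩)
      (fun e => hbeq _ _ h1 (congrArg Fin.val e).symm) h2
  · exact impB_false hprim hs hc (u := 7) (v := ⟨v, hv⟩)
      (fun e => hbeq _ _ h1 (congrArg Fin.val e).symm) h2

theorem split_false {A : ℕ} {c : ℕ → ℕ → ℕ} (hc : Inv H c)
    (htr : ∀ p q p' q' : Fin 14, ad A p.val q.val = 1 → ad A p'.val q'.val = 1 →
      ∃ g ∈ H, g p = p' ∧ g q = q')
    (h : split A c = true) : False := by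
  obtain ⟨v0, hv0, h1⟩ := anyN_spec h
  rw [Bool.and_eq_true, force_eq] at h1
  obtain ⟨h1, h2⟩ := h1
  have h1 := Nat.eq_of_beq_eq_true h1
  obtain ⟨v, hv, h3⟩ := anyN_spec h2
  simp only [Bool.or_eq_true, Bool.and_eq_true, Bool.not_eq_true'] at h3
  have hbeq : ∀ a b : ℕ, Nat.beq a b = false → a ≠ b := by
    intro a b hab e
    rw [e, Nat.beq_refl] at hab
    exact absurd hab (by decide)
  rcases h3 with ⟨h3, h4⟩ | ⟨h3, h4⟩
  · have h3 := Nat.eq_of_beq_eq_true h3
    obtain ⟨g, hg, e1, e2⟩ := htr 0 ⟨v0, hv0⟩ 0 ⟨v, hv⟩ h1 h3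
    have h5 := hc g hg 0 ⟨v0, hv0⟩
    rw [e1, e2] at h5
    exact hbeq _ _ h4 h5
  · have h3 := Nat.eq_of_beq_eq_true h3
    obtain ⟨g, hg, e1, e2⟩ := htr 0 ⟨v0, hv0⟩ 7 ⟨v, hv⟩ h1 h3
    have h5 := hc g hg 0 ⟨v0, hv0⟩
    rw [e1, e2] at h5
    exact hbeq _ _ h4 h5

/-- iterated digit lookup -/
def itd (c e p : ℕ) : ℕ := Nat.rec p (fun _ a => dg c a) e

theorem itd_eq {c : ℕ} {x : Perm (Fin 14)} (hx : Cod c x) (e : ℕ) (p : Fin 14) :
    itd c e p.val = ((x ^ e) p).val := by
  induction e with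
  | zero => rfl
  | succ e ih =>
    have h1 : itd c (e + 1) p.val = dg c (itd c e p.val) := rfl
    rw [h1, ih, hx, pow_succ', Perm.mul_apply]

/-- check of the orbit representatives -/
def repChk (ic rc m : ℕ) : Bool := allN (fun p => allN (fun q => anyN (fun e => anyN (fun i =>
  Nat.beq (itd m e (sh i p)) (7 * (p / 7)) &&
  Nat.beq (itd m e (sh i q)) (7 * (q / 7) + dg rc (dg ic ((q + 14 - p) % 7)))) 7) 3) 14) 14

theorem repChk6 : repChk 19083792 12816 38750970664142176 = true := by decide +kernel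
theorem repChk2 : repChk 35725584 784 57013772970189856 = true := by decide +kernel

theorem adjf_eq {ic x y z w p q : ℕ} (_hp : p < 14) (hq : q < 14) :
    adjf ic x y z w (14 * p + q) = bt (if p < 7 then (if q < 7 then x else y)
      else (if q < 7 then z else w)) (dg ic ((q + 14 - p) % 7)) := by
  have e1 : Nat.div (14 * p + q) 14 = p := by
    have : Nat.div (14 * p + q) 14 = (14 * p + q) / 14 := rfl
    omega
  have e2 : Nat.mod (14 * p + q) 14 = q := by
    have : Nat.mod (14 * p + q) 14 = (14 * p + q) % 14 := rfl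
    omega
  have e3 : Nat.mod (Nat.sub (Nat.add q 14) p) 7 = (q + 14 - p) % 7 := rfl
  rw [adjf, e1, e2, e3]
  by_cases hp7 : p < 7 <;> by_cases hq7 : q < 7
  · have b1 : Nat.blt p 7 = true := by rw [Nat.blt_eq]; exact hp7
    have b2 : Nat.blt q 7 = true := by rw [Nat.blt_eq]; exact hq7
    rw [b1, b2, cond_true, cond_true, if_pos hp7, if_pos hq7]
  · have b1 : Nat.blt p 7 = true := by rw [Nat.blt_eq]; exact hp7
    have b2 : Nat.blt q 7 = false := by rw [← Bool.not_eq_true, Nat.blt_eq]; exact hq7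
    rw [b1, b2, cond_true, cond_false, if_pos hp7, if_neg hq7]
  · have b1 : Nat.blt p 7 = false := by rw [← Bool.not_eq_true, Nat.blt_eq]; exact hp7
    have b2 : Nat.blt q 7 = true := by rw [Nat.blt_eq]; exact hq7
    rw [b1, b2, cond_false, cond_true, if_neg hp7, if_pos hq7]
  · have b1 : Nat.blt p 7 = false := by rw [← Bool.not_eq_true, Nat.blt_eq]; exact hp7
    have b2 : Nat.blt q 7 = false := by rw [← Bool.not_eq_true, Nat.blt_eq]; exact hq7
    rw [b1, b2, cond_false, cond_false, if_neg hp7, if_neg hq7]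

theorem two_trans_aux (hprim : IsPreprimitive H (Fin 14)) (hs : s ∈ H) {ic rc m no : ℕ}
    {μ : Perm (Fin 14)} (hμ : μ ∈ H) (hm : Cod m μ) (hrep : repChk ic rc m = true)
    (hic : ∀ d < 7, dg ic d < no) (hrc : ∀ i < no, dg rc i < 7) (hrc0 : dg rc 0 = 0)
    (hno : 0 < no)
    (hloop : loop ic (2 ^ no) = true) {a b : Fin 14} (hab : a ≠ b) :
    ∀ p q : Fin 14, p ≠ q → ∃ g ∈ H, g a = p ∧ g b = q := by
  classical
  set R : Fin 14 → Fin 14 → Prop := fun p q => ∃ g ∈ H, g a = p ∧ g b = q with hR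
  have hRinv : ∀ h ∈ H, ∀ p q, R (h p) (h q) ↔ R p q := by
    intro h hh p q
    constructor
    · rintro ⟨g, hg, h1, h2⟩
      refine ⟨h⁻¹ * g, H.mul_mem (H.inv_mem hh) hg, ?_, ?_⟩
      · rw [Perm.mul_apply, h1, pia]
      · rw [Perm.mul_apply, h2, pia]
    · rintro ⟨g, hg, h1, h2⟩
      refine ⟨h * g, H.mul_mem hh hg, ?_, ?_⟩
      · rw [Perm.mul_apply, h1]
      · rw [Perm.mul_apply, h2]
  have hRne : ∀ p, ¬ R p p := by
    rintro p ⟨g, _, h1, h2⟩
    exact hab (g.injective (h1.trans h2.symm))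
  -- masks
  let P : ℕ → ℕ → Fin 14 := fun e j => ⟨7 * (e % 2) + j % 7, by omega⟩
  let f : ℕ → ℕ → ℕ → ℕ := fun e e' i => if R (P e 0) (P e' (dg rc i)) then 1 else 0
  have hf : ∀ e e' i, f e e' i < 2 := by
    intro e e' i
    simp only [f]; split_ifs <;> norm_num
  let msk : ℕ → ℕ → ℕ := fun e e' => bits (f e e') no
  have hmsk : ∀ e e', msk e e' < 2 ^ no := fun e e' => bits_lt (hf e e') no
  set A := adjc ic (msk 0 0) (msk 0 1) (msk 1 0) (msk 1 1) with hA
  have hadj : ∀ p q : Fin 14, ad A p.val q.val = if R p q then 1 else 0 := by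
    intro p q
    have hp := p.2
    have hq := q.2
    have h1 : ad A p.val q.val = adjf ic (msk 0 0) (msk 0 1) (msk 1 0) (msk 1 1)
        (14 * p.val + q.val) := by
      rw [hA, ad, adjc]
      exact bt_bits (fun i => bt_lt _ _) (by
        have : Nat.add (Nat.mul 14 p.val) q.val = 14 * p.val + q.val := rfl
        omega)
    have h2 : (if p.val < 7 then (if q.val < 7 then msk 0 0 else msk 0 1) else
        (if q.val < 7 then msk 1 0 else msk 1 1)) = msk (p.val / 7) (q.val / 7) := by
      by_cases hp7 : p.val < 7 <;> by_cases hq7 : q.val < 7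
      · rw [if_pos hp7, if_pos hq7, show p.val / 7 = 0 by omega, show q.val / 7 = 0 by omega]
      · rw [if_pos hp7, if_neg hq7, show p.val / 7 = 0 by omega, show q.val / 7 = 1 by omega]
      · rw [if_neg hp7, if_pos hq7, show p.val / 7 = 1 by omega, show q.val / 7 = 0 by omega]
      · rw [if_neg hp7, if_neg hq7, show p.val / 7 = 1 by omega, show q.val / 7 = 1 by omega]
    rw [h1, adjf_eq hp hq, h2]
    have hd : (q.val + 14 - p.val) % 7 < 7 := Nat.mod_lt _ (by norm_num)
    have h3 : bt (msk (p.val / 7) (q.val / 7)) (dg ic ((q.val + 14 - p.val) % 7))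
        = f (p.val / 7) (q.val / 7) (dg ic ((q.val + 14 - p.val) % 7)) :=
      bt_bits (hf _ _) (hic _ hd)
    rw [h3]
    simp only [f]
    -- use the check of representatives
    have h4 := allN_spec (allN_spec hrep p.val p.2) q.val q.2
    obtain ⟨e, _, h5⟩ := anyN_spec h4
    obtain ⟨i, _, h6⟩ := anyN_spec h5
    rw [Bool.and_eq_true] at h6
    obtain ⟨h6, h7⟩ := h6
    have h6 := Nat.eq_of_beq_eq_true h6
    have h7 := Nat.eq_of_beq_eq_true h7
    have hg : μ ^ e * s ^ i ∈ H := H.mul_mem (H.pow_mem hμ e) (H.pow_mem hs i)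
    rw [← s_pow_apply, itd_eq hm] at h6 h7
    have g1 : (μ ^ e * s ^ i) p = P (p.val / 7) 0 := by
      apply Fin.ext
      rw [Perm.mul_apply, h6]
      simp only [P]
      omega
    have hrl : dg rc (dg ic ((q.val + 14 - p.val) % 7)) < 7 := hrc _ (hic _ hd)
    have g2 : (μ ^ e * s ^ i) q = P (q.val / 7) (dg rc (dg ic ((q.val + 14 - p.val) % 7))) := by
      apply Fin.ext
      rw [Perm.mul_apply, h7]
      simp only [P]
      omega
    have h8 := hRinv _ hg p q
    rw [g1, g2] at h8
    by_cases hRpq : R p q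
    · rw [if_pos hRpq, if_pos (h8.2 hRpq)]
    · rw [if_neg hRpq, if_neg (fun h => hRpq (h8.1 h))]
  -- invariance
  have hInv : Inv H (ad A) := by
    intro h hh p q
    rw [hadj, hadj]
    by_cases hRpq : R p q
    · rw [if_pos hRpq, if_pos ((hRinv h hh p q).2 hRpq)]
    · rw [if_neg hRpq, if_neg (fun hc => hRpq ((hRinv h hh p q).1 hc))]
  have hInv2 : Inv H (c2 A) := hInv.mul hInv
  have hInvT : Inv H (cT A) := hInv.mulT hInv
  have hInv3 : Inv H (c3 A) := hInv2.mul hInv
  have had1 : ∀ p q : Fin 14, ad A p.val q.val = 1 → R p q := by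
    intro p q h
    rw [hadj] at h
    by_contra hcon
    rw [if_neg hcon] at h
    exact absurd h (by decide)
  have htrR : ∀ p q p' q' : Fin 14, ad A p.val q.val = 1 → ad A p'.val q'.val = 1 →
      ∃ g ∈ H, g p = p' ∧ g q = q' := by
    intro p q p' q' h1 h2
    obtain ⟨g1, hg1, e1, e2⟩ := had1 _ _ h1
    obtain ⟨g2, hg2, e3, e4⟩ := had1 _ _ h2
    refine ⟨g2 * g1⁻¹, H.mul_mem hg2 (H.inv_mem hg1), ?_, ?_⟩
    · rw [Perm.mul_apply, ← e1, pia, e3]
    · rw [Perm.mul_apply, ← e2, pia, e4]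
  -- degrees
  obtain ⟨g07, hg07⟩ := exists_smul_eq H (0 : Fin 14) (7 : Fin 14)
  have hg07' : (g07 : Perm (Fin 14)) 0 = 7 := hg07
  have hdeg1 : sumN (fun v => ad A 0 v) 14 = sumN (fun v => ad A 7 v) 14 := by
    rw [sumN14, sumN14, ← Equiv.sum_comp (g07 : Perm (Fin 14)) (fun v => ad A 7 v.val)]
    apply Finset.sum_congr rfl
    intro v _
    have := hInv _ g07.2 0 v
    rw [hg07'] at this
    exact this.symm
  have hdeg2 : sumN (fun v => ad A v 0) 14 = sumN (fun v => ad A v 7) 14 := by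
    rw [sumN14, sumN14, ← Equiv.sum_comp (g07 : Perm (Fin 14)) (fun v => ad A v.val 7)]
    apply Finset.sum_congr rfl
    intro v _
    have := hInv _ g07.2 v 0
    rw [hg07'] at this
    exact this.symm
  -- evenness of the diagonal masks
  have heven : ∀ e, msk e e % 2 = 0 := by
    intro e
    have h1 : bt (msk e e) 0 = f e e 0 := bt_bits (hf e e) hno
    rw [bt_eq, pow_zero, Nat.div_one] at h1
    rw [h1]
    simp only [f]
    rw [hrc0, if_neg (hRne _)]
  -- run the loop
  have hl0 := allN_spec hloop (msk 0 0) (hmsk 0 0)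
  rw [Bool.or_eq_true, force_eq] at hl0
  rcases hl0 with hl0 | hl0
  · have h1 := Nat.eq_of_beq_eq_true hl0
    have h2 := heven 0
    have h3 : Nat.mod (msk 0 0) 2 = msk 0 0 % 2 := rfl
    omega
  have hl1 := allN_spec hl0 (msk 1 1) (hmsk 1 1)
  rw [Bool.or_eq_true, force_eq] at hl1
  rcases hl1 with hl1 | hl1
  · have h1 := Nat.eq_of_beq_eq_true hl1
    have h2 := heven 1
    have h3 : Nat.mod (msk 1 1) 2 = msk 1 1 % 2 := rfl
    omega
  have hl2 := allN_spec hl1 (msk 0 1) (hmsk 0 1)
  rw [force_eq] at hl2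
  have hl3 := allN_spec hl2 (msk 1 0) (hmsk 1 0)
  simp only [force_eq, Bool.or_eq_true, Bool.not_eq_true'] at hl3
  have hbeq : ∀ a b : ℕ, Nat.beq a b = false → a ≠ b := by
    intro a b hab e
    rw [e, Nat.beq_refl] at hab
    exact absurd hab (by decide)
  have hadx : ∀ p q, p < 14 → q < 14 → ad A p q = bt (if p < 7 then
      (if q < 7 then msk 0 0 else msk 0 1) else (if q < 7 then msk 1 0 else msk 1 1))
      (dg ic ((q + 14 - p) % 7)) := by
    intro p q hp hq
    have h := bt_bits (f := adjf ic (msk 0 0) (msk 0 1) (msk 1 0) (msk 1 1)) (n := 196)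
      (i := 14 * p + q) (fun i => bt_lt _ _) (by omega)
    exact h.trans (adjf_eq hp hq)
  have hs7 : ∀ F : ℕ → ℕ, sumN F 14 = (∑ v ∈ Finset.range 7, F v)
      + ∑ v ∈ Finset.range 7, F (7 + v) := by
    intro F
    rw [sumN_eq, show 14 = 7 + 7 from rfl, Finset.sum_range_add]
  have hw1 : sumN (fun v => ad A 0 v) 14 = wt ic (msk 0 0) + wt ic (msk 0 1) := by
    rw [hs7, wt, wt, sumN_eq, sumN_eq]
    refine congrArg₂ (· + ·) (Finset.sum_congr rfl fun v hv => ?_)
      (Finset.sum_congr rfl fun v hv => ?_)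
    · rw [Finset.mem_range] at hv
      rw [hadx 0 v (by norm_num) (by omega), if_pos (by norm_num), if_pos hv,
        show (v + 14 - 0) % 7 = v by omega]
    · rw [Finset.mem_range] at hv
      rw [hadx 0 (7 + v) (by norm_num) (by omega), if_pos (by norm_num), if_neg (by omega),
        show (7 + v + 14 - 0) % 7 = v by omega]
  have hw2 : sumN (fun v => ad A 7 v) 14 = wt ic (msk 1 0) + wt ic (msk 1 1) := by
    rw [hs7, wt, wt, sumN_eq, sumN_eq]
    refine congrArg₂ (· + ·) (Finset.sum_congr rfl fun v hv => ?_)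
      (Finset.sum_congr rfl fun v hv => ?_)
    · rw [Finset.mem_range] at hv
      rw [hadx 7 v (by norm_num) (by omega), if_neg (by norm_num), if_pos hv,
        show (v + 14 - 7) % 7 = v by omega]
    · rw [Finset.mem_range] at hv
      rw [hadx 7 (7 + v) (by norm_num) (by omega), if_neg (by norm_num), if_neg (by omega),
        show (7 + v + 14 - 7) % 7 = v by omega]
  have hneg : ∀ G : ℕ → ℕ, ∑ v ∈ Finset.range 7, G ((14 - v) % 7)
      = ∑ v ∈ Finset.range 7, G v := by
    intro G
    simp only [Finset.sum_range_succ, Finset.sum_range_zero]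
    norm_num
    ring
  have hw3 : sumN (fun v => ad A v 0) 14 = wt ic (msk 0 0) + wt ic (msk 1 0) := by
    rw [hs7, wt, wt, sumN_eq, sumN_eq, ← hneg (fun j => bt (msk 0 0) (dg ic j)),
      ← hneg (fun j => bt (msk 1 0) (dg ic j))]
    refine congrArg₂ (· + ·) (Finset.sum_congr rfl fun v hv => ?_)
      (Finset.sum_congr rfl fun v hv => ?_)
    · rw [Finset.mem_range] at hv
      rw [hadx v 0 (by omega) (by norm_num), if_pos hv, if_pos (by norm_num),
        show (0 + 14 - v) % 7 = (14 - v) % 7 by omega]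
    · rw [Finset.mem_range] at hv
      rw [hadx (7 + v) 0 (by omega) (by norm_num), if_neg (by omega), if_pos (by norm_num),
        show (0 + 14 - (7 + v)) % 7 = (14 - v) % 7 by omega]
  have hw4 : sumN (fun v => ad A v 7) 14 = wt ic (msk 0 1) + wt ic (msk 1 1) := by
    rw [hs7, wt, wt, sumN_eq, sumN_eq, ← hneg (fun j => bt (msk 0 1) (dg ic j)),
      ← hneg (fun j => bt (msk 1 1) (dg ic j))]
    refine congrArg₂ (· + ·) (Finset.sum_congr rfl fun v hv => ?_)
      (Finset.sum_congr rfl fun v hv => ?_)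
    · rw [Finset.mem_range] at hv
      rw [hadx v 7 (by omega) (by norm_num), if_pos hv, if_neg (by norm_num),
        show (7 + 14 - v) % 7 = (14 - v) % 7 by omega]
    · rw [Finset.mem_range] at hv
      rw [hadx (7 + v) 7 (by omega) (by norm_num), if_neg (by omega), if_neg (by norm_num),
        show (7 + 14 - (7 + v)) % 7 = (14 - v) % 7 by omega]
  rcases hl3 with (hl3 | hl3) | hl3
  · exfalso
    apply hbeq _ _ hl3
    rw [hw1, hw2] at hdeg1
    exact hdeg1
  · exfalso
    apply hbeq _ _ hl3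
    rw [hw3, hw4] at hdeg2
    exact hdeg2
  change relTest A = true at hl3
  simp only [relTest, Bool.or_eq_true] at hl3
  rcases hl3 with (((((((((h | h) | h) | h) | h) | h) | h) | h) | h) | h)
  · -- degree test
    exfalso
    simp only [degtest, Bool.or_eq_true, Bool.not_eq_true'] at h
    rcases h with h | h
    · exact hbeq _ _ h hdeg1
    · exact hbeq _ _ h hdeg2
  · -- empty
    exfalso
    obtain ⟨i, hi⟩ := exists_shift a
    have hRab : R a b := ⟨1, H.one_mem, rfl, rfl⟩
    have h1 : ad A ((s ^ i) a).val ((s ^ i) b).val = 1 := by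
      rw [hInv _ (H.pow_mem hs i), hadj, if_pos hRab]
    have h2 := allN_spec h ((s ^ i) b).val ((s ^ i) b).2
    rw [Bool.and_eq_true] at h2
    have ha := a.2
    by_cases ha7 : a.val < 7
    · rw [hi, show 7 * (a.val / 7) = 0 by omega] at h1
      have := Nat.eq_of_beq_eq_true h2.1
      omega
    · rw [hi, show 7 * (a.val / 7) = 7 by omega] at h1
      have := Nat.eq_of_beq_eq_true h2.2
      omega
  · -- complete
    intro p q hpq
    apply had1
    obtain ⟨i, hi⟩ := exists_shift p
    rw [← hInv _ (H.pow_mem hs i)]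
    have hne : ((s ^ i) p).val ≠ ((s ^ i) q).val :=
      fun e => hpq ((s ^ i).injective (Fin.ext e))
    have h2 := allN_spec h ((s ^ i) q).val ((s ^ i) q).2
    rw [Bool.and_eq_true, Bool.or_eq_true, Bool.or_eq_true] at h2
    have hp := p.2
    by_cases hp7 : p.val < 7
    · rw [hi, show 7 * (p.val / 7) = 0 by omega] at hne ⊢
      rcases h2.1 with h3 | h3
      · exact absurd (Nat.eq_of_beq_eq_true h3).symm hne
      · exact Nat.eq_of_beq_eq_true h3
    · rw [hi, show 7 * (p.val / 7) = 7 by omega] at hne ⊢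
      rcases h2.2 with h3 | h3
      · exact absurd (Nat.eq_of_beq_eq_true h3).symm hne
      · exact Nat.eq_of_beq_eq_true h3
  · exact (imp_false hprim hs hInv h).elim
  · exact (split_false hInv2 htrR h).elim
  · exact (imp_false hprim hs hInv2 h).elim
  · exact (split_false hInvT htrR h).elim
  · exact (imp_false hprim hs hInvT h).elim
  · exact (split_false hInv3 htrR h).elim
  · exact (imp_false hprim hs hInv3 h).elim

theorem two_trans (hprim : IsPreprimitive H (Fin 14)) (hs : s ∈ H)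
    (hμ : mu6 ∈ H ∨ mu2 ∈ H) : IsMultiplyPretransitive H (Fin 14) 2 := by
  rw [is_two_pretransitive_iff]
  intro a b c d hab hcd
  rcases hμ with hμ | hμ
  · obtain ⟨g, hg, h1, h2⟩ := two_trans_aux hprim hs (ic := 19083792) (rc := 12816) (no := 4) hμ
      cod_mu6 repChk6 (by decide) (by decide) (by decide) (by decide) loop6 hab c d hcd
    exact ⟨⟨g, hg⟩, h1, h2⟩
  · obtain ⟨g, hg, h1, h2⟩ := two_trans_aux hprim hs (ic := 35725584) (rc := 784) (no := 3) hμ
      cod_mu2 repChk2 (by decide) (by decide) (by decide) (by decide) loop2 hab c d hcd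
    exact ⟨⟨g, hg⟩, h1, h2⟩

end Pool.Agent.Helper95.TDS
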