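import Pool.Agent.Helper95.TDS.SylZ
import Pool.Agent.Helper95.TDS.TwoTrans

/-!
The order of a primitive subgroup of the alternating group of degree 14, without three-cycles,
containing `s` and one of `mu6`, `mu2`, is 1092.
-/

namespace Pool.Agent.Helper95.TDS

open Equiv Equiv.Perm MulAction

variable {H : Subgroup (Perm (Fin 14))}

theorem card_norm7_ne (hA : H ≤ alternatingGroup (Fin 14)) (hprim : IsPreprimitive H (Fin 14))
    (no3 : ∀ g ∈ H, ¬ g.IsThreeCycle) (hs : s ∈ H) :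
    Nat.card (Subgroup.normalizer ((Subgroup.zpowers (⟨s, hs⟩ : H) : Subgroup H) : Set H))
      ≠ 7 := by
  intro hcard
  obtain ⟨P, hP, hcP, _⟩ := sylow7 hA hprim no3 hs
  have hNP : Subgroup.normalizer ((P : Subgroup H) : Set H) = (P : Subgroup H) := by
    symm
    apply Subgroup.eq_of_le_of_card_ge Subgroup.le_normalizer
    rw [hcP, hP, hcard]
  refine not_normalizer_le hprim (p := 7) (by norm_num) P ?_
  have h1 : Subgroup.normalizer (P : Set H) = (P : Subgroup H) := hNP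
  rw [h1]
  intro x hx
  rw [Subgroup.mem_centralizer_iff]
  intro y hy
  have hy' : y ∈ (P : Subgroup H) := hy
  rw [hP] at hx hy'
  obtain ⟨i, hi⟩ := Subgroup.mem_zpowers_iff.1 hx
  obtain ⟨j, hj⟩ := Subgroup.mem_zpowers_iff.1 hy'
  rw [← hi, ← hj, ← zpow_add, ← zpow_add, add_comm]

/-- Sylow counting for a cyclic Sylow subgroup -/
theorem sylow_count {p : ℕ} [hp : Fact p.Prime] (P : Sylow p H) {Q : Subgroup H}
    (hPQ : (P : Subgroup H) = Q) : ∃ n : ℕ,
      Nat.card (Subgroup.normalizer (Q : Set H)) * n = Nat.card H ∧ n % p = 1 % p := by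
  refine ⟨(Subgroup.normalizer (Q : Set H)).index, Subgroup.card_mul_index _, ?_⟩
  have h1 := card_sylow_modEq_one p H
  rw [Sylow.card_eq_index_normalizer P] at h1
  rw [← hPQ]
  exact h1

theorem arith_aux : ∀ i < 9, ∀ j < 5,
    ((182 * (2 ^ i * 3 ^ j)) % 14 = 0 ∧ (182 * (2 ^ i * 3 ^ j)) / 14 % 7 = 1 ∨
     (182 * (2 ^ i * 3 ^ j)) % 21 = 0 ∧ (182 * (2 ^ i * 3 ^ j)) / 21 % 7 = 1 ∨
     (182 * (2 ^ i * 3 ^ j)) % 42 = 0 ∧ (182 * (2 ^ i * 3 ^ j)) / 42 % 7 = 1) →
    ((182 * (2 ^ i * 3 ^ j)) % 26 = 0 ∧ (182 * (2 ^ i * 3 ^ j)) / 26 % 13 = 1 ∨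
     (182 * (2 ^ i * 3 ^ j)) % 39 = 0 ∧ (182 * (2 ^ i * 3 ^ j)) / 39 % 13 = 1 ∨
     (182 * (2 ^ i * 3 ^ j)) % 78 = 0 ∧ (182 * (2 ^ i * 3 ^ j)) / 78 % 13 = 1) →
    182 * (2 ^ i * 3 ^ j) = 1092 ∨ 182 * (2 ^ i * 3 ^ j) = 14742 := by
  intro i hi j hj
  interval_cases i <;> interval_cases j <;> decide

theorem dvd42 {a : ℕ} (h : a ∣ 42) (h7 : 7 ∣ a) (hne : a ≠ 7) : a = 14 ∨ a = 21 ∨ a = 42 := by
  have h1 : a ≤ 42 := Nat.le_of_dvd (by norm_num) h
  obtain ⟨k, rfl⟩ := h7
  have : k ≤ 6 := by omega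
  interval_cases k <;> omega

theorem dvd78 {b : ℕ} (h : b ∣ 78) (h13 : 13 ∣ b) (hne : b ≠ 13) : b = 26 ∨ b = 39 ∨ b = 78 := by
  have h1 : b ≤ 78 := Nat.le_of_dvd (by norm_num) h
  obtain ⟨k, rfl⟩ := h13
  have : k ≤ 6 := by omega
  interval_cases k <;> omega

/-- there is no cyclic Sylow 2-subgroup -/
theorem not_cyclic2 (hprim : IsPreprimitive H (Fin 14)) (P : Sylow 2 H) :
    ¬ IsCyclic (P : Subgroup H) := by
  intro hcyc
  have h14 := dvd_card hprim.toIsPretransitive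
  have hmin : (Nat.card H).minFac = 2 := by
    rw [Nat.minFac_eq_two_iff]
    exact dvd_trans (by norm_num) h14
  exact not_normalizer_le hprim (p := 2) (by norm_num) P
    (IsCyclic.normalizer_le_centralizer hmin hcyc)

theorem order_H (hA : H ≤ alternatingGroup (Fin 14)) (hprim : IsPreprimitive H (Fin 14))
    (no3 : ∀ g ∈ H, ¬ g.IsThreeCycle) (hs : s ∈ H) (hμ : mu6 ∈ H ∨ mu2 ∈ H) :
    Nat.card H = 1092 ∧
    Nat.card (Subgroup.normalizer ((Subgroup.zpowers (⟨s, hs⟩ : H) : Subgroup H) : Set H)) = 14 ∧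
    ∀ z (hzH : z ∈ H), orderOf z = 13 → z 0 = 0 →
      Nat.card (Subgroup.normalizer ((Subgroup.zpowers (⟨z, hzH⟩ : H) : Subgroup H) : Set H))
        = 78 := by
  have h2t := two_trans hprim hs hμ
  obtain ⟨P7, hP7, hcP7, _⟩ := sylow7 hA hprim no3 hs
  obtain ⟨n7, hn7, hm7⟩ := sylow_count P7 hP7
  set a := Nat.card (Subgroup.normalizer ((Subgroup.zpowers (⟨s, hs⟩ : H) : Subgroup H) : Set H))
    with ha
  have ha42 : a ∣ 42 := card_norm7 hA hprim no3 hs
  have ha7 : a ≠ 7 := card_norm7_ne hA hprim no3 hs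
  have h7a : 7 ∣ a := by
    rw [ha, ← hcP7, hP7]
    exact Subgroup.card_dvd_of_le Subgroup.le_normalizer
  have ha3 := dvd42 ha42 h7a ha7
  have hz : ∀ z (hzH : z ∈ H), orderOf z = 13 → z 0 = 0 →
      ∃ b n : ℕ, b = Nat.card (Subgroup.normalizer
        ((Subgroup.zpowers (⟨z, hzH⟩ : H) : Subgroup H) : Set H)) ∧
        b * n = Nat.card H ∧ n % 13 = 1 ∧ (b = 26 ∨ b = 39 ∨ b = 78) := by
    intro z hzH hoz hz0
    obtain ⟨P, hP⟩ := sylow13 hzH hoz
    obtain ⟨n, hn, hm⟩ := sylow_count P hP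
    refine ⟨_, n, rfl, hn, hm, dvd78 (card_norm13 hA hzH hoz hz0) ?_
      (card_norm13_ne hA hprim no3 hs hzH hoz)⟩
    have : Nat.card (Subgroup.zpowers (⟨z, hzH⟩ : H)) = 13 := by
      rw [Nat.card_zpowers, Subgroup.orderOf_mk, hoz]
    rw [← this]
    exact Subgroup.card_dvd_of_le Subgroup.le_normalizer
  obtain ⟨z, hzH, hz0, hoz⟩ := exists_z hprim h2t
  obtain ⟨b, n13, hb, hbn, hbm, hb3⟩ := hz z hzH hoz hz0
  have hc2 : Nat.card H = 1092 ∨ Nat.card H = 14742 := by
    obtain ⟨h, hh⟩ := dvd_182 hprim h2t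
    have hdv : Nat.card H ∣ 43589145600 := by
      rw [← card_alt14]; exact Subgroup.card_dvd_of_le hA
    have h11 := not_11 hprim no3
    have h5 := not_5 hprim no3 h2t
    have h49 := not_49 hprim no3
    have h243 := not_243 (H := H) no3
    have h1024 := not_1024 hA hprim no3 h2t
    rw [hh] at hdv h11 h5 h49 h243 h1024
    have hd1 : h ∣ 239500800 := by
      have : 182 * h ∣ 182 * 239500800 := by simpa using hdv
      exact Nat.dvd_of_mul_dvd_mul_left (by norm_num) this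
    have hco11 : Nat.Coprime h 11 := by
      rw [Nat.coprime_comm, (by norm_num : Nat.Prime 11).coprime_iff_not_dvd]
      exact fun hd => h11 (hd.mul_left _)
    have hco5 : Nat.Coprime h 25 := by
      have : Nat.Coprime h (5 ^ 2) := by
        apply Nat.Coprime.pow_right
        rw [Nat.coprime_comm, (by norm_num : Nat.Prime 5).coprime_iff_not_dvd]
        exact fun hd => h5 (hd.mul_left _)
      simpa using this
    have hco7 : Nat.Coprime h 7 := by
      rw [Nat.coprime_comm, (by norm_num : Nat.Prime 7).coprime_iff_not_dvd]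
      intro hd
      apply h49
      have : 7 * 7 ∣ 182 * h := Nat.mul_dvd_mul (by norm_num) hd
      simpa using this
    have hd2 : h ∣ 2 ^ 9 * 3 ^ 5 := by
      have e1 : (239500800 : ℕ) = (2 ^ 9 * 3 ^ 5) * 25 * 7 * 11 := by norm_num
      rw [e1] at hd1
      exact hco5.dvd_of_dvd_mul_right (hco7.dvd_of_dvd_mul_right
        (hco11.dvd_of_dvd_mul_right hd1))
    obtain ⟨y, w, hy, hw, hyw⟩ := Nat.dvd_mul.1 hd2
    obtain ⟨i, hi, rfl⟩ := (Nat.dvd_prime_pow Nat.prime_two).1 hy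
    obtain ⟨j, hj, rfl⟩ := (Nat.dvd_prime_pow Nat.prime_three).1 hw
    subst hyw
    have hi8 : i < 9 := by
      by_contra hcon
      apply h1024
      have h9 : 2 ^ 9 ∣ 2 ^ i := pow_dvd_pow 2 (by omega)
      have : 2 * 2 ^ 9 ∣ 182 * (2 ^ i * 3 ^ j) :=
        Nat.mul_dvd_mul (by norm_num) (h9.mul_right _)
      simpa using this
    have hj4 : j < 5 := by
      by_contra hcon
      apply h243
      have h9 : 3 ^ 5 ∣ 3 ^ j := pow_dvd_pow 3 (by omega)
      exact (h9.mul_left _).mul_left _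
    rw [hh]
    apply arith_aux i hi8 j hj4
    · rw [hh] at hn7
      rcases ha3 with h | h | h
      · left; rw [h] at hn7; rw [← hn7]; omega
      · right; left; rw [h] at hn7; rw [← hn7]; omega
      · right; right; rw [h] at hn7; rw [← hn7]; omega
    · rw [hh] at hbn
      rcases hb3 with h | h | h
      · left; rw [h] at hbn; rw [← hbn]; omega
      · right; left; rw [h] at hbn; rw [← hbn]; omega
      · right; right; rw [h] at hbn; rw [← hbn]; omega
  have hc : Nat.card H = 1092 := by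
    rcases hc2 with h | h
    · exact h
    · exfalso
      obtain ⟨P⟩ : Nonempty (Sylow 2 H) := inferInstance
      apply not_cyclic2 hprim P
      obtain ⟨n, hn⟩ := P.2.exists_card_eq
      have h1 : Nat.card (P : Subgroup H) ∣ 14742 := by
        rw [← h]; exact Subgroup.card_subgroup_dvd_card _
      rw [hn] at h1
      have hn1 : n ≤ 1 := by
        by_contra hcon
        have h4 : 2 ^ 2 ∣ 14742 := (pow_dvd_pow 2 (by omega)).trans h1
        norm_num at h4
      have h2 : Nat.card (P : Subgroup H) ∣ 2 := by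
        rw [hn]
        exact (pow_dvd_pow 2 hn1).trans (by norm_num)
      exact isCyclic_of_card_dvd_prime h2
  refine ⟨hc, ?_, ?_⟩
  · rw [hc] at hn7
    rcases ha3 with h | h | h
    · exact h
    · rw [h] at hn7; omega
    · rw [h] at hn7; omega
  · intro z hzH hoz hz0
    obtain ⟨b, n13, hb, hbn, hbm, hb3⟩ := hz z hzH hoz hz0
    rw [← hb]
    rw [hc] at hbn
    rcases hb3 with h | h | h
    · rw [h] at hbn; omega
    · rw [h] at hbn; omega
    · exact h

end Pool.Agent.Helper95.TDS
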