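import Pool.Agent.Helper95.TDS.NormS

/-!
Computable test showing that a primitive group of degree 14 containing `s` and `mu6` or `mu2` is
doubly transitive.
-/

namespace Pool.Agent.Helper95.TDS

open Equiv Equiv.Perm MulAction

/-- a bit -/
def bt (m i : ℕ) : ℕ := Nat.land (Nat.shiftRight m i) 1

theorem bt_eq (m i : ℕ) : bt m i = m / 2 ^ i % 2 := by
  have h1 : Nat.land (Nat.shiftRight m i) 1 = (m >>> i) &&& 1 := rfl
  rw [bt, h1, Nat.and_one_is_mod, Nat.shiftRight_eq_div_pow]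

theorem bt_lt (m i : ℕ) : bt m i < 2 := by
  rw [bt_eq]; exact Nat.mod_lt _ (by norm_num)

/-- the number with given bits -/
def bits (f : ℕ → ℕ) (n : ℕ) : ℕ := Nat.rec 0 (fun i acc => Nat.add acc (Nat.shiftLeft (f i) i)) n

theorem bits_succ (f : ℕ → ℕ) (n : ℕ) : bits f (n + 1) = bits f n + f n * 2 ^ n := by
  have h1 : bits f (n + 1) = bits f n + (f n <<< n) := rfl
  rw [h1, Nat.shiftLeft_eq]

theorem bits_lt {f : ℕ → ℕ} (hf : ∀ i, f i < 2) (n : ℕ) : bits f n < 2 ^ n := by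
  induction n with
  | zero => simp [bits]
  | succ n ih =>
    rw [bits_succ, pow_succ]
    have := hf n
    have h2 : f n * 2 ^ n ≤ 1 * 2 ^ n := Nat.mul_le_mul_right _ (by omega)
    omega

theorem bt_bits {f : ℕ → ℕ} (hf : ∀ i, f i < 2) {n i : ℕ} (hi : i < n) :
    bt (bits f n) i = f i := by
  induction n with
  | zero => omega
  | succ n ih =>
    rw [bt_eq, bits_succ]
    rcases Nat.lt_succ_iff_lt_or_eq.1 hi with h | h
    · have h1 : f n * 2 ^ n = (f n * 2 ^ (n - i - 1) * 2) * 2 ^ i := by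
        rw [mul_assoc, mul_assoc, ← pow_succ', ← pow_add]
        congr 2; omega
      rw [h1, Nat.add_mul_div_right _ _ (by positivity), Nat.add_mul_mod_self_right, ← bt_eq]
      exact ih h
    · subst h
      rw [Nat.add_mul_div_right _ _ (by positivity), Nat.div_eq_of_lt (bits_lt hf i), zero_add]
      exact Nat.mod_eq_of_lt (hf i)

/-- bounded sum -/
def sumN (f : ℕ → ℕ) (n : ℕ) : ℕ := Nat.rec 0 (fun i acc => Nat.add (f i) acc) n

theorem sumN_eq (f : ℕ → ℕ) (n : ℕ) : sumN f n = ∑ i ∈ Finset.range n, f i := by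
  induction n with
  | zero => rfl
  | succ n ih =>
    have e : sumN f (n + 1) = f n + sumN f n := rfl
    rw [Finset.sum_range_succ, ← ih, e, add_comm]

theorem sumN14 (f : ℕ → ℕ) : sumN f 14 = ∑ i : Fin 14, f i.val := by
  rw [sumN_eq, Fin.sum_univ_eq_sum_range]

/-- adjacency entries -/
def ad (A p q : ℕ) : ℕ := bt A (Nat.add (Nat.mul 14 p) q)
def c2 (A u v : ℕ) : ℕ := sumN (fun w => Nat.mul (ad A u w) (ad A w v)) 14
def cT (A u v : ℕ) : ℕ := sumN (fun w => Nat.mul (ad A u w) (ad A v w)) 14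
def c3 (A u v : ℕ) : ℕ := sumN (fun w => Nat.mul (c2 A u w) (ad A w v)) 14

/-- `H`-invariant functions on pairs -/
def Inv (H : Subgroup (Perm (Fin 14))) (c : ℕ → ℕ → ℕ) : Prop :=
  ∀ h ∈ H, ∀ p q : Fin 14, c (h p).val (h q).val = c p.val q.val

variable {H : Subgroup (Perm (Fin 14))}

theorem Inv.mul {c d : ℕ → ℕ → ℕ} (hc : Inv H c) (hd : Inv H d) :
    Inv H (fun u v => sumN (fun w => Nat.mul (c u w) (d w v)) 14) := by
  intro h hh p q
  simp only [sumN14]
  rw [← Equiv.sum_comp h]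
  apply Finset.sum_congr rfl
  intro i _
  rw [hc h hh, hd h hh]

theorem Inv.mulT {c d : ℕ → ℕ → ℕ} (hc : Inv H c) (hd : Inv H d) :
    Inv H (fun u v => sumN (fun w => Nat.mul (c u w) (d v w)) 14) := by
  intro h hh p q
  simp only [sumN14]
  rw [← Equiv.sum_comp h]
  apply Finset.sum_congr rfl
  intro i _
  rw [hc h hh, hd h hh]

/-- split test -/
def split (A : ℕ) (c : ℕ → ℕ → ℕ) : Bool :=
  anyN (fun v0 => Nat.beq (ad A 0 v0) 1 && force (c 0 v0) (fun n0 =>
    anyN (fun v => (Nat.beq (ad A 0 v) 1 && !(Nat.beq (c 0 v) n0)) ||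
      (Nat.beq (ad A 7 v) 1 && !(Nat.beq (c 7 v) n0))) 14)) 14

/-- all pairs of level `n` (off the diagonal) are within a side -/
def impA (c : ℕ → ℕ → ℕ) (n : ℕ) : Bool :=
  allN (fun v => (Nat.beq v 0 || !(Nat.beq (c 0 v) n) || Nat.blt v 7) &&
    (Nat.beq v 7 || !(Nat.beq (c 7 v) n) || Nat.ble 7 v)) 14

/-- all pairs of level `n` (off the diagonal) are within the matching `a_t ↔ b_t` -/
def impB (c : ℕ → ℕ → ℕ) (n : ℕ) : Bool :=
  allN (fun v => (Nat.beq v 0 || !(Nat.beq (c 0 v) n) || Nat.beq v 7) &&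
    (Nat.beq v 7 || !(Nat.beq (c 7 v) n) || Nat.beq v 0)) 14

/-- imprimitivity test -/
def imp (c : ℕ → ℕ → ℕ) : Bool :=
  anyN (fun v => (!(Nat.beq v 0) && force (c 0 v) (fun n => impA c n || impB c n)) ||
    (!(Nat.beq v 7) && force (c 7 v) (fun n => impA c n || impB c n))) 14

def degtest (A : ℕ) : Bool :=
  !(Nat.beq (sumN (fun v => ad A 0 v) 14) (sumN (fun v => ad A 7 v) 14)) ||
  !(Nat.beq (sumN (fun v => ad A v 0) 14) (sumN (fun v => ad A v 7) 14))

def complete (A : ℕ) : Bool :=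
  allN (fun v => (Nat.beq v 0 || Nat.beq (ad A 0 v) 1) &&
    (Nat.beq v 7 || Nat.beq (ad A 7 v) 1)) 14

def emptyRel (A : ℕ) : Bool :=
  allN (fun v => Nat.beq (ad A 0 v) 0 && Nat.beq (ad A 7 v) 0) 14

/-- the whole test -/
def relTest (A : ℕ) : Bool :=
  degtest A || emptyRel A || complete A || imp (ad A) || split A (c2 A) || imp (c2 A) ||
    split A (cT A) || imp (cT A) || split A (c3 A) || imp (c3 A)

/-- adjacency from masks: `ic` codes the orbit index of a difference -/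
def adjf (ic x y z w n : ℕ) : ℕ :=
  bt (cond (Nat.blt (Nat.div n 14) 7)
      (cond (Nat.blt (Nat.mod n 14) 7) x y) (cond (Nat.blt (Nat.mod n 14) 7) z w))
    (dg ic (Nat.mod (Nat.sub (Nat.add (Nat.mod n 14) 14) (Nat.div n 14)) 7))

def adjc (ic x y z w : ℕ) : ℕ := bits (adjf ic x y z w) 196

/-- number of differences in a mask -/
def wt (ic m : ℕ) : ℕ := sumN (fun j => bt m (dg ic j)) 7

/-- loop over all masks with `x, w` even -/
def loop (ic m : ℕ) : Bool :=
  allN (fun x => Nat.beq (Nat.mod x 2) 1 || force (wt ic x) (fun wx =>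
    allN (fun w => Nat.beq (Nat.mod w 2) 1 || force (wt ic w) (fun ww =>
      allN (fun y => force (wt ic y) (fun wy =>
        allN (fun z => force (wt ic z) (fun wz =>
          !(Nat.beq (Nat.add wx wy) (Nat.add wz ww)) ||
          !(Nat.beq (Nat.add wx wz) (Nat.add wy ww)) ||
          force (adjc ic x y z w) relTest)) m)) m)) m)) m

end Pool.Agent.Helper95.TDS
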