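import Pool.Agent.Helper95.TDS.Order

/-!
Structure of the primitive groups of order 1092 containing `s`.
-/

namespace Pool.Agent.Helper95.TDS

open Equiv Equiv.Perm MulAction

variable {H : Subgroup (Perm (Fin 14))}

theorem mu2_s : mu2 * s = s ^ 2 * mu2 := by
  refine Cod.eq (c := comp 57013772970189856 35408300952863521) (cod_mu2.mul cod_s) ?_
  have := (cod_s.pow 2).mul cod_mu2
  have e : comp 57013772970189856 35408300952863521
    = comp (pw 35408300952863521 2) 57013772970189856 := by decide +kernel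
  rwa [e]

theorem mu2_pow : mu2 ^ 3 = 1 := by
  refine Cod.eq (c := idc) ?_ cod_one
  have := cod_mu2.pow 3
  have e : pw 57013772970189856 3 = idc := by decide +kernel
  rwa [e] at this

theorem mu2_ne : mu2 ≠ 1 := by
  intro h
  have := congrArg (fun f : Perm (Fin 14) => (f 1).val) h
  revert this
  decide

theorem mu6_pow : mu6 ^ 2 = 1 := by
  refine Cod.eq (c := idc) ?_ cod_one
  have := cod_mu6.pow 2
  have e : pw 38750970664142176 2 = idc := by decide +kernel
  rwa [e] at this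

theorem mu6_ne : mu6 ≠ 1 := by
  intro h
  have := congrArg (fun f : Perm (Fin 14) => (f 1).val) h
  revert this
  decide

theorem mu6_mem (hs : s ∈ H)
    (h14 : Nat.card (Subgroup.normalizer
      ((Subgroup.zpowers (⟨s, hs⟩ : H) : Subgroup H) : Set H)) = 14)
    (hμ : mu6 ∈ H ∨ mu2 ∈ H) : mu6 ∈ H := by
  rcases hμ with hμ | hμ
  · exact hμ
  exfalso
  have hmem : (⟨mu2, hμ⟩ : H) ∈ Subgroup.normalizer
      ((Subgroup.zpowers (⟨s, hs⟩ : H) : Subgroup H) : Set H) := by
    apply Subgroup.mem_normalizer_fintype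
    intro n hn
    obtain ⟨i, hi⟩ := Subgroup.mem_zpowers_iff.1 hn
    have h1 : (⟨mu2, hμ⟩ : H) * ⟨s, hs⟩ * (⟨mu2, hμ⟩ : H)⁻¹ = (⟨s, hs⟩ : H) ^ 2 := by
      apply Subtype.ext
      change mu2 * s * mu2⁻¹ = s ^ 2
      rw [mu2_s]; group
    have h2 : (⟨mu2, hμ⟩ : H) * n * (⟨mu2, hμ⟩ : H)⁻¹ = ((⟨s, hs⟩ : H) ^ 2) ^ i := by
      rw [← hi, ← h1, conj_zpow]
    rw [h2]
    exact Subgroup.zpow_mem _ (Subgroup.pow_mem _ (Subgroup.mem_zpowers _) 2) i
  have hord : orderOf (⟨⟨mu2, hμ⟩, hmem⟩ : Subgroup.normalizer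
      ((Subgroup.zpowers (⟨s, hs⟩ : H) : Subgroup H) : Set H)) = 3 := by
    rw [Subgroup.orderOf_mk, Subgroup.orderOf_mk]
    have : Fact (Nat.Prime 3) := ⟨Nat.prime_three⟩
    exact orderOf_eq_prime mu2_pow mu2_ne
  have := orderOf_dvd_natCard (⟨⟨mu2, hμ⟩, hmem⟩ : Subgroup.normalizer
      ((Subgroup.zpowers (⟨s, hs⟩ : H) : Subgroup H) : Set H))
  rw [hord, h14] at this
  norm_num at this

/-- possible orders of elements -/
theorem T_of (hA : H ≤ alternatingGroup (Fin 14)) (hprim : IsPreprimitive H (Fin 14))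
    (hs : s ∈ H) (hcard : Nat.card H = 1092) {g : Perm (Fin 14)} (hg : g ∈ H) :
    g ^ 6 = 1 ∨ g ^ 7 = 1 ∨ g ^ 13 = 1 := by
  set o := orderOf g with ho
  have hdvd : o ∣ 1092 := by
    have : orderOf (⟨g, hg⟩ : H) ∣ Nat.card H := orderOf_dvd_natCard _
    rwa [Subgroup.orderOf_mk, hcard] at this
  have hopos : 0 < o := Nat.pos_of_dvd_of_pos hdvd (by norm_num)
  by_cases h7 : 7 ∣ o
  · right; left
    set u : Perm (Fin 14) := g ^ (o / 7) with hu
    have hou : orderOf u = 7 := by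
      rw [hu]
      have := orderOf_pow_of_dvd (x := g) (n := o / 7) (by omega) (Nat.div_dvd_of_dvd h7)
      rw [this, ← ho, Nat.div_div_self h7 hopos.ne']
    have huH : u ∈ H := H.pow_mem hg _
    have hfac : (Nat.card H).factorization 7 = 1 := by
      rw [hcard]
      have hp : Nat.Prime 7 := by norm_num
      have h1 := (hp.pow_dvd_iff_le_factorization (k := 1) (n := 1092) (by norm_num)).1
        (by norm_num)
      have h3 : ¬ (2 ≤ (1092 : ℕ).factorization 7) := fun h => by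
        have := (hp.pow_dvd_iff_le_factorization (n := 1092) (by norm_num)).2 h
        norm_num at this
      omega
    let P : Sylow 7 H := Sylow.ofCard (Subgroup.zpowers (⟨s, hs⟩ : H))
      (by rw [Nat.card_zpowers, Subgroup.orderOf_mk, orderOf_s, hfac]; rfl)
    let Q : Sylow 7 H := Sylow.ofCard (Subgroup.zpowers (⟨u, huH⟩ : H))
      (by rw [Nat.card_zpowers, Subgroup.orderOf_mk, hou, hfac]; rfl)
    obtain ⟨k, hk⟩ := exists_smul_eq H P Q
    have h1 : (⟨s, hs⟩ : H) ∈ P := Subgroup.mem_zpowers _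
    have h2 : k * (⟨s, hs⟩ : H) * k⁻¹ ∈ (k • P : Sylow 7 H) := by
      rw [← SetLike.mem_coe, Sylow.coe_smul]
      exact ⟨_, h1, rfl⟩
    rw [hk] at h2
    have h3 : k * (⟨s, hs⟩ : H) * k⁻¹ ∈ Subgroup.zpowers (⟨u, huH⟩ : H) := h2
    obtain ⟨j, hj⟩ := Subgroup.mem_zpowers_iff.1 h3
    have h4 : u ^ j = (k : Perm (Fin 14)) * s * (k : Perm (Fin 14))⁻¹ := by
      have := congrArg Subtype.val hj
      simpa using this
    -- g commutes with u, hence with k s k⁻¹
    have hgu : Commute g (u ^ j) := by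
      rw [hu]
      exact ((Commute.refl g).pow_right _).zpow_right _
    rw [h4] at hgu
    set g' : Perm (Fin 14) := (k : Perm (Fin 14))⁻¹ * g * k with hg'
    have hg's : g' * s = s * g' := by
      have h5 : g * ((k : Perm (Fin 14)) * s * (k : Perm (Fin 14))⁻¹)
        = ((k : Perm (Fin 14)) * s * (k : Perm (Fin 14))⁻¹) * g := hgu.eq
      have h6 := congrArg (fun x => (k : Perm (Fin 14))⁻¹ * x * k) h5
      rw [hg']
      calc (k : Perm (Fin 14))⁻¹ * g * k * s
          = (k : Perm (Fin 14))⁻¹ * (g * ((k : Perm (Fin 14)) * s * (k : Perm (Fin 14))⁻¹)) * k := by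
            group
        _ = (k : Perm (Fin 14))⁻¹ * (((k : Perm (Fin 14)) * s * (k : Perm (Fin 14))⁻¹) * g) * k :=
            h6
        _ = s * ((k : Perm (Fin 14))⁻¹ * g * k) := by group
    have hg'H : g' ∈ H := H.mul_mem (H.mul_mem (H.inv_mem k.2) hg) k.2
    have h7' := centralizer_pow (hA hg'H) hg's
    have hgg' : g = k * g' * (k : Perm (Fin 14))⁻¹ := by rw [hg']; group
    rw [hgg', conj_pow, h7']; group
  by_cases h13 : 13 ∣ o
  · right; right
    set u : Perm (Fin 14) := g ^ (o / 13) with hu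
    have hou : orderOf u = 13 := by
      rw [hu]
      have := orderOf_pow_of_dvd (x := g) (n := o / 13) (by omega) (Nat.div_dvd_of_dvd h13)
      rw [this, ← ho, Nat.div_div_self h13 hopos.ne']
    have h1 : u.support.card = 13 := by
      rw [← sum_cycleType, ct13 hou]; rfl
    obtain ⟨a, ha⟩ : ∃ a, a ∈ u.supportᶜ := by
      rw [← Finset.nonempty_def, ← Finset.card_pos, Finset.card_compl, h1, Fintype.card_fin]
      norm_num
    have hua : u a = a := by rwa [Finset.mem_compl, mem_support, not_not] at ha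
    obtain ⟨b, hb⟩ := exists_ne a
    have hgu : g * u = u * g := by
      rw [hu]; exact ((Commute.refl g).pow_right _).eq
    have h2 := cent13 hou hua hb hgu
    obtain ⟨j, hj⟩ := Subgroup.mem_zpowers_iff.1 h2
    rw [← hj, ← zpow_natCast, ← zpow_mul, mul_comm, zpow_mul, zpow_natCast, ← hou,
      pow_orderOf_eq_one, one_zpow]
  left
  have h12 : o ∣ 12 := by
    have e : (1092 : ℕ) = 12 * 7 * 13 := by norm_num
    rw [e] at hdvd
    have c13 : Nat.Coprime o 13 := by
      rw [Nat.coprime_comm, (by norm_num : Nat.Prime 13).coprime_iff_not_dvd]; exact h13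
    have c7 : Nat.Coprime o 7 := by
      rw [Nat.coprime_comm, (by norm_num : Nat.Prime 7).coprime_iff_not_dvd]; exact h7
    exact c7.dvd_of_dvd_mul_right (c13.dvd_of_dvd_mul_right hdvd)
  have h4 : ¬ 4 ∣ o := by
    intro h4
    set u : Perm (Fin 14) := g ^ (o / 4) with hu
    have hou : orderOf u = 4 := by
      rw [hu]
      have := orderOf_pow_of_dvd (x := g) (n := o / 4) (by omega) (Nat.div_dvd_of_dvd h4)
      rw [this, ← ho, Nat.div_div_self h4 hopos.ne']
    have huH : u ∈ H := H.pow_mem hg _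
    have hfac : (Nat.card H).factorization 2 = 2 := by
      rw [hcard]
      have hp : Nat.Prime 2 := by norm_num
      have h1 := (hp.pow_dvd_iff_le_factorization (k := 2) (n := 1092) (by norm_num)).1
        (by norm_num)
      have h3 : ¬ (3 ≤ (1092 : ℕ).factorization 2) := fun h => by
        have := (hp.pow_dvd_iff_le_factorization (n := 1092) (by norm_num)).2 h
        norm_num at this
      omega
    let P : Sylow 2 H := Sylow.ofCard (Subgroup.zpowers (⟨u, huH⟩ : H))
      (by rw [Nat.card_zpowers, Subgroup.orderOf_mk, hou, hfac]; rfl)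
    apply not_cyclic2 hprim P
    change IsCyclic (Subgroup.zpowers (⟨u, huH⟩ : H))
    infer_instance
  have h6 : o ∣ 6 := by
    have hle : o ≤ 12 := Nat.le_of_dvd (by norm_num) h12
    interval_cases o <;> omega
  exact orderOf_dvd_iff_pow_eq_one.1 h6

/-- a 13-cycle of `H` fixing 0, sending 7 to 1, inverted by `mu6` -/
theorem exists_z' (hA : H ≤ alternatingGroup (Fin 14)) (hprim : IsPreprimitive H (Fin 14))
    (no3 : ∀ g ∈ H, ¬ g.IsThreeCycle) (hs : s ∈ H) (hμ : mu6 ∈ H ∨ mu2 ∈ H) :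
    ∃ z ∈ H, orderOf z = 13 ∧ z 0 = 0 ∧ z 7 = 1 ∧ mu6 * z = z⁻¹ * mu6 := by
  obtain ⟨hcard, h14, h78⟩ := order_H hA hprim no3 hs hμ
  have hμ6 := mu6_mem hs h14 hμ
  have h2t := two_trans hprim hs hμ
  obtain ⟨z, hzH, hz0, hoz⟩ := exists_z hprim h2t
  have hN := h78 z hzH hoz hz0
  set N := Subgroup.normalizer ((Subgroup.zpowers (⟨z, hzH⟩ : H) : Subgroup H) : Set H) with hNdef
  have htr1 : IsPretransitive H (Fin 14) := hprim.toIsPretransitive
  have hst : Nat.card (stabilizer H (0 : Fin 14)) = 78 := by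
    have h1 := (stabilizer H (0 : Fin 14)).card_mul_index
    have h2 : (stabilizer H (0 : Fin 14)).index = 14 := by
      rw [index_stabilizer_of_transitive, Nat.card_eq_fintype_card, Fintype.card_fin]
    rw [h2, hcard] at h1
    omega
  have hle : N ≤ stabilizer H (0 : Fin 14) := by
    intro x hx
    have h2 : (⟨z, hzH⟩ : H) ∈ Subgroup.zpowers (⟨z, hzH⟩ : H) := Subgroup.mem_zpowers _
    have h3 := (Subgroup.mem_normalizer_iff''.1 hx _).1 h2
    obtain ⟨j, hj⟩ := Subgroup.mem_zpowers_iff.1 h3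
    have h4 : z ^ j = (x : Perm (Fin 14))⁻¹ * z * (x : Perm (Fin 14)) := by
      have := congrArg Subtype.val hj
      simpa using this
    have h5 : z ((x : Perm (Fin 14)) 0) = (x : Perm (Fin 14)) 0 := by
      have h6 : (z ^ j) 0 = 0 := Equiv.Perm.zpow_apply_eq_self_of_apply_eq_self hz0 j
      rw [h4] at h6
      simp only [Perm.mul_apply] at h6
      rw [Perm.inv_eq_iff_eq] at h6
      exact h6
    exact fix13 hoz h5 hz0
  have hNeq : N = stabilizer H (0 : Fin 14) := by
    apply Subgroup.eq_of_le_of_card_ge hle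
    rw [hN, hst]
  have hμN : (⟨mu6, hμ6⟩ : H) ∈ N := by
    rw [hNeq, mem_stabilizer_iff]
    change mu6 0 = 0
    decide
  have h2 : (⟨z, hzH⟩ : H) ∈ Subgroup.zpowers (⟨z, hzH⟩ : H) := Subgroup.mem_zpowers _
  have h3 := (Subgroup.mem_normalizer_iff.1 hμN _).1 h2
  rw [← mem_powers_iff_mem_zpowers] at h3
  obtain ⟨j, hj⟩ := h3
  have h4 : mu6 * z * mu6⁻¹ = z ^ j := by
    have := congrArg Subtype.val hj
    simpa using this.symm
  have h5 := conj_pow_iter h4 2
  rw [mu6_pow] at h5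
  have h6 : z = z ^ (j ^ 2) := by simpa using h5
  have h7 : j ^ 2 ≡ 1 [MOD 13] := by
    have : z ^ (j ^ 2) = z ^ 1 := by rw [← h6, pow_one]
    rwa [pow_eq_pow_iff_modEq, hoz] at this
  have hj13 : j % 13 = 1 ∨ j % 13 = 12 := by
    have h8 : (j % 13) ^ 2 % 13 = 1 := by
      have h9 : (j % 13) ^ 2 ≡ j ^ 2 [MOD 13] := (Nat.mod_modEq j 13).pow 2
      exact (h9.trans h7)
    have h10 : j % 13 < 13 := Nat.mod_lt _ (by norm_num)
    have key : ∀ r < 13, r ^ 2 % 13 = 1 → r = 1 ∨ r = 12 := by decide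
    exact key _ h10 h8
  have hinv : mu6 * z = z⁻¹ * mu6 := by
    rcases hj13 with h | h
    · exfalso
      have h8 : z ^ j = z ^ 1 := by
        rw [pow_eq_pow_iff_modEq, hoz]; exact h
      rw [h8, pow_one] at h4
      have h9 : mu6 * z = z * mu6 := by
        conv_rhs => rw [← h4]
        group
      have h10 := cent13 hoz hz0 (b := 7) (by decide) h9
      obtain ⟨i, hi⟩ := Subgroup.mem_zpowers_iff.1 h10
      have h11 : mu6 ^ 13 = 1 := by
        rw [← hi, ← zpow_natCast, ← zpow_mul, mul_comm, zpow_mul, zpow_natCast, ← hoz,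
          pow_orderOf_eq_one, one_zpow]
      have h12 : mu6 ^ 13 = mu6 := by
        have e : (13 : ℕ) = 2 * 6 + 1 := by norm_num
        rw [e, pow_succ, pow_mul, mu6_pow, one_pow, one_mul]
      exact mu6_ne (h12.symm.trans h11)
    · have h8 : z ^ j = z ^ 12 := by
        rw [pow_eq_pow_iff_modEq, hoz]; exact h
      have h9 : z ^ 12 = z⁻¹ := by
        have : z ^ 13 = 1 := by rw [← hoz, pow_orderOf_eq_one]
        rw [eq_inv_iff_mul_eq_one, ← pow_succ, this]
      rw [h8, h9] at h4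
      rw [← h4]; group
  -- normalise
  have hmv : ∀ q, q ≠ 0 → z q ≠ q := fun q hq h => hq (fix13 hoz h hz0)
  obtain ⟨i, hi⟩ := (cyc13 hoz).exists_zpow_eq (hmv 7 (by decide)) (hmv 1 (by decide))
  refine ⟨z ^ i, H.zpow_mem hzH i, ?_, ?_, hi, ?_⟩
  · apply orderOf_eq_prime
    · have : z ^ 13 = 1 := by rw [← hoz, pow_orderOf_eq_one]
      rw [← zpow_natCast, ← zpow_mul, mul_comm, zpow_mul, zpow_natCast, this, one_zpow]
    · intro h
      rw [h] at hi
      exact absurd hi (by decide)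
  · exact Equiv.Perm.zpow_apply_eq_self_of_apply_eq_self hz0 i
  · have h8 : mu6 * z * mu6⁻¹ = z⁻¹ := by rw [hinv]; group
    have h9 : mu6 * z ^ i * mu6⁻¹ = (z⁻¹) ^ i := by rw [← conj_zpow, h8]
    have h10 : mu6 * z ^ i = (mu6 * z ^ i * mu6⁻¹) * mu6 := by group
    rw [h10, h9, inv_zpow]

end Pool.Agent.Helper95.TDS
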