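import Pool.Agent.Helper95.TDS.NormS

/-!
Sylow 7-subgroups of primitive subgroups of the alternating group of degree 14 containing `s`.
-/

namespace Pool.Agent.Helper95.TDS

open Equiv Equiv.Perm MulAction

variable {H : Subgroup (Perm (Fin 14))}

theorem seven_dvd (hs : s ∈ H) : 7 ∣ Nat.card H := by
  have : orderOf (⟨s, hs⟩ : H) ∣ Nat.card H := orderOf_dvd_natCard _
  rwa [Subgroup.orderOf_mk, orderOf_s] at this

theorem sylow7 (hA : H ≤ alternatingGroup (Fin 14)) (hprim : IsPreprimitive H (Fin 14))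
    (no3 : ∀ g ∈ H, ¬ g.IsThreeCycle) (hs : s ∈ H) :
    ∃ P : Sylow 7 H, (P : Subgroup H) = Subgroup.zpowers (⟨s, hs⟩ : H) ∧
      Nat.card (P : Subgroup H) = 7 ∧
      Subgroup.centralizer ((P : Subgroup H) : Set H) ≤ (P : Subgroup H) := by
  have h49 := not_49 hprim no3
  have hcard : Nat.card (Subgroup.zpowers (⟨s, hs⟩ : H)) = 7 := by
    rw [Nat.card_zpowers, Subgroup.orderOf_mk, orderOf_s]
  have hfac : (Nat.card H).factorization 7 = 1 := by
    have hne : Nat.card H ≠ 0 := Nat.card_pos.ne'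
    have hp : Nat.Prime 7 := by norm_num
    have h1 := (hp.pow_dvd_iff_le_factorization (k := 1) hne).1 (by simpa using seven_dvd hs)
    have h3 : ¬ (2 ≤ (Nat.card H).factorization 7) := fun h =>
      h49 ((hp.pow_dvd_iff_le_factorization hne).2 h)
    omega
  let P : Sylow 7 H := Sylow.ofCard (Subgroup.zpowers (⟨s, hs⟩ : H)) (by rw [hcard, hfac]; rfl)
  have hP : (P : Subgroup H) = Subgroup.zpowers (⟨s, hs⟩ : H) := rfl
  refine ⟨P, hP, by rw [hP, hcard], ?_⟩
  rw [hP]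
  set C := Subgroup.centralizer ((Subgroup.zpowers (⟨s, hs⟩ : H) : Subgroup H) : Set H) with hC
  have hpow : ∀ g ∈ C, g ^ 7 = 1 := by
    intro g hg
    rw [hC, Subgroup.mem_centralizer_iff] at hg
    have h1 := hg ⟨s, hs⟩ (Subgroup.mem_zpowers _)
    have h2 : s * (g : Perm (Fin 14)) = (g : Perm (Fin 14)) * s := congrArg Subtype.val h1
    have h3 := centralizer_pow (hA g.2) h2.symm
    exact Subtype.ext h3
  have hCp : IsPGroup 7 C := by
    intro g
    refine ⟨1, ?_⟩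
    apply Subtype.ext
    rw [pow_one]
    exact hpow g g.2
  obtain ⟨n, hn⟩ := hCp.exists_card_eq
  have hle : Subgroup.zpowers (⟨s, hs⟩ : H) ≤ C := by
    rw [hC]
    intro x hx
    rw [Subgroup.mem_centralizer_iff]
    intro y hy
    exact (Subgroup.mem_zpowers_iff.1 hx).elim fun i hi =>
      (Subgroup.mem_zpowers_iff.1 hy).elim fun j hj => by
        rw [← hi, ← hj, ← zpow_add, ← zpow_add, add_comm]
  have hdvd : Nat.card C ∣ Nat.card H := Subgroup.card_subgroup_dvd_card C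
  have hn1 : n ≤ 1 := by
    by_contra hcon
    apply h49
    refine dvd_trans ?_ hdvd
    rw [hn]
    exact pow_dvd_pow 7 (by omega)
  have hcc : Nat.card C ≤ Nat.card (Subgroup.zpowers (⟨s, hs⟩ : H)) := by
    rw [hn, hcard]
    calc 7 ^ n ≤ 7 ^ 1 := Nat.pow_le_pow_right (by norm_num) hn1
      _ = 7 := by norm_num
  exact (Subgroup.eq_of_le_of_card_ge hle hcc).ge

theorem card_norm7 (hA : H ≤ alternatingGroup (Fin 14)) (hprim : IsPreprimitive H (Fin 14))
    (no3 : ∀ g ∈ H, ¬ g.IsThreeCycle) (hs : s ∈ H) :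
    Nat.card (Subgroup.normalizer ((Subgroup.zpowers (⟨s, hs⟩ : H) : Subgroup H) : Set H)) ∣ 42 := by
  obtain ⟨P, hP, hc, hC⟩ := sylow7 hA hprim no3 hs
  rw [hP] at hC hc
  exact card_normalizer_dvd (p := 7) _ hc hC

/-- `H` contains an element inducing a nontrivial automorphism on the subgroup of `s`. -/
theorem exists_norm (hA : H ≤ alternatingGroup (Fin 14)) (hprim : IsPreprimitive H (Fin 14))
    (no3 : ∀ g ∈ H, ¬ g.IsThreeCycle) (hs : s ∈ H) :
    ∃ g ∈ H, g * s = s ^ 6 * g ∨ g * s = s ^ 2 * g := by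
  obtain ⟨P, hP, hc, hC⟩ := sylow7 hA hprim no3 hs
  have h1 : ¬ Subgroup.normalizer (P : Set H) ≤ Subgroup.centralizer (P : Set H) :=
    fun h => not_normalizer_le hprim (p := 7) (by norm_num) P h
  rw [SetLike.not_le_iff_exists] at h1
  obtain ⟨g, hgN, hgC⟩ := h1
  have hsP : (⟨s, hs⟩ : H) ∈ (P : Subgroup H) := by rw [hP]; exact Subgroup.mem_zpowers _
  have h2 : g * ⟨s, hs⟩ * g⁻¹ ∈ (P : Subgroup H) := (Subgroup.mem_normalizer_iff.1 hgN _).1 hsP
  rw [hP, ← mem_powers_iff_mem_zpowers] at h2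
  obtain ⟨k, hk⟩ := h2
  have hk' : (g : Perm (Fin 14)) * s * (g : Perm (Fin 14))⁻¹ = s ^ k := by
    have := congrArg Subtype.val hk
    simpa using this.symm
  -- k mod 7
  have hk1 : ¬ k % 7 = 1 := by
    intro h
    apply hgC
    rw [Subgroup.mem_centralizer_iff]
    intro y hy
    have hy' : y ∈ (P : Subgroup H) := hy
    rw [hP] at hy'
    obtain ⟨i, hi⟩ := Subgroup.mem_zpowers_iff.1 hy'
    have hsk : s ^ k = s := by
      conv_rhs => rw [← pow_one s]
      rw [pow_eq_pow_iff_modEq, orderOf_s]; exact h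
    rw [hsk] at hk'
    have hcomm : Commute (g : Perm (Fin 14)) s := by
      have h := congrArg (· * (g : Perm (Fin 14))) hk'
      have h2 : (g : Perm (Fin 14)) * s = s * g := by simpa using h
      exact h2
    rw [← hi]
    apply Subtype.ext
    have := (hcomm.zpow_right i).eq
    simpa using this.symm
  have hk0 : ¬ k % 7 = 0 := by
    intro h
    have hsk : s ^ k = 1 := by
      rw [← orderOf_dvd_iff_pow_eq_one, orderOf_s]; omega
    rw [hsk] at hk'
    have : s = 1 := by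
      have := congrArg (fun z => (g : Perm (Fin 14))⁻¹ * z * g) hk'
      simpa [mul_assoc] using this
    exact s_ne this
  have hit := fun j => conj_pow_iter hk' j
  have fin : ∀ j l : ℕ, k ^ j ≡ l [MOD 7] → (g : Perm (Fin 14)) ^ j * s = s ^ l * g ^ j := by
    intro j l hjl
    have h3 := hit j
    have h4 : s ^ (k ^ j) = s ^ l := by
      rw [pow_eq_pow_iff_modEq, orderOf_s]; exact hjl
    rw [h4] at h3
    rw [← h3]; group
  have hmod : ∀ r j l : ℕ, k % 7 = r → r ^ j % 7 = l % 7 → k ^ j ≡ l [MOD 7] := by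
    intro r j l h1 h2
    have : k ≡ r [MOD 7] := by rw [Nat.ModEq, h1]; omega
    exact (this.pow j).trans h2
  have hk7 : k % 7 < 7 := Nat.mod_lt _ (by norm_num)
  have : k % 7 = 2 ∨ k % 7 = 3 ∨ k % 7 = 4 ∨ k % 7 = 5 ∨ k % 7 = 6 := by omega
  rcases this with h | h | h | h | h
  · exact ⟨g ^ 1, H.pow_mem g.2 1, Or.inr (fin 1 2 (hmod _ _ _ h (by norm_num)))⟩
  · exact ⟨g ^ 3, H.pow_mem g.2 3, Or.inl (fin 3 6 (hmod _ _ _ h (by norm_num)))⟩
  · exact ⟨g ^ 2, H.pow_mem g.2 2, Or.inr (fin 2 2 (hmod _ _ _ h (by norm_num)))⟩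
  · exact ⟨g ^ 3, H.pow_mem g.2 3, Or.inl (fin 3 6 (hmod _ _ _ h (by norm_num)))⟩
  · exact ⟨g ^ 1, H.pow_mem g.2 1, Or.inl (fin 1 6 (hmod _ _ _ h (by norm_num)))⟩

/-- conjugate subgroup -/
def cj (c : Perm (Fin 14)) (H : Subgroup (Perm (Fin 14))) : Subgroup (Perm (Fin 14)) :=
  H.map (MulAut.conj c).toMonoidHom

theorem mem_cj {c g : Perm (Fin 14)} : c * g * c⁻¹ ∈ cj c H ↔ g ∈ H := by
  constructor
  · rintro ⟨y, hy, h⟩
    have : c * y * c⁻¹ = c * g * c⁻¹ := h
    have h2 : y = g := by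
      have := congrArg (fun z => c⁻¹ * z * c) this
      simpa [mul_assoc] using this
    rwa [← h2]
  · intro h
    exact ⟨g, h, rfl⟩

theorem mem_cj' {c g : Perm (Fin 14)} : g ∈ cj c H ↔ c⁻¹ * g * c ∈ H := by
  have h := mem_cj (H := H) (c := c) (g := c⁻¹ * g * c)
  have : c * (c⁻¹ * g * c) * c⁻¹ = g := by group
  rwa [this] at h

theorem cj_le (c : Perm (Fin 14)) (hA : H ≤ alternatingGroup (Fin 14)) :
    cj c H ≤ alternatingGroup (Fin 14) := by
  intro g hg
  rw [mem_cj'] at hg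
  have := hA hg
  rw [mem_alternatingGroup] at this ⊢
  rw [Perm.sign_mul, Perm.sign_mul, Perm.sign_inv] at this
  rw [← this]
  rw [mul_comm (Perm.sign c), mul_assoc, Int.units_mul_self, mul_one]

theorem cj_no3 (c : Perm (Fin 14)) (no3 : ∀ g ∈ H, ¬ g.IsThreeCycle) :
    ∀ g ∈ cj c H, ¬ g.IsThreeCycle := by
  intro g hg h3
  rw [mem_cj'] at hg
  apply no3 _ hg
  rw [← card_support_eq_three_iff] at h3 ⊢
  have := card_support_conj (σ := c⁻¹) (τ := g)
  rw [inv_inv] at this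
  rw [this, h3]

theorem cj_card (c : Perm (Fin 14)) : Nat.card (cj c H) = Nat.card H :=
  Subgroup.card_map_of_injective (MulAut.conj c).injective

theorem cj_prim (c : Perm (Fin 14)) (hprim : IsPreprimitive H (Fin 14)) :
    IsPreprimitive (cj c H) (Fin 14) := by
  let φ : H → cj c H := fun h => ⟨c * h * c⁻¹, mem_cj.2 h.2⟩
  let f : Fin 14 →ₑ[φ] Fin 14 :=
    { toFun := c
      map_smul' := fun h x => by
        change c ((h : Perm (Fin 14)) x) = (c * h * c⁻¹) (c x)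
        rw [Perm.mul_apply, Perm.mul_apply, pia] }
  exact IsPreprimitive.of_surjective (f := f) c.surjective

theorem cj_s {c : Perm (Fin 14)} (hc : Commute s c) (hs : s ∈ H) : s ∈ cj c H := by
  rw [mem_cj']
  have : c⁻¹ * s * c = s := by
    rw [mul_assoc, hc.eq, inv_mul_cancel_left]
  rwa [this]

theorem comm_tr (a b : ℕ) : Commute s (sA ^ a * sB ^ b) :=
  (comm_sA.pow_right a).mul_right (comm_sB.pow_right b)

/-- reduction to groups containing `mu6` or `mu2` -/
theorem exists_cj (hA : H ≤ alternatingGroup (Fin 14)) (hprim : IsPreprimitive H (Fin 14))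
    (no3 : ∀ g ∈ H, ¬ g.IsThreeCycle) (hs : s ∈ H) :
    ∃ a b : ℕ, mu6 ∈ cj (sA ^ a * sB ^ b) H ∨ mu2 ∈ cj (sA ^ a * sB ^ b) H := by
  obtain ⟨g, hg, h | h⟩ := exists_norm hA hprim no3 hs
  · obtain ⟨a, b, hab⟩ := norm_form (hA hg) cod_mu6 chkM6 h
    exact ⟨a, b, Or.inl (by rw [← hab]; exact mem_cj.2 hg)⟩
  · obtain ⟨a, b, hab⟩ := norm_form (hA hg) cod_mu2 chkM2 h
    exact ⟨a, b, Or.inr (by rw [← hab]; exact mem_cj.2 hg)⟩

end Pool.Agent.Helper95.TDS
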