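import Pool.Agent.Helper95.TDS.SylS

/-!
Sylow 13-subgroups of doubly transitive subgroups of the alternating group of degree 14.
-/

namespace Pool.Agent.Helper95.TDS

open Equiv Equiv.Perm MulAction

/-- standard 13-cycle -/
def z0 : Perm (Fin 14) := mkP 8386703306081056 57325819256840656 (by decide)
/-- it is squared by this odd permutation -/
def nu0 : Perm (Fin 14) := mkP 57005567005643536 35303511431915536 (by decide)

theorem cod_z0 : Cod 8386703306081056 z0 := cod_mkP _ _ _
theorem cod_nu0 : Cod 57005567005643536 nu0 := cod_mkP _ _ _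

theorem z0_pow : z0 ^ 13 = 1 := by
  refine Cod.eq (c := idc) ?_ cod_one
  have := cod_z0.pow 13
  have e : pw 8386703306081056 13 = idc := by decide +kernel
  rwa [e] at this

theorem z0_ne : z0 ≠ 1 := by
  intro h
  have := congrArg (fun f : Perm (Fin 14) => (f 1).val) h
  revert this
  decide

theorem orderOf_z0 : orderOf z0 = 13 := orderOf_eq_prime z0_pow z0_ne

theorem nu0_z0 : nu0 * z0 = z0 ^ 2 * nu0 := by
  refine Cod.eq (c := comp 57005567005643536 8386703306081056) (cod_nu0.mul cod_z0) ?_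
  have := (cod_z0.pow 2).mul cod_nu0
  have e : comp 57005567005643536 8386703306081056
    = comp (pw 8386703306081056 2) 57005567005643536 := by decide +kernel
  rwa [e]

theorem sign_nu0 : Perm.sign nu0 = -1 := by
  rw [sign_eq cod_nu0]
  have : par 57005567005643536 = true := by decide +kernel
  rw [this]; rfl

theorem ct13 {z : Perm (Fin 14)} (hz : orderOf z = 13) : z.cycleType = {13} := by
  obtain ⟨n, hn⟩ := cycleType_prime_order (σ := z) (by rw [hz]; norm_num)
  have hsum := sum_cycleType z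
  have hle : z.support.card ≤ 14 := by
    have := Finset.card_le_univ z.support
    simpa using this
  rw [hn, Multiset.sum_replicate, hz, smul_eq_mul] at hsum
  have hn0 : n = 0 := by omega
  rw [hn, hn0, hz]
  rfl

theorem cyc13 {z : Perm (Fin 14)} (hz : orderOf z = 13) : z.IsCycle := by
  rw [← card_cycleType_eq_one, ct13 hz]; rfl

theorem fix13 {z : Perm (Fin 14)} (hz : orderOf z = 13) {a b : Fin 14} (ha : z a = a)
    (hb : z b = b) : a = b := by
  by_contra hab
  have h1 : z.support.card = 13 := by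
    rw [← sum_cycleType, ct13 hz]; rfl
  have h2 : z.supportᶜ.card = 1 := by
    rw [Finset.card_compl, h1, Fintype.card_fin]
  obtain ⟨c, hc⟩ := Finset.card_eq_one.1 h2
  have ha' : a ∈ z.supportᶜ := by rwa [Finset.mem_compl, mem_support, not_not]
  have hb' : b ∈ z.supportᶜ := by rwa [Finset.mem_compl, mem_support, not_not]
  rw [hc, Finset.mem_singleton] at ha' hb'
  exact hab (ha'.trans hb'.symm)

theorem cent13 {z x : Perm (Fin 14)} (hz : orderOf z = 13) {a b : Fin 14} (ha : z a = a)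
    (hab : b ≠ a) (hx : x * z = z * x) : x ∈ Subgroup.zpowers z := by
  have hc := cyc13 hz
  have hmv : ∀ q, q ≠ a → z q ≠ q := fun q hq h => hq (fix13 hz h ha)
  have hxz : ∀ q, x (z q) = z (x q) := fun q => congrArg (fun f : Perm (Fin 14) => f q) hx
  have hxa : x a = a := by
    refine fix13 hz ?_ ha
    rw [← hxz, ha]
  have hxb : x b ≠ a := by
    intro h
    exact hab (x.injective (h.trans hxa.symm))
  obtain ⟨i, hi⟩ := hc.exists_zpow_eq (hmv b hab) (hmv _ hxb)
  refine Subgroup.mem_zpowers_iff.2 ⟨i, ?_⟩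
  ext q
  by_cases hq : q = a
  · subst hq
    rw [hxa]
    have : (z ^ i) q = q := Equiv.Perm.zpow_apply_eq_self_of_apply_eq_self ha i
    rw [this]
  · obtain ⟨j, hj⟩ := hc.exists_zpow_eq (hmv b hab) (hmv _ hq)
    have hcomm : Commute x (z ^ j) := Commute.zpow_right hx j
    have h1 : x ((z ^ j) b) = (z ^ j) (x b) := congrArg (fun f : Perm (Fin 14) => f b) hcomm.eq
    rw [← hj, h1, ← hi, ← Perm.mul_apply, ← Perm.mul_apply, ← zpow_add, ← zpow_add, add_comm]

/-- the normaliser in the alternating group of a subgroup of order 13 -/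
theorem card_normA {z : Perm (Fin 14)} (hz : orderOf z = 13) {a b : Fin 14} (ha : z a = a)
    (hab : b ≠ a) :
    Nat.card ((Subgroup.normalizer ((Subgroup.zpowers z : Subgroup (Perm (Fin 14))) :
      Set (Perm (Fin 14))) ⊓ alternatingGroup (Fin 14) : Subgroup (Perm (Fin 14)))) ∣ 78 := by
  set N := Subgroup.normalizer ((Subgroup.zpowers z : Subgroup (Perm (Fin 14))) :
      Set (Perm (Fin 14))) with hN
  have hN156 : Nat.card N ∣ 13 * (13 - 1) := by
    refine card_normalizer_dvd (p := 13) (Subgroup.zpowers z) (by rw [Nat.card_zpowers, hz]) ?_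
    intro x hx
    rw [Subgroup.mem_centralizer_iff] at hx
    exact cent13 hz ha hab (hx z (Subgroup.mem_zpowers z)).symm
  -- an odd element of N
  have hconj : IsConj z z0 := by
    rw [isConj_iff_cycleType_eq, ct13 hz, ct13 orderOf_z0]
  obtain ⟨c, hc⟩ := isConj_iff.1 hconj
  set ν := c⁻¹ * nu0 * c with hν
  have hzc : z = c⁻¹ * z0 * c := by rw [← hc]; group
  have hνz : ν * z * ν⁻¹ = z ^ 2 := by
    have h1 : nu0 * z0 * nu0⁻¹ = z0 ^ 2 := by rw [nu0_z0]; group
    have h2 : ν * z * ν⁻¹ = c⁻¹ * (nu0 * z0 * nu0⁻¹) * c := by rw [hν, hzc]; group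
    rw [h2, h1, hzc, pow_two, pow_two]; group
  have hνN : ν ∈ N := by
    rw [hN]
    apply Subgroup.mem_normalizer_fintype
    intro n hn
    obtain ⟨i, hi⟩ := Subgroup.mem_zpowers_iff.1 hn
    have : ν * n * ν⁻¹ = (z ^ 2) ^ i := by rw [← hi, ← hνz, conj_zpow]
    rw [this]
    exact Subgroup.zpow_mem _ (Subgroup.pow_mem _ (Subgroup.mem_zpowers z) 2) i
  have hνs : Perm.sign ν = -1 := by
    rw [hν, Perm.sign_mul, Perm.sign_mul, Perm.sign_inv, sign_nu0, mul_comm (Perm.sign c),
      mul_assoc, Int.units_mul_self, mul_one]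
  have hrel2 : (alternatingGroup (Fin 14)).relIndex N ∣ 2 := by
    rw [← alternatingGroup.index_eq_two (α := Fin 14)]
    exact Subgroup.relIndex_dvd_index_of_normal _ _
  have hrel1 : (alternatingGroup (Fin 14)).relIndex N ≠ 1 := by
    rw [ne_eq, Subgroup.relIndex_eq_one]
    intro hle
    have := hle hνN
    rw [mem_alternatingGroup, hνs] at this
    exact absurd this (by decide)
  have hrel : (alternatingGroup (Fin 14)).relIndex N = 2 := by
    rcases (Nat.dvd_prime Nat.prime_two).1 hrel2 with h | h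
    · exact absurd h hrel1
    · exact h
  have h1 := ((alternatingGroup (Fin 14)).subgroupOf N).card_mul_index
  rw [show ((alternatingGroup (Fin 14)).subgroupOf N).index = 2 from hrel] at h1
  have h2 : Nat.card ((alternatingGroup (Fin 14)).subgroupOf N)
      = Nat.card (N ⊓ alternatingGroup (Fin 14) : Subgroup (Perm (Fin 14))) := by
    rw [← Subgroup.inf_subgroupOf_left, inf_comm]
    exact Nat.card_congr (Subgroup.subgroupOfEquivOfLe inf_le_right).toEquiv
  rw [h2] at h1
  rw [← h1] at hN156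
  have h3 : Nat.card (N ⊓ alternatingGroup (Fin 14) : Subgroup (Perm (Fin 14))) * 2 ∣ 78 * 2 :=
    hN156
  exact Nat.dvd_of_mul_dvd_mul_right (by norm_num) h3

variable {H : Subgroup (Perm (Fin 14))}

/-- an element of order 13 fixing 0 -/
theorem exists_z (hprim : IsPreprimitive H (Fin 14))
    (h2t : IsMultiplyPretransitive H (Fin 14) 2) : ∃ z ∈ H, z 0 = 0 ∧ orderOf z = 13 := by
  have htr1 : IsPretransitive H (Fin 14) := hprim.toIsPretransitive
  have htr2 : IsPretransitive (stabilizer H (0 : Fin 14))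
      (SubMulAction.ofStabilizer H (0 : Fin 14)) := by
    rw [← is_one_pretransitive_iff]
    exact SubMulAction.ofStabilizer.isMultiplyPretransitive.1 h2t
  have hcard : Nat.card (SubMulAction.ofStabilizer H (0 : Fin 14)) = 13 := by
    have := SubMulAction.nat_card_ofStabilizer_add_one_eq H (α := Fin 14) 0
    rw [Nat.card_eq_fintype_card (α := Fin 14), Fintype.card_fin] at this
    omega
  have h7 : (7 : Fin 14) ∈ SubMulAction.ofStabilizer H (0 : Fin 14) := by
    rw [SubMulAction.mem_ofStabilizer_iff]; decide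
  have hidx : (stabilizer (stabilizer H (0 : Fin 14))
      (⟨7, h7⟩ : SubMulAction.ofStabilizer H (0 : Fin 14))).index = 13 := by
    rw [index_stabilizer_of_transitive, hcard]
  have hdvd : 13 ∣ Nat.card (stabilizer H (0 : Fin 14)) := by
    have := Subgroup.index_dvd_card (stabilizer (stabilizer H (0 : Fin 14))
      (⟨7, h7⟩ : SubMulAction.ofStabilizer H (0 : Fin 14)))
    rwa [hidx] at this
  obtain ⟨g, hg⟩ := exists_prime_orderOf_dvd_card' (G := stabilizer H (0 : Fin 14)) 13 hdvd
  exact ⟨((g : H) : Perm (Fin 14)), (g : H).2, g.2, by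
    rw [Subgroup.orderOf_coe, Subgroup.orderOf_coe, hg]⟩

theorem dvd_182 (hprim : IsPreprimitive H (Fin 14))
    (h2t : IsMultiplyPretransitive H (Fin 14) 2) : 182 ∣ Nat.card H := by
  obtain ⟨z, hz, _, ho⟩ := exists_z hprim h2t
  have h13 : 13 ∣ Nat.card H := by
    have : orderOf (⟨z, hz⟩ : H) ∣ Nat.card H := orderOf_dvd_natCard _
    rwa [Subgroup.orderOf_mk, ho] at this
  have h14 := dvd_card hprim.toIsPretransitive
  exact (Nat.Coprime.mul_dvd_of_dvd_of_dvd (by norm_num : Nat.Coprime 13 14) h13 h14)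

theorem card_norm13 (hA : H ≤ alternatingGroup (Fin 14)) {z : Perm (Fin 14)} (hzH : z ∈ H)
    (hz : orderOf z = 13) (hz0 : z 0 = 0) :
    Nat.card (Subgroup.normalizer ((Subgroup.zpowers (⟨z, hzH⟩ : H) : Subgroup H) : Set H)) ∣ 78 := by
  set N := Subgroup.normalizer ((Subgroup.zpowers (⟨z, hzH⟩ : H) : Subgroup H) : Set H) with hN
  refine dvd_trans ?_ (card_normA hz (b := 7) hz0 (by decide))
  have h1 : Nat.card (N.map H.subtype) = Nat.card N :=
    Subgroup.card_map_of_injective H.subtype_injective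
  rw [← h1]
  apply Subgroup.card_dvd_of_le
  rintro x ⟨y, hy, rfl⟩
  refine ⟨?_, hA y.2⟩
  apply Subgroup.mem_normalizer_fintype
  intro n hn
  obtain ⟨i, hi⟩ := Subgroup.mem_zpowers_iff.1 hn
  have h2 : (⟨z, hzH⟩ : H) ∈ Subgroup.zpowers (⟨z, hzH⟩ : H) := Subgroup.mem_zpowers _
  have h3 := (Subgroup.mem_normalizer_iff.1 hy _).1 h2
  obtain ⟨j, hj⟩ := Subgroup.mem_zpowers_iff.1 h3
  have h4 : z ^ j = (y : Perm (Fin 14)) * z * (y : Perm (Fin 14))⁻¹ := by
    have := congrArg Subtype.val hj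
    simpa using this
  have h5 : (H.subtype y) * n * (H.subtype y)⁻¹ = (z ^ j) ^ i := by
    rw [h4, ← hi, conj_zpow]; rfl
  rw [h5]
  exact Subgroup.zpow_mem _ (Subgroup.zpow_mem _ (Subgroup.mem_zpowers z) j) i

/-- Sylow 13-subgroup -/
theorem sylow13 {z : Perm (Fin 14)} (hzH : z ∈ H) (hz : orderOf z = 13) :
    ∃ P : Sylow 13 H, (P : Subgroup H) = Subgroup.zpowers (⟨z, hzH⟩ : H) := by
  have hcard : Nat.card (Subgroup.zpowers (⟨z, hzH⟩ : H)) = 13 := by
    rw [Nat.card_zpowers, Subgroup.orderOf_mk, hz]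
  have hfac : (Nat.card H).factorization 13 = 1 := by
    have hne : Nat.card H ≠ 0 := Nat.card_pos.ne'
    have hp : Nat.Prime 13 := by norm_num
    have h13 : 13 ∣ Nat.card H := by
      have : orderOf (⟨z, hzH⟩ : H) ∣ Nat.card H := orderOf_dvd_natCard _
      rwa [Subgroup.orderOf_mk, hz] at this
    have h1 := (hp.pow_dvd_iff_le_factorization (k := 1) hne).1 (by simpa using h13)
    have h3 : ¬ (2 ≤ (Nat.card H).factorization 13) := fun h => by
      have h4 := ((hp.pow_dvd_iff_le_factorization hne).2 h).trans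
        (Subgroup.card_subgroup_dvd_card H)
      rw [card_perm14] at h4
      norm_num at h4
    omega
  exact ⟨Sylow.ofCard (Subgroup.zpowers (⟨z, hzH⟩ : H)) (by rw [hcard, hfac]; rfl), rfl⟩

theorem card_norm13_ne (hA : H ≤ alternatingGroup (Fin 14)) (hprim : IsPreprimitive H (Fin 14))
    (no3 : ∀ g ∈ H, ¬ g.IsThreeCycle) (hs : s ∈ H) {z : Perm (Fin 14)} (hzH : z ∈ H)
    (hz : orderOf z = 13) :
    Nat.card (Subgroup.normalizer ((Subgroup.zpowers (⟨z, hzH⟩ : H) : Subgroup H) : Set H))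
      ≠ 13 := by
  intro hcard
  obtain ⟨P, hP⟩ := sylow13 hzH hz
  have hcP : Nat.card (P : Subgroup H) = 13 := by
    rw [hP, Nat.card_zpowers, Subgroup.orderOf_mk, hz]
  have hNP : Subgroup.normalizer ((P : Subgroup H) : Set H) = (P : Subgroup H) := by
    symm
    apply Subgroup.eq_of_le_of_card_ge Subgroup.le_normalizer
    rw [hcP, hP, hcard]
  have hle : Subgroup.normalizer (P : Set H) ≤ Subgroup.centralizer (P : Set H) := by
    have h1 : Subgroup.normalizer (P : Set H) = (P : Subgroup H) := hNP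
    rw [h1]
    intro x hx
    rw [Subgroup.mem_centralizer_iff]
    intro y hy
    have hy' : y ∈ (P : Subgroup H) := hy
    rw [hP] at hx hy'
    obtain ⟨i, hi⟩ := Subgroup.mem_zpowers_iff.1 hx
    obtain ⟨j, hj⟩ := Subgroup.mem_zpowers_iff.1 hy'
    rw [← hi, ← hj, ← zpow_add, ← zpow_add, add_comm]
  set T := MonoidHom.transferSylow P hle with hT
  set K := T.ker with hK
  have hcomp := MonoidHom.ker_transferSylow_isComplement' P hle
  have hidx : K.index = 13 := by
    rw [← hcP]
    exact hcomp.symm.index_eq_card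
  -- s ∈ K
  have hsK : (⟨s, hs⟩ : H) ∈ K := by
    rw [hK, MonoidHom.mem_ker]
    have h1 : (T ⟨s, hs⟩) ^ 7 = 1 := by
      rw [← map_pow]
      have : (⟨s, hs⟩ : H) ^ 7 = 1 := Subtype.ext s_pow7
      rw [this, map_one]
    have h2 : (T ⟨s, hs⟩) ^ 13 = 1 := by
      have h : (T ⟨s, hs⟩) ^ Nat.card (P : Subgroup H) = 1 := pow_card_eq_one'
      rwa [hcP] at h
    have h3 : orderOf (T ⟨s, hs⟩) ∣ Nat.gcd 7 13 :=
      Nat.dvd_gcd (orderOf_dvd_of_pow_eq_one h1) (orderOf_dvd_of_pow_eq_one h2)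
    have h4 : orderOf (T ⟨s, hs⟩) = 1 := by
      have : Nat.gcd 7 13 = 1 := by norm_num
      rw [this] at h3
      exact Nat.dvd_one.1 h3
    exact orderOf_eq_one_iff.1 h4
  -- Sylow 7-subgroup of K
  have h49 := not_49 hprim no3
  have hord : orderOf (⟨⟨s, hs⟩, hsK⟩ : K) = 7 := by
    rw [Subgroup.orderOf_mk, Subgroup.orderOf_mk, orderOf_s]
  have hfac : (Nat.card K).factorization 7 = 1 := by
    have hne : Nat.card K ≠ 0 := Nat.card_pos.ne'
    have hp : Nat.Prime 7 := by norm_num
    have h7 : 7 ∣ Nat.card K := by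
      rw [← hord]; exact orderOf_dvd_natCard _
    have h1 := (hp.pow_dvd_iff_le_factorization (k := 1) hne).1 (by simpa using h7)
    have h3 : ¬ (2 ≤ (Nat.card K).factorization 7) := fun h =>
      h49 (((hp.pow_dvd_iff_le_factorization hne).2 h).trans (Subgroup.card_subgroup_dvd_card K))
    omega
  let Q : Sylow 7 K := Sylow.ofCard (Subgroup.zpowers (⟨⟨s, hs⟩, hsK⟩ : K))
    (by rw [Nat.card_zpowers, hord, hfac]; rfl)
  have hQ : (Q : Subgroup K).map K.subtype = Subgroup.zpowers (⟨s, hs⟩ : H) := by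
    change (Subgroup.zpowers (⟨⟨s, hs⟩, hsK⟩ : K)).map K.subtype = _
    rw [MonoidHom.map_zpowers]; rfl
  have hfr := Sylow.normalizer_sup_eq_top Q
  rw [hQ] at hfr
  have h5 := Subgroup.relIndex_sup_right
    (Subgroup.normalizer ((Subgroup.zpowers (⟨s, hs⟩ : H) : Subgroup H) : Set H)) K
  rw [hfr, Subgroup.relIndex_top_right, hidx] at h5
  have h6 := Subgroup.relIndex_dvd_card K
    (Subgroup.normalizer ((Subgroup.zpowers (⟨s, hs⟩ : H) : Subgroup H) : Set H))
  rw [← h5] at h6
  have h7 := h6.trans (card_norm7 hA hprim no3 hs)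
  norm_num at h7

end Pool.Agent.Helper95.TDS
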