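import Pool.Agent.Helper95.TDS.Struct
import Pool.Agent.Helper95.TDS.Enum

/-!
The three possible 13-cycles.
-/

namespace Pool.Agent.Helper95.TDS

open Equiv Equiv.Perm MulAction

theorem build_eq (f : ℕ → ℕ) (n : ℕ) : build f n = ∑ i ∈ Finset.range n, f i * 16 ^ i := by
  induction n with
  | zero => rfl
  | succ n ih => rw [build_succ, Finset.sum_range_succ, ih]

theorem cod_sum {x : Perm (Fin 14)} :
    Cod (∑ q : Fin 14, (x q).val * 16 ^ q.val) x := by
  have h : (∑ q : Fin 14, (x q).val * 16 ^ q.val)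
      = build (fun i => if h : i < 14 then (x ⟨i, h⟩).val else 0) 14 := by
    rw [build_eq, ← Fin.sum_univ_eq_sum_range]
    apply Finset.sum_congr rfl
    intro q _
    rw [dif_pos q.2]
  rw [h]
  intro i
  rw [dg_build _ i.2, dif_pos i.2]
  intro j
  by_cases hj : j < 14
  · simp only [dif_pos hj]; omega
  · simp only [dif_neg hj]; norm_num

theorem P_inj {z : Perm (Fin 14)} (hz : orderOf z = 13) (h0 : z 0 = 0) {i j : ℕ} (hi : i < 13)
    (hj : j < 13) (h : (z ^ i) 7 = (z ^ j) 7) : i = j := by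
  -- if i < j then z ^ (j - i) fixes 7 and 0
  have key : ∀ i j : ℕ, i < j → j < 13 → (z ^ i) 7 ≠ (z ^ j) 7 := by
    intro i j hij hj h
    have h1 : (z ^ (j - i)) 7 = 7 := by
      have h2 : (z ^ j) 7 = (z ^ i) ((z ^ (j - i)) 7) := by
        rw [← Perm.mul_apply, ← pow_add]; congr 2; omega
      rw [h2] at h
      exact ((z ^ i).injective h).symm
    have h3 : (z ^ (j - i)) 0 = 0 := Equiv.Perm.pow_apply_eq_self_of_apply_eq_self h0 _
    have h4 : orderOf (z ^ (j - i)) = 13 := by
      rw [Nat.Coprime.orderOf_pow, hz]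
      rw [hz, (by norm_num : Nat.Prime 13).coprime_iff_not_dvd]
      intro hd
      have := Nat.le_of_dvd (by omega) hd
      omega
    exact absurd (fix13 h4 h1 h3) (by decide)
  rcases lt_trichotomy i j with hlt | heq | hgt
  · exact absurd h (key i j hlt hj)
  · exact heq
  · exact absurd h.symm (key j i hgt hi)

theorem P_ne {z : Perm (Fin 14)} (h0 : z 0 = 0) (i : ℕ) : (z ^ i) 7 ≠ 0 := by
  intro h
  have h3 : (z ^ i) 0 = 0 := Equiv.Perm.pow_apply_eq_self_of_apply_eq_self h0 _
  exact absurd ((z ^ i).injective (h.trans h3.symm)) (by decide)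

theorem mu6_P {z : Perm (Fin 14)} (hz : orderOf z = 13) (hinv : mu6 * z = z⁻¹ * mu6) {i : ℕ}
    (hi : i ≤ 13) : mu6 ((z ^ i) 7) = (z ^ (13 - i)) 7 := by
  have h1 : ∀ i : ℕ, mu6 * z ^ i = (z⁻¹) ^ i * mu6 := by
    intro i
    induction i with
    | zero => simp
    | succ i ih => rw [pow_succ, ← mul_assoc, ih, mul_assoc, hinv, ← mul_assoc, ← pow_succ]
  have h2 : (z⁻¹) ^ i = z ^ (13 - i) := by
    rw [inv_pow, inv_eq_iff_mul_eq_one, ← pow_add]
    have : i + (13 - i) = 13 := by omega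
    rw [this, ← hz, pow_orderOf_eq_one]
  have h3 : mu6 ((z ^ i) 7) = ((z⁻¹) ^ i) (mu6 7) := by
    rw [← Perm.mul_apply, h1, Perm.mul_apply]
  rw [h3, h2]
  have h4 : mu6 7 = 7 := by decide
  rw [h4]

theorem yy_eq (q : Fin 14) : yy q.val = (mu6 q).val := cod_mu6 q

/-- the code of `z` -/
theorem z_code {z : Perm (Fin 14)} (hz : orderOf z = 13) (h0 : z 0 = 0) (h7 : z 7 = 1)
    (hinv : mu6 * z = z⁻¹ * mu6) :
    Cod (zc ((z ^ 2) 7).val ((z ^ 3) 7).val ((z ^ 4) 7).val ((z ^ 5) 7).val ((z ^ 6) 7).val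
      (yy ((z ^ 2) 7).val) (yy ((z ^ 3) 7).val) (yy ((z ^ 4) 7).val) (yy ((z ^ 5) 7).val)
      (yy ((z ^ 6) 7).val)) z := by
  have hsum : (∑ q : Fin 14, (z q).val * 16 ^ q.val)
      = ∑ i ∈ Finset.range 13, ((z ^ (i + 1)) 7).val * 16 ^ ((z ^ i) 7).val := by
    have hU : (Finset.univ : Finset (Fin 14))
        = insert 0 ((Finset.range 13).image (fun i => (z ^ i) 7)) := by
      symm
      apply Finset.eq_univ_of_card
      rw [Finset.card_insert_of_notMem, Finset.card_image_of_injOn, Finset.card_range,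
        Fintype.card_fin]
      · intro i hi j hj hij
        rw [Finset.coe_range, Set.mem_Iio] at hi hj
        exact P_inj hz h0 hi hj hij
      · intro hmem
        obtain ⟨i, _, hi⟩ := Finset.mem_image.1 hmem
        exact P_ne h0 i hi
    rw [hU, Finset.sum_insert, Finset.sum_image, h0]
    · simp only [Fin.val_zero, Nat.zero_mul, zero_add]
      apply Finset.sum_congr rfl
      intro i _
      rw [pow_succ', Perm.mul_apply]
    · intro i hi j hj hij
      rw [Finset.coe_range, Set.mem_Iio] at hi hj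
      exact P_inj hz h0 hi hj hij
    · intro hmem
      obtain ⟨i, _, hi⟩ := Finset.mem_image.1 hmem
      exact P_ne h0 i hi
  have h := cod_sum (x := z)
  rw [hsum] at h
  obtain ⟨P, hP⟩ : ∃ P : ℕ → ℕ, ∀ i, P i = ((z ^ i) 7).val := ⟨_, fun _ => rfl⟩
  simp only [← hP] at h ⊢
  simp only [Finset.sum_range_succ, Finset.sum_range_zero, zero_add] at h
  have e0 : P 0 = 7 := by rw [hP]; rfl
  have e1 : P 1 = 1 := by rw [hP, pow_one, h7]; rfl
  have e13 : P 13 = 7 := by
    have : z ^ 13 = 1 := by rw [← hz]; exact pow_orderOf_eq_one z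
    rw [hP, this]; rfl
  have m : ∀ i, i ≤ 13 → P (13 - i) = yy (P i) := by
    intro i hi
    rw [hP, hP, yy_eq, mu6_P hz hinv hi]
  have e7 : P 7 = yy (P 6) := m 6 (by norm_num)
  have e8 : P 8 = yy (P 5) := m 5 (by norm_num)
  have e9 : P 9 = yy (P 4) := m 4 (by norm_num)
  have e10 : P 10 = yy (P 3) := m 3 (by norm_num)
  have e11 : P 11 = yy (P 2) := m 2 (by norm_num)
  have y1 : yy 1 = 6 := by decide
  have e12 : P 12 = 6 := by rw [show P 12 = yy (P 1) from m 1 (by norm_num), e1, y1]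
  have hsplit : ∀ p2 p3 p4 p5 p6 q2 q3 q4 q5 q6 : ℕ, zc p2 p3 p4 p5 p6 q2 q3 q4 q5 q6
      = 1 * 16 ^ 7 + p2 * 16 ^ 1 + p3 * 16 ^ p2 + p4 * 16 ^ p3 + p5 * 16 ^ p4 + p6 * 16 ^ p5
        + q6 * 16 ^ p6 + q5 * 16 ^ q6 + q4 * 16 ^ q5 + q3 * 16 ^ q4 + q2 * 16 ^ q3
        + 6 * 16 ^ q2 + 7 * 16 ^ 6 := by
    intro p2 p3 p4 p5 p6 q2 q3 q4 q5 q6
    simp only [zc, te_eq, Nat.add_eq]
    ring
  rw [hsplit]
  have h' : Cod (P 1 * 16 ^ P 0 + P 2 * 16 ^ P 1 + P 3 * 16 ^ P 2 + P 4 * 16 ^ P 3
    + P 5 * 16 ^ P 4 + P 6 * 16 ^ P 5 + P 7 * 16 ^ P 6 + P 8 * 16 ^ P 7 + P 9 * 16 ^ P 8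
    + P 10 * 16 ^ P 9 + P 11 * 16 ^ P 10 + P 12 * 16 ^ P 11 + P 13 * 16 ^ P 12) z := h
  rw [e0, e1, e7, e8, e9, e10, e11, e12, e13] at h'
  exact h'

theorem itz_eq {c : ℕ} {z : Perm (Fin 14)} (hz : Cod c z) (i n : ℕ) (p : Fin 14) :
    itz c i n p.val = (((s ^ i * z) ^ n) p).val := by
  induction n with
  | zero => rfl
  | succ n ih =>
    have h1 : itz c i (n + 1) p.val = sh i (dg c (itz c i n p.val)) := rfl
    rw [h1, ih, hz, ← s_pow_apply, pow_succ' (s ^ i * z), Perm.mul_apply, Perm.mul_apply]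

theorem badT_false {c i : ℕ} {z : Perm (Fin 14)} (hz : Cod c z)
    (hT : (s ^ i * z) ^ 6 = 1 ∨ (s ^ i * z) ^ 7 = 1 ∨ (s ^ i * z) ^ 13 = 1) :
    badT c i = false := by
  by_contra hcon
  rw [Bool.not_eq_false, badT, Bool.and_eq_true, Bool.and_eq_true] at hcon
  obtain ⟨h6, h7, h13⟩ := hcon
  have key : ∀ n, (s ^ i * z) ^ n = 1 →
      anyN (fun p => !(Nat.beq (itz c i n p) p)) 14 = true → False := by
    intro n hn h
    obtain ⟨p, hp, h⟩ := anyN_spec h
    have h1 := itz_eq hz i n ⟨p, hp⟩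
    simp only at h1
    rw [hn] at h1
    have h2 : itz c i n p = p := h1
    rw [h2, Nat.beq_refl] at h
    exact absurd h (by decide)
  rcases hT with h | h | h
  · exact key 6 h h6
  · exact key 7 h h7
  · exact key 13 h h13

theorem inL_true {p : ℕ} {l : List ℕ} (h : inL p l = true) : p ∈ l := by
  by_contra hcon
  have h2 : inL p l = false := inL_false (fun a ha e => hcon (by rw [e]; exact ha))
  rw [h2] at h
  exact absurd h (by decide)

/-- the three possible codes -/
theorem z_class {z : Perm (Fin 14)} (hz : orderOf z = 13) (h0 : z 0 = 0) (h7 : z 7 = 1)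
    (hinv : mu6 * z = z⁻¹ * mu6)
    (hT : ∀ i : ℕ, (s ^ i * z) ^ 6 = 1 ∨ (s ^ i * z) ^ 7 = 1 ∨ (s ^ i * z) ^ 13 = 1) :
    Cod zA z ∨ Cod zB z ∨ Cod zC z := by
  have hc := z_code hz h0 h7 hinv
  obtain ⟨P, hP⟩ : ∃ P : ℕ → ℕ, ∀ i, P i = ((z ^ i) 7).val := ⟨_, fun _ => rfl⟩
  simp only [← hP] at hc
  have e0 : P 0 = 7 := by rw [hP]; rfl
  have e1 : P 1 = 1 := by rw [hP, pow_one, h7]; rfl
  have m : ∀ i, i ≤ 13 → P (13 - i) = yy (P i) := by
    intro i hi
    rw [hP, hP, yy_eq, mu6_P hz hinv hi]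
  have y1 : yy 1 = 6 := by decide
  have e12 : P 12 = 6 := by rw [show P 12 = yy (P 1) from m 1 (by norm_num), e1, y1]
  have n0 : ∀ i, P i ≠ 0 := by
    intro i h
    rw [hP] at h
    exact P_ne h0 i (Fin.ext h)
  have inj : ∀ i j, i < 13 → j < 13 → i ≠ j → P i ≠ P j := by
    intro i j hi hj hij h
    rw [hP, hP] at h
    exact hij (P_inj hz h0 hi hj (Fin.ext h))
  have lt : ∀ i, P i < 14 := by
    intro i; rw [hP]; exact Fin.is_lt _
  have n7 : ∀ i, i < 13 → i ≠ 0 → P i ≠ 7 := by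
    intro i hi hi0 h; exact inj i 0 hi (by norm_num) hi0 (h.trans e0.symm)
  have n1 : ∀ i, i < 13 → i ≠ 1 → P i ≠ 1 := by
    intro i hi hi0 h; exact inj i 1 hi (by norm_num) hi0 (h.trans e1.symm)
  have n6 : ∀ i, i < 13 → i ≠ 12 → P i ≠ 6 := by
    intro i hi hi0 h; exact inj i 12 hi (by norm_num) hi0 (h.trans e12.symm)
  have ny : ∀ i j, i < 13 → 0 < j → j < 13 → i ≠ 13 - j → P i ≠ yy (P j) := by
    intro i j hi hj0 hj hij h
    rw [← m j (by omega)] at h
    exact inj i (13 - j) hi (by omega) hij h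
  have h2 := allN_spec loopZ_true (P 2) (lt 2)
  rw [inL_false (by
    intro a ha
    simp only [List.mem_cons, List.not_mem_nil, or_false] at ha
    rcases ha with rfl | rfl | rfl | rfl
    · exact n0 2
    · exact n7 2 (by norm_num) (by norm_num)
    · exact n1 2 (by norm_num) (by norm_num)
    · exact n6 2 (by norm_num) (by norm_num)), Bool.false_or, force_eq] at h2
  have h3 := allN_spec h2 (P 3) (lt 3)
  rw [inL_false (by
    intro a ha
    simp only [List.mem_cons, List.not_mem_nil, or_false] at ha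
    rcases ha with rfl | rfl | rfl | rfl | rfl | rfl
    · exact n0 3
    · exact n7 3 (by norm_num) (by norm_num)
    · exact n1 3 (by norm_num) (by norm_num)
    · exact n6 3 (by norm_num) (by norm_num)
    · exact inj 3 2 (by norm_num) (by norm_num) (by norm_num)
    · exact ny 3 2 (by norm_num) (by norm_num) (by norm_num) (by norm_num)),
    Bool.false_or, force_eq] at h3
  have h4 := allN_spec h3 (P 4) (lt 4)
  rw [inL_false (by
    intro a ha
    simp only [List.mem_cons, List.not_mem_nil, or_false] at ha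
    rcases ha with rfl | rfl | rfl | rfl | rfl | rfl | rfl | rfl
    · exact n0 4
    · exact n7 4 (by norm_num) (by norm_num)
    · exact n1 4 (by norm_num) (by norm_num)
    · exact n6 4 (by norm_num) (by norm_num)
    · exact inj 4 2 (by norm_num) (by norm_num) (by norm_num)
    · exact ny 4 2 (by norm_num) (by norm_num) (by norm_num) (by norm_num)
    · exact inj 4 3 (by norm_num) (by norm_num) (by norm_num)
    · exact ny 4 3 (by norm_num) (by norm_num) (by norm_num) (by norm_num)),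
    Bool.false_or, force_eq] at h4
  have h5 := allN_spec h4 (P 5) (lt 5)
  rw [inL_false (by
    intro a ha
    simp only [List.mem_cons, List.not_mem_nil, or_false] at ha
    rcases ha with rfl | rfl | rfl | rfl | rfl | rfl | rfl | rfl | rfl | rfl
    · exact n0 5
    · exact n7 5 (by norm_num) (by norm_num)
    · exact n1 5 (by norm_num) (by norm_num)
    · exact n6 5 (by norm_num) (by norm_num)
    · exact inj 5 2 (by norm_num) (by norm_num) (by norm_num)
    · exact ny 5 2 (by norm_num) (by norm_num) (by norm_num) (by norm_num)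
    · exact inj 5 3 (by norm_num) (by norm_num) (by norm_num)
    · exact ny 5 3 (by norm_num) (by norm_num) (by norm_num) (by norm_num)
    · exact inj 5 4 (by norm_num) (by norm_num) (by norm_num)
    · exact ny 5 4 (by norm_num) (by norm_num) (by norm_num) (by norm_num)),
    Bool.false_or, force_eq] at h5
  have h6 := allN_spec h5 (P 6) (lt 6)
  rw [inL_false (by
    intro a ha
    simp only [List.mem_cons, List.not_mem_nil, or_false] at ha
    rcases ha with rfl | rfl | rfl | rfl | rfl | rfl | rfl | rfl | rfl | rfl | rfl | rfl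
    · exact n0 6
    · exact n7 6 (by norm_num) (by norm_num)
    · exact n1 6 (by norm_num) (by norm_num)
    · exact n6 6 (by norm_num) (by norm_num)
    · exact inj 6 2 (by norm_num) (by norm_num) (by norm_num)
    · exact ny 6 2 (by norm_num) (by norm_num) (by norm_num) (by norm_num)
    · exact inj 6 3 (by norm_num) (by norm_num) (by norm_num)
    · exact ny 6 3 (by norm_num) (by norm_num) (by norm_num) (by norm_num)
    · exact inj 6 4 (by norm_num) (by norm_num) (by norm_num)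
    · exact ny 6 4 (by norm_num) (by norm_num) (by norm_num) (by norm_num)
    · exact inj 6 5 (by norm_num) (by norm_num) (by norm_num)
    · exact ny 6 5 (by norm_num) (by norm_num) (by norm_num) (by norm_num)),
    Bool.false_or, force_eq, force_eq] at h6
  set c := zc (P 2) (P 3) (P 4) (P 5) (P 6) (yy (P 2)) (yy (P 3)) (yy (P 4)) (yy (P 5))
    (yy (P 6)) with hcdef
  simp only [chkZ, badT_false hc (hT _), Bool.or_false] at h6
  have h7' := inL_true h6
  simp only [List.mem_cons, List.not_mem_nil, or_false] at h7'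
  rcases h7' with h | h | h
  · left; rwa [h] at hc
  · right; left; rwa [h] at hc
  · right; right; rwa [h] at hc

end Pool.Agent.Helper95.TDS
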